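import Mathlib

/-! Blow-up of a convex function at a boundary point of a star-shaped convex set. -/

namespace Pool.Agent.H943R3

open Filter Topology Set

theorem blowup {E : Type*} [NormedAddCommGroup E] [NormedSpace ℝ E] {Ω : Set E}
    (hΩo : IsOpen Ω)
    (hstar : ∀ x ∈ Ω, ∀ r : ℝ, 0 < r → r ≤ 1 → r • x ∈ Ω) {v : E → ℝ}
    (hv : ConvexOn ℝ Ω v) (hvc : ContinuousOn v Ω) {p : E} (hp : p ∈ Ω) {A : ℝ} (hA0 : 0 ≤ A)
    (hA : ∀ s t : ℝ, 0 < s → s < t → t ≤ 1 → v (s • p) ≤ v (t • p) + A * (t - s))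
    {ε : ℝ} (hε : 0 < ε) (hε1 : ε < 1) {M : ℝ}
    (hK : ∀ x ∈ Ω, (1 - ε)⁻¹ • (p - ε • x) ∈ Ω ∧ v ((1 - ε)⁻¹ • (p - ε • x)) ≤ M) :
    ∃ (v0 M1 : ℝ) (L : E → ℝ), 0 ≤ M1 ∧ ConvexOn ℝ Ω L ∧
      (∀ x ∈ Ω, Tendsto (fun k : ℕ => (v ((1 / ((k : ℝ) + 1)) • x) - v0) / (1 / ((k : ℝ) + 1)))
        atTop (𝓝 (L x))) ∧
      ∀ x ∈ Ω, ∀ r : ℝ, 0 < r → r ≤ 1 →
        -M1 ≤ (v (r • x) - v0) / r ∧ (v (r • x) - v0) / r ≤ v x - v0 := by
  have hv2 : ∀ x ∈ Ω, ∀ y ∈ Ω, ∀ a b : ℝ, 0 ≤ a → 0 ≤ b → a + b = 1 →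
      v (a • x + b • y) ≤ a * v x + b * v y := fun x hx y hy a b ha hb hab => by
    have := hv.2 hx hy ha hb hab
    simpa using this
  -- the monotone function along the ray through `p`
  set m : ℝ → ℝ := fun t => v (t • p) + A * t with hm
  have hmono : ∀ s t : ℝ, 0 < s → s ≤ t → t ≤ 1 → m s ≤ m t := by
    intro s t hs hst ht
    rcases hst.eq_or_lt with h | h
    · rw [h]
    · have := hA s t hs h ht
      simp only [hm]
      linarith
  have hlow : ∀ s : ℝ, 0 < s → s ≤ 1 → 2 * v ((1 / 2 : ℝ) • p) - v p - A ≤ m s := by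
    intro s hs hs1
    by_cases h : s < 1 / 2
    · have h1 := hv2 _ (hstar p hp s hs hs1) _ (hstar p hp (1 - s) (by linarith) (by linarith))
        (1 / 2) (1 / 2) (by norm_num) (by norm_num) (by norm_num)
      have e : (1 / 2 : ℝ) • s • p + (1 / 2 : ℝ) • (1 - s) • p = (1 / 2 : ℝ) • p := by
        rw [smul_smul, smul_smul, ← add_smul]
        congr 1
        ring
      rw [e] at h1
      have h2 := hA (1 - s) 1 (by linarith) (by linarith) le_rfl
      rw [one_smul] at h2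
      simp only [hm]
      nlinarith
    · have h1 := hmono (1 / 2) s (by norm_num) (by linarith) hs1
      have h2 := hmono (1 / 2) 1 (by norm_num) (by norm_num) le_rfl
      simp only [hm, one_smul] at h1 h2
      simp only [hm]
      nlinarith
  set v0 : ℝ := sInf (m '' Ioc 0 1) with hv0
  have hne : (m '' Ioc (0 : ℝ) 1).Nonempty := ⟨m 1, 1, by norm_num, rfl⟩
  have hbdd : BddBelow (m '' Ioc (0 : ℝ) 1) := by
    refine ⟨2 * v ((1 / 2 : ℝ) • p) - v p - A, ?_⟩
    rintro _ ⟨s, hs, rfl⟩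
    exact hlow s hs.1 hs.2
  have hv0le : ∀ t : ℝ, 0 < t → t ≤ 1 → v0 ≤ m t := fun t h1 h2 => csInf_le hbdd ⟨t, ⟨h1, h2⟩, rfl⟩
  -- the sequence `w (τ_k) → v0`
  set r : ℕ → ℝ := fun k => 1 / ((k : ℝ) + 1) with hr
  have hr0 : ∀ k, 0 < r k := fun k => by positivity
  have hr1 : ∀ k, r k ≤ 1 := fun k => by
    simp only [hr]
    rw [div_le_one (by positivity)]
    have : (0 : ℝ) ≤ k := Nat.cast_nonneg k
    linarith
  have hrt : Tendsto r atTop (𝓝 0) := tendsto_one_div_add_atTop_nhds_zero_nat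
  have hranti : ∀ j k : ℕ, j ≤ k → r k ≤ r j := fun j k h => by
    simp only [hr]
    have : (j : ℝ) ≤ k := by exact_mod_cast h
    exact one_div_le_one_div_of_le (by positivity) (by linarith)
  have hmt : Tendsto (fun k => m (r k)) atTop (𝓝 v0) := by
    rw [Metric.tendsto_atTop]
    intro δ hδ
    obtain ⟨_, ⟨t0, ht0, rfl⟩, hlt⟩ := exists_lt_of_csInf_lt hne (show sInf (m '' Ioc 0 1) < v0 + δ by
      rw [← hv0]; linarith)
    have hev : ∀ᶠ k in atTop, r k < t0 := hrt.eventually (gt_mem_nhds ht0.1)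
    obtain ⟨N, hN⟩ := eventually_atTop.1 hev
    refine ⟨N, fun k hk => ?_⟩
    have h1 := hmono (r k) t0 (hr0 k) (hN k hk).le ht0.2
    have h2 := hv0le (r k) (hr0 k) (hr1 k)
    rw [Real.dist_eq, abs_lt]
    constructor <;> linarith
  have hwt : Tendsto (fun k => v (r k • p)) atTop (𝓝 v0) := by
    have := hmt.sub (hrt.const_mul A)
    simpa [hm] using this
  -- key inequality
  have hkey : ∀ x ∈ Ω, ∀ t : ℝ, 0 < t → t ≤ 1 → v (t • x) ≤ (1 - t) * v0 + t * v x := by
    intro x hx t ht ht1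
    have hcx : Tendsto (fun k => x - ((1 - t) * r k / t) • p) atTop (𝓝 x) := by
      have h1 : Tendsto (fun k => ((1 - t) * r k / t)) atTop (𝓝 0) := by
        have := (hrt.const_mul (1 - t)).div_const t
        simpa using this
      have := (tendsto_const_nhds (x := x)).sub (h1.smul_const p)
      simpa using this
    have hin : ∀ᶠ k in atTop, x - ((1 - t) * r k / t) • p ∈ Ω := hcx.eventually (hΩo.mem_nhds hx)
    have hvx : Tendsto (fun k => v (x - ((1 - t) * r k / t) • p)) atTop (𝓝 (v x)) :=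
      ((hvc.continuousAt (hΩo.mem_nhds hx)).tendsto).comp hcx
    have hlim := (hwt.const_mul (1 - t)).add (hvx.const_mul t)
    refine ge_of_tendsto hlim ?_
    filter_upwards [hin] with k hk
    have h1 := hv2 _ (hstar p hp (r k) (hr0 k) (hr1 k)) _ hk (1 - t) t
      (by linarith) ht.le (by ring)
    have e : (1 - t) • r k • p + t • (x - ((1 - t) * r k / t) • p) = t • x := by
      rw [smul_sub, smul_smul, smul_smul]
      have : t * ((1 - t) * r k / t) = (1 - t) * r k := by field_simp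
      rw [this]
      abel
    rw [e] at h1
    exact h1
  have hup : ∀ x ∈ Ω, ∀ t : ℝ, 0 < t → t ≤ 1 → (v (t • x) - v0) / t ≤ v x - v0 := by
    intro x hx t ht ht1
    rw [div_le_iff₀ ht]
    have := hkey x hx t ht ht1
    nlinarith
  have hmonr : ∀ x ∈ Ω, ∀ s t : ℝ, 0 < s → s ≤ t → t ≤ 1 →
      (v (s • x) - v0) / s ≤ (v (t • x) - v0) / t := by
    intro x hx s t hs hst ht
    have ht0 : 0 < t := by linarith
    have h1 := hup (t • x) (hstar x hx t ht0 ht) (s / t) (by positivity)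
      (by rw [div_le_one ht0]; exact hst)
    have e : (s / t) • t • x = s • x := by
      rw [smul_smul]
      congr 1
      field_simp
    rw [e] at h1
    rw [div_le_div_iff₀ hs ht0]
    rw [div_le_iff₀ (by positivity)] at h1
    have h3 : (v (t • x) - v0) * (s / t) * t = (v (t • x) - v0) * s := by field_simp
    nlinarith [mul_le_mul_of_nonneg_right h1 ht0.le]
  set M1 : ℝ := (A + |M - v0|) / ε with hM1
  have hM10 : 0 ≤ M1 := by positivity
  have hlo : ∀ x ∈ Ω, ∀ t : ℝ, 0 < t → t ≤ 1 → -M1 ≤ (v (t • x) - v0) / t := by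
    intro x hx t ht ht1
    obtain ⟨hz, hzM⟩ := hK x hx
    set z := (1 - ε)⁻¹ • (p - ε • x) with hzdef
    have h1 := hv2 _ (hstar x hx t ht ht1) _ (hstar z hz t ht ht1) ε (1 - ε)
      hε.le (by linarith) (by ring)
    have e : ε • t • x + (1 - ε) • t • z = t • p := by
      rw [hzdef, smul_smul t, smul_smul (1 - ε)]
      have : (1 - ε) * (t * (1 - ε)⁻¹) = t := by
        have : (1 - ε) ≠ 0 := by linarith
        field_simp
      rw [this, smul_sub, smul_smul, smul_smul, mul_comm ε t]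
      abel
    rw [e] at h1
    have h2 : v0 - A * t ≤ v (t • p) := by
      have := hv0le t ht ht1
      simp only [hm] at this
      linarith
    have h3 := hkey z hz t ht ht1
    have h4 : v (t • z) - v0 ≤ t * |M - v0| := by
      have : v z - v0 ≤ |M - v0| := (by linarith : v z - v0 ≤ M - v0).trans (le_abs_self _)
      nlinarith
    rw [le_div_iff₀ ht]
    have h5 : ε * (-M1 * t) = -(A + |M - v0|) * t := by
      rw [hM1]
      field_simp
    have h6 : -(A + |M - v0|) * t ≤ ε * (v (t • x) - v0) := by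
      have h7 : (1 - ε) * (v (t • z) - v0) ≤ t * |M - v0| := by
        have h8 : 0 ≤ t * |M - v0| := by positivity
        nlinarith
      nlinarith
    rw [← h5] at h6
    exact le_of_mul_le_mul_left h6 hε
  set L : E → ℝ := fun x => ⨅ k, (v (r k • x) - v0) / r k with hL
  have htend : ∀ x ∈ Ω, Tendsto (fun k => (v (r k • x) - v0) / r k) atTop (𝓝 (L x)) := by
    intro x hx
    refine tendsto_atTop_ciInf ?_ ?_
    · intro j k hjk
      exact hmonr x hx (r k) (r j) (hr0 k) (hranti j k hjk) (hr1 j)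
    · refine ⟨-M1, ?_⟩
      rintro _ ⟨k, rfl⟩
      exact hlo x hx (r k) (hr0 k) (hr1 k)
  refine ⟨v0, M1, L, hM10, ⟨hv.1, ?_⟩, htend, fun x hx t ht ht1 => ⟨hlo x hx t ht ht1, hup x hx t ht ht1⟩⟩
  intro x hx y hy a b ha hb hab
  have hxy := hv.1 hx hy ha hb hab
  have h1 := htend _ hxy
  have h2 := ((htend x hx).const_mul a).add ((htend y hy).const_mul b)
  refine le_of_tendsto_of_tendsto' h1 h2 fun k => ?_
  have h3 := hv.2 (hstar x hx (r k) (hr0 k) (hr1 k)) (hstar y hy (r k) (hr0 k) (hr1 k)) ha hb hab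
  have e : a • r k • x + b • r k • y = r k • (a • x + b • y) := by
    rw [smul_add, smul_comm a, smul_comm b]
  rw [e] at h3
  have h0 := hr0 k
  rw [div_le_iff₀ h0]
  have h4 : (a * ((v (r k • x) - v0) / r k) + b * ((v (r k • y) - v0) / r k)) * r k =
      a * (v (r k • x) - v0) + b * (v (r k • y) - v0) := by
    field_simp
  rw [h4]
  simp only [smul_eq_mul] at h3
  have h5 : a * (v (r k • x) - v0) + b * (v (r k • y) - v0) =
      a * v (r k • x) + b * v (r k • y) - (a + b) * v0 := by ring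
  rw [h5, hab]
  linarith

end Pool.Agent.H943R3
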