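import Mathlib

/-! Explicit one-dimensional bumps and test-function bookkeeping. -/

namespace Pool.Agent.H943R3

open MeasureTheory Set Filter Topology

/-- The bump `(1 - t^2)_+^3`. -/
noncomputable def bmp (t : ℝ) : ℝ := (max 0 (1 - t ^ 2)) ^ 3

/-- First derivative of `bmp`. -/
noncomputable def bmp1 (t : ℝ) : ℝ := -6 * t * (max 0 (1 - t ^ 2)) ^ 2

/-- Second derivative of `bmp`. -/
noncomputable def bmp2 (t : ℝ) : ℝ :=
  24 * t ^ 2 * (max 0 (1 - t ^ 2)) - 6 * (max 0 (1 - t ^ 2)) ^ 2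

/-- `(G, G1, G2)` is a `C^2` function with its two derivatives. -/
def C2T (G G1 G2 : ℝ → ℝ) : Prop :=
  (∀ t, HasDerivAt G (G1 t) t) ∧ (∀ t, HasDerivAt G1 (G2 t) t) ∧ Continuous G2

/-- The box `(0,δ) × (-ρ,ρ)²`. -/
def FBox (δ ρ : ℝ) : Set (Fin 3 → ℝ) := {s | 0 < s 0 ∧ s 0 < δ ∧ |s 1| < ρ ∧ |s 2| < ρ}

end Pool.Agent.H943R3
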