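import Pool.Agent.H943R3.Poly

/-! Facts on the explicit bump, scaling of the very weak identity. -/

namespace Pool.Agent.H943R3

open MeasureTheory Set Filter Topology InnerProductSpace
open scoped Pointwise

theorem hasDerivAt_pos_pow (n : ℕ) (x : ℝ) :
    HasDerivAt (fun x : ℝ => (max 0 x) ^ (n + 2)) ((n + 2) * (max 0 x) ^ (n + 1)) x := by
  rcases lt_trichotomy x 0 with h | h | h
  · have h1 : (fun x : ℝ => (max 0 x) ^ (n + 2)) =ᶠ[𝓝 x] fun _ => 0 := by
      filter_upwards [gt_mem_nhds h] with y hy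
      rw [max_eq_left hy.le]
      simp
    rw [max_eq_left h.le]
    have := (hasDerivAt_const x (0 : ℝ)).congr_of_eventuallyEq h1
    simpa using this
  · subst h
    simp only [max_self]
    have h2 : ((n : ℝ) + 2) * 0 ^ (n + 1) = 0 := by simp
    rw [h2, hasDerivAt_iff_isLittleO_nhds_zero]
    simp only [zero_add, max_self, ne_eq, smul_zero, sub_zero]
    have h3 : (0 : ℝ) ^ (n + 2) = 0 := by simp
    rw [h3]
    simp only [sub_zero]
    have h4 : (fun h : ℝ => (max 0 h) ^ (n + 2)) =O[𝓝 0] fun h => h ^ (n + 2) := by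
      refine Asymptotics.IsBigO.of_bound 1 (Eventually.of_forall fun y => ?_)
      rw [Real.norm_eq_abs, Real.norm_eq_abs, abs_pow, abs_pow, one_mul]
      refine pow_le_pow_left₀ (abs_nonneg _) ?_ _
      rw [abs_of_nonneg (le_max_left 0 y)]
      exact max_le (abs_nonneg y) (le_abs_self y)
    refine h4.trans_isLittleO ?_
    have h5 : (fun h : ℝ => h ^ (n + 2)) =o[𝓝 0] fun h => h ^ 1 :=
      Asymptotics.isLittleO_pow_pow (by omega)
    simpa using h5
  · have h1 : (fun x : ℝ => (max 0 x) ^ (n + 2)) =ᶠ[𝓝 x] fun x => x ^ (n + 2) := by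
      filter_upwards [lt_mem_nhds h] with y hy
      rw [max_eq_right hy.le]
    rw [max_eq_right h.le]
    have := (hasDerivAt_pow (n + 2) x).congr_of_eventuallyEq h1
    simpa using this

theorem c2t_bmp : C2T bmp bmp1 bmp2 := by
  have hin : ∀ t : ℝ, HasDerivAt (fun t : ℝ => 1 - t ^ 2) (-(2 * t)) t := by
    intro t
    have := ((hasDerivAt_pow 2 t).const_sub 1)
    simpa using this
  refine ⟨fun t => ?_, fun t => ?_, ?_⟩
  · have h := (hasDerivAt_pos_pow 1 (1 - t ^ 2)).comp t (hin t)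
    refine HasDerivAt.congr_deriv (f := bmp) h ?_
    unfold bmp1
    push_cast
    ring
  · have h := (hasDerivAt_pos_pow 0 (1 - t ^ 2)).comp t (hin t)
    have h2 : HasDerivAt (fun t : ℝ => -6 * t) (-6) t := by
      simpa using (hasDerivAt_id t).const_mul (-6)
    have h3 := h2.mul h
    refine HasDerivAt.congr_deriv (f := bmp1) h3 ?_
    unfold bmp2
    simp only [Function.comp_apply]
    push_cast
    ring
  · unfold bmp2
    fun_prop

theorem bmp_zero_of {t : ℝ} (ht : 1 ≤ |t|) : bmp t = 0 ∧ bmp1 t = 0 ∧ bmp2 t = 0 := by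
  have h : max 0 (1 - t ^ 2) = 0 := by
    apply max_eq_left
    have : 1 ≤ |t| ^ 2 := by nlinarith
    rw [sq_abs] at this
    linarith
  unfold bmp bmp1 bmp2
  rw [h]
  simp

theorem bmp_nonneg (t : ℝ) : 0 ≤ bmp t := by
  unfold bmp
  positivity

theorem C2T.scale {G G1 G2 : ℝ → ℝ} (h : C2T G G1 G2) {σ : ℝ} (hσ : 0 < σ) :
    C2T (fun t => G (t / σ)) (fun t => G1 (t / σ) / σ) (fun t => G2 (t / σ) / σ ^ 2) := by
  have hd : ∀ t : ℝ, HasDerivAt (fun t : ℝ => t / σ) (1 / σ) t := fun t =>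
    (hasDerivAt_id t).div_const σ
  refine ⟨fun t => ?_, fun t => ?_, ?_⟩
  · exact ((h.1 (t / σ)).comp t (hd t)).congr_deriv (by ring)
  · exact (((h.2.1 (t / σ)).comp t (hd t)).div_const σ).congr_deriv (by field_simp)
  · have := h.2.2
    fun_prop

theorem C2T.shift {G G1 G2 : ℝ → ℝ} (h : C2T G G1 G2) (a : ℝ) :
    C2T (fun t => G (t - a)) (fun t => G1 (t - a)) (fun t => G2 (t - a)) := by
  have hd : ∀ t : ℝ, HasDerivAt (fun t : ℝ => t - a) 1 t := fun t =>
    (hasDerivAt_id t).sub_const a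
  refine ⟨fun t => ?_, fun t => ?_, ?_⟩
  · exact ((h.1 (t - a)).comp t (hd t)).congr_deriv (by ring)
  · exact ((h.2.1 (t - a)).comp t (hd t)).congr_deriv (by ring)
  · have := h.2.2
    fun_prop

/-- multiplication of a `C^2` function by `1 + κ t` -/
theorem C2T.lin {G G1 G2 : ℝ → ℝ} (h : C2T G G1 G2) (κ : ℝ) :
    C2T (fun t => G t + κ * (t * G t)) (fun t => G1 t + κ * (G t + t * G1 t))
      (fun t => G2 t + κ * (2 * G1 t + t * G2 t)) := by
  have hid : ∀ t : ℝ, HasDerivAt (fun t : ℝ => t) 1 t := fun t => hasDerivAt_id t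
  refine ⟨fun t => ?_, fun t => ?_, ?_⟩
  · exact ((h.1 t).add (((hid t).mul (h.1 t)).const_mul κ)).congr_deriv (by ring)
  · exact ((h.2.1 t).add (((h.1 t).add ((hid t).mul (h.2.1 t))).const_mul κ)).congr_deriv
      (by ring)
  · have := h.2.2
    have := h.cont
    have := h.cont1
    fun_prop

theorem smul_FBox {r : ℝ} (hr : 0 < r) (δ ρ : ℝ) : r • FBox δ ρ = FBox (r * δ) (r * ρ) := by
  ext s
  constructor
  · rintro ⟨t, ⟨h0, h1, h2, h3⟩, rfl⟩
    refine ⟨?_, ?_, ?_, ?_⟩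
    · simpa using mul_pos hr h0
    · simpa using mul_lt_mul_of_pos_left h1 hr
    · simp only [Pi.smul_apply, smul_eq_mul, abs_mul, abs_of_pos hr]
      exact mul_lt_mul_of_pos_left h2 hr
    · simp only [Pi.smul_apply, smul_eq_mul, abs_mul, abs_of_pos hr]
      exact mul_lt_mul_of_pos_left h3 hr
  · rintro ⟨h0, h1, h2, h3⟩
    refine ⟨r⁻¹ • s, ⟨?_, ?_, ?_, ?_⟩, ?_⟩
    · simp only [Pi.smul_apply, smul_eq_mul]
      positivity
    · simp only [Pi.smul_apply, smul_eq_mul]
      rw [inv_mul_lt_iff₀ hr]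
      exact h1
    · simp only [Pi.smul_apply, smul_eq_mul, abs_mul, abs_inv, abs_of_pos hr]
      rw [inv_mul_lt_iff₀ hr]
      exact h2
    · simp only [Pi.smul_apply, smul_eq_mul, abs_mul, abs_inv, abs_of_pos hr]
      rw [inv_mul_lt_iff₀ hr]
      exact h3
    · simp only [smul_smul]
      rw [mul_inv_cancel₀ hr.ne', one_smul]

theorem fr_smul (r : ℝ) (q : E3) (b : OrthonormalBasis (Fin 3) ℝ E3) (s : Fin 3 → ℝ) :
    fr (r • q) b (r • s) = r • fr q b s := by
  simp only [fr, smul_add, Finset.smul_sum, Pi.smul_apply, smul_eq_mul, smul_smul]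

/-- Rescaling of the very weak identity. -/
theorem vw_resc {u : E3 → ℝ} {q : E3} {b : OrthonormalBasis (Fin 3) ℝ E3} {r δ ρ lm : ℝ}
    (hr : 0 < r) {G G2 η η2 θ θ2 : ℝ → ℝ}
    (h : ∫ s in FBox (r * δ) (r * ρ), u (fr (r • q) b s) *
      (lap (fun t => G (t / r)) (fun t => G2 (t / r) / r ^ 2) (fun t => η (t / r))
        (fun t => η2 (t / r) / r ^ 2) (fun t => θ (t / r)) (fun t => θ2 (t / r) / r ^ 2) s
        + lm * prd (fun t => G (t / r)) (fun t => η (t / r)) (fun t => θ (t / r)) s) = 0) :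
    ∫ s in FBox δ ρ, u (r • fr q b s) *
      (lap G G2 η η2 θ θ2 s + r ^ 2 * (lm * prd G η θ s)) = 0 := by
  set f : (Fin 3 → ℝ) → ℝ := fun s => u (fr (r • q) b s) *
      (lap (fun t => G (t / r)) (fun t => G2 (t / r) / r ^ 2) (fun t => η (t / r))
        (fun t => η2 (t / r) / r ^ 2) (fun t => θ (t / r)) (fun t => θ2 (t / r) / r ^ 2) s
        + lm * prd (fun t => G (t / r)) (fun t => η (t / r)) (fun t => θ (t / r)) s) with hf
  have h1 := Measure.setIntegral_comp_smul_of_pos (volume : Measure (Fin 3 → ℝ)) f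
    (FBox δ ρ) hr
  rw [smul_FBox hr, h, smul_zero] at h1
  have e : ∀ s, u (r • fr q b s) * (lap G G2 η η2 θ θ2 s + r ^ 2 * (lm * prd G η θ s)) =
      r ^ 2 * f (r • s) := by
    intro s
    have hc : ∀ i, (r • s) i / r = s i := by
      intro i
      simp only [Pi.smul_apply, smul_eq_mul]
      field_simp
    simp only [hf, fr_smul, lap, prd, hc]
    field_simp
  simp only [e]
  rw [integral_const_mul, h1, mul_zero]

end Pool.Agent.H943R3
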