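import Mathlib

/-! Compactness in `L²` from approximation by bounded subsets of finite dimensional spaces. -/

namespace Pool.Agent.H943R3

open MeasureTheory Set Filter Topology
open scoped ENNReal

theorem eLpNorm_two_real {X : Type*} [MeasurableSpace X] {μ : Measure X} {f : X → ℝ}
    (hf : MemLp f 2 μ) : eLpNorm f 2 μ = ENNReal.ofReal (√(∫ x, f x ^ 2 ∂μ)) := by
  rw [hf.eLpNorm_eq_integral_rpow_norm (by norm_num) (by norm_num)]
  congr 1
  rw [Real.sqrt_eq_rpow]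
  have h1 : (2 : ℝ≥0∞).toReal = 2 := by simp
  rw [h1]
  congr 1
  · congr 1
    ext x
    rw [Real.norm_eq_abs, Real.rpow_two, sq_abs]
  · norm_num

theorem compact_of_averages {X : Type*} [MeasurableSpace X] {μ : Measure X}
    {φ : ℕ → X → ℝ} (hφ : ∀ n, MemLp (φ n) 2 μ)
    (H : ∀ ε : ℝ, 0 < ε → ∃ (ι : Type) (_ : Fintype ι) (g : ι → X → ℝ) (A : ℝ),
      (∀ i, MemLp (g i) 2 μ) ∧ ∀ n, ∃ a : ι → ℝ, (∀ i, |a i| ≤ A) ∧
        ∫ x, (φ n x - ∑ i, a i * g i x) ^ 2 ∂μ ≤ ε ^ 2) :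
    ∃ u : X → ℝ, MemLp u 2 μ ∧ ∃ ns : ℕ → ℕ, StrictMono ns ∧
      Tendsto (fun k => ∫ x, (φ (ns k) x - u x) ^ 2 ∂μ) atTop (𝓝 0) ∧
      ∀ᵐ x ∂μ, Tendsto (fun k => φ (ns k) x) atTop (𝓝 (u x)) := by
  classical
  set F : ℕ → Lp ℝ 2 μ := fun n => (hφ n).toLp with hF
  have tb : TotallyBounded (range F) := by
    rw [Metric.totallyBounded_iff]
    intro ε hε
    obtain ⟨ι, hι, g, A, hg, hA⟩ := H (ε / 3) (by positivity)
    let T : (ι → ℝ) → Lp ℝ 2 μ := fun a => ∑ i, a i • (hg i).toLp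
    have hT : Continuous T := by
      refine continuous_finsetSum _ fun i _ => ?_
      exact (continuous_apply i).smul continuous_const
    have hC : IsCompact (T '' (Set.pi univ fun _ => Icc (-A) A)) :=
      (isCompact_univ_pi fun _ => isCompact_Icc).image hT
    obtain ⟨t, ht, hcov⟩ := Metric.totallyBounded_iff.1 hC.totallyBounded (ε / 3) (by positivity)
    refine ⟨t, ht, ?_⟩
    rintro _ ⟨n, rfl⟩
    obtain ⟨a, ha, hn⟩ := hA n
    have hmem : T a ∈ T '' (Set.pi univ fun _ => Icc (-A) A) :=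
      mem_image_of_mem T fun i _ => abs_le.1 (ha i)
    obtain ⟨y, hy, hd⟩ := mem_iUnion₂.1 (hcov hmem)
    refine mem_iUnion₂.2 ⟨y, hy, ?_⟩
    rw [Metric.mem_ball] at hd ⊢
    have hdist : dist (F n) (T a) ≤ ε / 3 := by
      rw [dist_eq_norm, Lp.norm_def]
      have hae : (F n - T a : Lp ℝ 2 μ) =ᵐ[μ] fun x => φ n x - ∑ i, a i * g i x := by
        have h1 : (T a : X → ℝ) =ᵐ[μ] fun x => ∑ i, (a i • (hg i).toLp : Lp ℝ 2 μ) x :=
          Lp.coeFn_fun_finsetSum _ _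
        have h2 : ∀ i, (a i • (hg i).toLp : Lp ℝ 2 μ) =ᵐ[μ] fun x => a i * g i x := by
          intro i
          filter_upwards [Lp.coeFn_smul (a i) (hg i).toLp, (hg i).coeFn_toLp] with x e1 e2
          rw [e1, Pi.smul_apply, e2, smul_eq_mul]
        filter_upwards [Lp.coeFn_sub (F n) (T a), h1, ae_all_iff.2 h2, (hφ n).coeFn_toLp]
          with x e1 e2 e3 e4
        rw [e1, Pi.sub_apply, e2, hF]
        simp only [e3, e4]
      have hml : MemLp (fun x => φ n x - ∑ i, a i * g i x) 2 μ := by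
        refine (hφ n).sub ?_
        refine memLp_finsetSum _ fun i _ => ?_
        exact (hg i).const_mul (a i)
      rw [eLpNorm_congr_ae hae, eLpNorm_two_real hml, ENNReal.toReal_ofReal (Real.sqrt_nonneg _)]
      exact Real.sqrt_le_iff.2 ⟨by positivity, hn⟩
    calc dist (F n) y ≤ dist (F n) (T a) + dist (T a) y := dist_triangle _ _ _
      _ < ε := by linarith
  have hcpt : IsCompact (closure (range F)) :=
    tb.closure.isCompact_of_isClosed isClosed_closure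
  obtain ⟨U, -, ns, hns, hlim⟩ := hcpt.tendsto_subseq (x := F)
    (fun n => subset_closure (mem_range_self n))
  have hUm : MemLp (U : X → ℝ) 2 μ := Lp.memLp U
  have hnorm : Tendsto (fun k => eLpNorm (φ (ns k) - (U : X → ℝ)) 2 μ) atTop (𝓝 0) := by
    have h1 := (Lp.tendsto_Lp_iff_tendsto_eLpNorm' (fun k => F (ns k)) U).1 hlim
    refine h1.congr fun k => ?_
    apply eLpNorm_congr_ae
    filter_upwards [(hφ (ns k)).coeFn_toLp] with x hx
    simp only [Pi.sub_apply, hF, hx]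
  obtain ⟨ms, hms, hae⟩ := (tendstoInMeasure_of_tendsto_eLpNorm (by norm_num)
    (fun k => (hφ (ns k)).1) hUm.1 hnorm).exists_seq_tendsto_ae
  refine ⟨U, hUm, ns ∘ ms, hns.comp hms, ?_, hae⟩
  have h2 := hnorm.comp hms.tendsto_atTop
  have h3 : ∀ k, ∫ x, (φ (ns (ms k)) x - U x) ^ 2 ∂μ =
      (eLpNorm (φ (ns (ms k)) - (U : X → ℝ)) 2 μ).toReal ^ 2 := by
    intro k
    have hml : MemLp (φ (ns (ms k)) - (U : X → ℝ)) 2 μ := (hφ _).sub hUm
    rw [eLpNorm_two_real hml, ENNReal.toReal_ofReal (Real.sqrt_nonneg _), Real.sq_sqrt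
      (integral_nonneg fun x => sq_nonneg _)]
    rfl
  simp only [Function.comp_apply, h3]
  have h4 := ((ENNReal.tendsto_toReal ENNReal.zero_ne_top).comp h2).pow 2
  simpa using h4

end Pool.Agent.H943R3
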