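import Pool.Agent.H943R3.Frame

/-! The divergence theorem for product test functions on a box. -/

namespace Pool.Agent.H943R3

open MeasureTheory Set Filter Topology

theorem hasFDerivAt_prod3 {A B C A' B' C' : ℝ → ℝ} (hA : ∀ t, HasDerivAt A (A' t) t)
    (hB : ∀ t, HasDerivAt B (B' t) t) (hC : ∀ t, HasDerivAt C (C' t) t) (x : Fin 3 → ℝ) :
    HasFDerivAt (fun x : Fin 3 → ℝ => A (x 0) * B (x 1) * C (x 2))
      ((A' (x 0) * B (x 1) * C (x 2)) • (ContinuousLinearMap.proj (R := ℝ) (φ := fun _ : Fin 3 => ℝ) 0)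
      + (A (x 0) * B' (x 1) * C (x 2)) • (ContinuousLinearMap.proj (R := ℝ) (φ := fun _ : Fin 3 => ℝ) 1)
      + (A (x 0) * B (x 1) * C' (x 2)) • (ContinuousLinearMap.proj (R := ℝ) (φ := fun _ : Fin 3 => ℝ) 2))
      x := by
  have h0 := (hA (x 0)).comp_hasFDerivAt x (hasFDerivAt_apply (𝕜 := ℝ) (0 : Fin 3) x)
  have h1 := (hB (x 1)).comp_hasFDerivAt x (hasFDerivAt_apply (𝕜 := ℝ) (1 : Fin 3) x)
  have h2 := (hC (x 2)).comp_hasFDerivAt x (hasFDerivAt_apply (𝕜 := ℝ) (2 : Fin 3) x)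
  have := (h0.mul h1).mul h2
  refine this.congr_fderiv ?_
  ext v
  simp
  ring

theorem div_id {δ ρ : ℝ} (hδ : 0 < δ) (hρ : 0 < ρ) (F : (Fin 3 → ℝ) → ℝ) (hF : ContDiff ℝ 1 F)
    {G G1 G2 η η1 η2 θ θ1 θ2 : ℝ → ℝ} (hG : C2T G G1 G2) (hη : C2T η η1 η2)
    (hθ : C2T θ θ1 θ2) (e1 : G1 δ = 0) (e2 : η1 ρ = 0) (e3 : η1 (-ρ) = 0) (e4 : θ1 ρ = 0)
    (e5 : θ1 (-ρ) = 0) :
    (∫ s in Icc (![0, -ρ, -ρ] : Fin 3 → ℝ) ![δ, ρ, ρ],
      (fderiv ℝ F s (Pi.single 0 1) * (G1 (s 0) * η (s 1) * θ (s 2))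
      + fderiv ℝ F s (Pi.single 1 1) * (G (s 0) * η1 (s 1) * θ (s 2))
      + fderiv ℝ F s (Pi.single 2 1) * (G (s 0) * η (s 1) * θ1 (s 2))))
    + ∫ s in Icc (![0, -ρ, -ρ] : Fin 3 → ℝ) ![δ, ρ, ρ],
      F s * (G2 (s 0) * η (s 1) * θ (s 2) + G (s 0) * η2 (s 1) * θ (s 2)
        + G (s 0) * η (s 1) * θ2 (s 2)) =
    - ∫ y in Icc (![-ρ, -ρ] : Fin 2 → ℝ) ![ρ, ρ],
      F (Fin.cons 0 y) * (G1 0 * η (y 0) * θ (y 1)) := by
  obtain ⟨g1, g2, g3⟩ := hG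
  obtain ⟨n1, n2, n3⟩ := hη
  obtain ⟨t1, t2, t3⟩ := hθ
  have cG : Continuous G := continuous_iff_continuousAt.2 fun t => (g1 t).continuousAt
  have cG1 : Continuous G1 := continuous_iff_continuousAt.2 fun t => (g2 t).continuousAt
  have cη : Continuous η := continuous_iff_continuousAt.2 fun t => (n1 t).continuousAt
  have cη1 : Continuous η1 := continuous_iff_continuousAt.2 fun t => (n2 t).continuousAt
  have cθ : Continuous θ := continuous_iff_continuousAt.2 fun t => (t1 t).continuousAt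
  have cθ1 : Continuous θ1 := continuous_iff_continuousAt.2 fun t => (t2 t).continuousAt
  have cF : Continuous F := hF.continuous
  have cF' : Continuous (fderiv ℝ F) := hF.continuous_fderiv (by norm_num)
  have hFd : ∀ x, HasFDerivAt F (fderiv ℝ F x) x := fun x =>
    ((hF.differentiable (by norm_num)) x).hasFDerivAt
  set pr : Fin 3 → ((Fin 3 → ℝ) →L[ℝ] ℝ) :=
    fun i => ContinuousLinearMap.proj (R := ℝ) (φ := fun _ : Fin 3 => ℝ) i with hpr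
  set f : Fin 3 → (Fin 3 → ℝ) → ℝ := ![
    fun x => F x * (G1 (x 0) * η (x 1) * θ (x 2)),
    fun x => F x * (G (x 0) * η1 (x 1) * θ (x 2)),
    fun x => F x * (G (x 0) * η (x 1) * θ1 (x 2))] with hf
  set f' : Fin 3 → (Fin 3 → ℝ) → ((Fin 3 → ℝ) →L[ℝ] ℝ) := ![
    fun x => F x • ((G2 (x 0) * η (x 1) * θ (x 2)) • pr 0 + (G1 (x 0) * η1 (x 1) * θ (x 2)) • pr 1
      + (G1 (x 0) * η (x 1) * θ1 (x 2)) • pr 2) + (G1 (x 0) * η (x 1) * θ (x 2)) • fderiv ℝ F x,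
    fun x => F x • ((G1 (x 0) * η1 (x 1) * θ (x 2)) • pr 0 + (G (x 0) * η2 (x 1) * θ (x 2)) • pr 1
      + (G (x 0) * η1 (x 1) * θ1 (x 2)) • pr 2) + (G (x 0) * η1 (x 1) * θ (x 2)) • fderiv ℝ F x,
    fun x => F x • ((G1 (x 0) * η (x 1) * θ1 (x 2)) • pr 0 + (G (x 0) * η1 (x 1) * θ1 (x 2)) • pr 1
      + (G (x 0) * η (x 1) * θ2 (x 2)) • pr 2) + (G (x 0) * η (x 1) * θ1 (x 2)) • fderiv ℝ F x]
    with hf'
  have hfd : ∀ (x : Fin 3 → ℝ) (i : Fin 3), HasFDerivAt (f i) (f' i x) x := by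
    intro x i
    fin_cases i
    · exact (hFd x).mul (hasFDerivAt_prod3 g2 n1 t1 x)
    · exact (hFd x).mul (hasFDerivAt_prod3 g1 n2 t1 x)
    · exact (hFd x).mul (hasFDerivAt_prod3 g1 n1 t2 x)
  have hle : (![0, -ρ, -ρ] : Fin 3 → ℝ) ≤ ![δ, ρ, ρ] := by
    intro i
    fin_cases i
    · exact hδ.le
    · show -ρ ≤ ρ
      linarith
    · show -ρ ≤ ρ
      linarith
  have hsum : ∀ x, ∑ i, f' i x (Pi.single i 1) =
      (fderiv ℝ F x (Pi.single 0 1) * (G1 (x 0) * η (x 1) * θ (x 2))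
      + fderiv ℝ F x (Pi.single 1 1) * (G (x 0) * η1 (x 1) * θ (x 2))
      + fderiv ℝ F x (Pi.single 2 1) * (G (x 0) * η (x 1) * θ1 (x 2)))
      + F x * (G2 (x 0) * η (x 1) * θ (x 2) + G (x 0) * η2 (x 1) * θ (x 2)
        + G (x 0) * η (x 1) * θ2 (x 2)) := by
    intro x
    rw [Fin.sum_univ_three]
    simp only [hf', hpr, Matrix.cons_val_zero, Matrix.cons_val_one, Matrix.cons_val,
      _root_.add_apply, _root_.smul_apply,
      ContinuousLinearMap.proj_apply, smul_eq_mul]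
    simp
    ring
  have cD0 : Continuous fun x => fderiv ℝ F x (Pi.single 0 1) := cF'.clm_apply continuous_const
  have cD1 : Continuous fun x => fderiv ℝ F x (Pi.single 1 1) := cF'.clm_apply continuous_const
  have cD2 : Continuous fun x => fderiv ℝ F x (Pi.single 2 1) := cF'.clm_apply continuous_const
  have hi1 : IntegrableOn (fun x => (fderiv ℝ F x (Pi.single 0 1) * (G1 (x 0) * η (x 1) * θ (x 2))
      + fderiv ℝ F x (Pi.single 1 1) * (G (x 0) * η1 (x 1) * θ (x 2))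
      + fderiv ℝ F x (Pi.single 2 1) * (G (x 0) * η (x 1) * θ1 (x 2))))
      (Icc (![0, -ρ, -ρ] : Fin 3 → ℝ) ![δ, ρ, ρ]) volume := by
    apply Continuous.integrableOn_Icc
    fun_prop
  have hi2 : IntegrableOn (fun x => F x * (G2 (x 0) * η (x 1) * θ (x 2)
      + G (x 0) * η2 (x 1) * θ (x 2) + G (x 0) * η (x 1) * θ2 (x 2)))
      (Icc (![0, -ρ, -ρ] : Fin 3 → ℝ) ![δ, ρ, ρ]) volume := by
    apply Continuous.integrableOn_Icc
    fun_prop
  have key := integral_divergence_of_hasFDerivAt_off_countable' (![0, -ρ, -ρ] : Fin 3 → ℝ)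
    ![δ, ρ, ρ] hle f f' ∅ countable_empty
    (fun i x _ => (hfd x i).continuousAt.continuousWithinAt)
    (fun x _ i => hfd x i) (by
      simp only [hsum]
      exact hi1.add hi2)
  simp only [hsum] at key
  rw [integral_add hi1 hi2] at key
  rw [key, Fin.sum_univ_three]
  have z0 : ∀ x : Fin 2 → ℝ, f 0 ((0 : Fin 3).insertNth ((![δ, ρ, ρ] : Fin 3 → ℝ) 0) x) = 0 := by
    intro x
    simp [hf, e1]
  have z1 : ∀ x : Fin 2 → ℝ, f 1 ((1 : Fin 3).insertNth ((![δ, ρ, ρ] : Fin 3 → ℝ) 1) x) = 0 := by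
    intro x
    simp only [hf, Matrix.cons_val_one, Matrix.cons_val_zero, Fin.insertNth_apply_same, e2]
    ring
  have z1' : ∀ x : Fin 2 → ℝ,
      f 1 ((1 : Fin 3).insertNth ((![0, -ρ, -ρ] : Fin 3 → ℝ) 1) x) = 0 := by
    intro x
    simp only [hf, Matrix.cons_val_one, Matrix.cons_val_zero, Fin.insertNth_apply_same, e3]
    ring
  have z2 : ∀ x : Fin 2 → ℝ, f 2 ((2 : Fin 3).insertNth ((![δ, ρ, ρ] : Fin 3 → ℝ) 2) x) = 0 := by
    intro x
    simp only [hf, Matrix.cons_val, Fin.insertNth_apply_same, e4]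
    ring
  have z2' : ∀ x : Fin 2 → ℝ,
      f 2 ((2 : Fin 3).insertNth ((![0, -ρ, -ρ] : Fin 3 → ℝ) 2) x) = 0 := by
    intro x
    simp only [hf, Matrix.cons_val, Fin.insertNth_apply_same, e5]
    ring
  simp only [z0, z1, z1', z2, z2', integral_zero, sub_zero, add_zero, zero_sub]
  have r1 : ((![0, -ρ, -ρ] : Fin 3 → ℝ) ∘ (0 : Fin 3).succAbove) = ![-ρ, -ρ] := by
    ext i
    fin_cases i <;> rfl
  have r2 : ((![δ, ρ, ρ] : Fin 3 → ℝ) ∘ (0 : Fin 3).succAbove) = ![ρ, ρ] := by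
    ext i
    fin_cases i <;> rfl
  rw [r1, r2]
  congr 1
  apply integral_congr_ae
  refine Eventually.of_forall fun y => ?_
  have e : ((0 : Fin 3).insertNth (α := fun _ => ℝ) ((![0, -ρ, -ρ] : Fin 3 → ℝ) 0) y) =
      (Fin.cons 0 y : Fin 3 → ℝ) := by
    rw [Fin.insertNth_zero']
    rfl
  show f 0 ((0 : Fin 3).insertNth (α := fun _ => ℝ) ((![0, -ρ, -ρ] : Fin 3 → ℝ) 0) y) = _
  rw [e]
  rfl

end Pool.Agent.H943R3
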