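import Pool.Agent.H943R3.EasyG
import Pool.Agent.H943R3.Blow
import Pool.Agent.H234R4.StepE

/-! The polyhedral domain and the contradiction. -/

namespace Pool.Agent.H943R3

open MeasureTheory Set Filter Topology InnerProductSpace

/-- coordinates to vectors -/
noncomputable def V (a b c : ℝ) : E3 := WithLp.toLp 2 ![a, b, c]

theorem inner_V (a b c : ℝ) (x : E3) : ⟪V a b c, x⟫_ℝ = a * x 0 + b * x 1 + c * x 2 := by
  simp [V, PiLp.inner_apply, Fin.sum_univ_three]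
  ring

@[simp] theorem V0 (a b c : ℝ) : V a b c 0 = a := rfl
@[simp] theorem V1 (a b c : ℝ) : V a b c 1 = b := rfl
@[simp] theorem V2 (a b c : ℝ) : V a b c 2 = c := rfl

theorem norm_V {a b c : ℝ} (h : a ^ 2 + b ^ 2 + c ^ 2 = 1) : ‖V a b c‖ = 1 := by
  have h1 : ‖V a b c‖ ^ 2 = 1 := by
    rw [← real_inner_self_eq_norm_sq, inner_V]
    simp
    linarith
  have h2 : 0 ≤ ‖V a b c‖ := norm_nonneg _
  nlinarith

/-- the counterexample domain `{x, y > 0, x + y < 1, 0 < z < 3 (x + y)}` -/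
def Om : Set E3 := {x | 0 < x 0 ∧ 0 < x 1 ∧ x 0 + x 1 < 1 ∧ 0 < x 2 ∧ x 2 < 3 * (x 0 + x 1)}

/-- inner unit normals -/
noncomputable def nn : Fin 5 → E3 := ![V 1 0 0, V 0 1 0, V 0 0 1,
  V (3 / √19) (3 / √19) (-1 / √19), V (-1 / √2) (-1 / √2) 0]

/-- offsets -/
noncomputable def cc : Fin 5 → ℝ := ![0, 0, 0, 0, -1 / √2]

theorem s19_pos : 0 < √(19 : ℝ) := Real.sqrt_pos.2 (by norm_num)
theorem s2_pos : 0 < √(2 : ℝ) := Real.sqrt_pos.2 (by norm_num)
theorem s19_sq : √(19 : ℝ) ^ 2 = 19 := Real.sq_sqrt (by norm_num)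
theorem s2_sq : √(2 : ℝ) ^ 2 = 2 := Real.sq_sqrt (by norm_num)

theorem nn_norm : ∀ i, ‖nn i‖ = 1 := by
  intro i
  fin_cases i
  · exact norm_V (by norm_num)
  · exact norm_V (by norm_num)
  · exact norm_V (by norm_num)
  · refine norm_V ?_
    rw [div_pow, div_pow, s19_sq]
    norm_num
  · refine norm_V ?_
    rw [div_pow, s2_sq]
    norm_num

theorem in0 (x : E3) : ⟪nn 0, x⟫_ℝ = x 0 := by
  show ⟪V 1 0 0, x⟫_ℝ = _
  rw [inner_V]
  ring
theorem in1 (x : E3) : ⟪nn 1, x⟫_ℝ = x 1 := by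
  show ⟪V 0 1 0, x⟫_ℝ = _
  rw [inner_V]
  ring
theorem in2 (x : E3) : ⟪nn 2, x⟫_ℝ = x 2 := by
  show ⟪V 0 0 1, x⟫_ℝ = _
  rw [inner_V]
  ring
theorem in3 (x : E3) : ⟪nn 3, x⟫_ℝ = (3 * x 0 + 3 * x 1 - x 2) / √19 := by
  show ⟪V (3 / √19) (3 / √19) (-1 / √19), x⟫_ℝ = _
  rw [inner_V]
  ring
theorem in4 (x : E3) : ⟪nn 4, x⟫_ℝ = -(x 0 + x 1) / √2 := by
  show ⟪V (-1 / √2) (-1 / √2) 0, x⟫_ℝ = _
  rw [inner_V]
  ring

theorem c0 : cc 0 = 0 := rfl
theorem c1 : cc 1 = 0 := rfl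
theorem c2 : cc 2 = 0 := rfl
theorem c3 : cc 3 = 0 := rfl
theorem c4 : cc 4 = -1 / √2 := rfl

theorem cap_iff (x : E3) : cc 4 < ⟪nn 4, x⟫_ℝ ↔ x 0 + x 1 < 1 := by
  rw [in4, c4, div_lt_div_iff_of_pos_right s2_pos]
  constructor <;> intro h <;> linarith

theorem roof_iff (x : E3) : cc 3 < ⟪nn 3, x⟫_ℝ ↔ x 2 < 3 * (x 0 + x 1) := by
  rw [in3, c3, lt_div_iff₀ s19_pos, zero_mul]
  constructor <;> intro h <;> linarith

theorem Om_eq : Om = Pol nn cc := by
  ext x
  constructor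
  · rintro ⟨h0, h1, h2, h3, h4⟩ i
    fin_cases i
    · show cc 0 < ⟪nn 0, x⟫_ℝ
      rw [in0]
      exact h0
    · show cc 1 < ⟪nn 1, x⟫_ℝ
      rw [in1]
      exact h1
    · show cc 2 < ⟪nn 2, x⟫_ℝ
      rw [in2]
      exact h3
    · exact (roof_iff x).2 h4
    · exact (cap_iff x).2 h2
  · intro h
    have h0 := h 0
    have h1 := h 1
    have h2 := h 2
    rw [in0] at h0
    rw [in1] at h1
    rw [in2] at h2
    exact ⟨h0, h1, (cap_iff x).1 (h 4), h2, (roof_iff x).1 (h 3)⟩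

theorem Om_open : IsOpen Om := by
  rw [Om_eq]
  exact isOpen_Pol

theorem Om_convex : Convex ℝ Om := by
  rw [Om_eq]
  exact convex_Pol

theorem Om_bdd : Bornology.IsBounded Om := by
  rw [Metric.isBounded_iff_subset_closedBall 0]
  refine ⟨4, fun x hx => ?_⟩
  obtain ⟨h0, h1, h2, h3, h4⟩ := hx
  rw [mem_closedBall_zero_iff]
  have h5 : ‖x‖ ^ 2 ≤ 4 ^ 2 := by
    rw [EuclideanSpace.norm_sq_eq, Fin.sum_univ_three]
    simp only [Real.norm_eq_abs, sq_abs]
    nlinarith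
  exact abs_le_of_sq_le_sq' h5 (by norm_num) |>.2

theorem Om_nonempty : (V (1 / 4) (1 / 4) (1 / 4)) ∈ Om := by
  refine ⟨?_, ?_, ?_, ?_, ?_⟩ <;> simp <;> norm_num

theorem Om_star : ∀ x ∈ Om, ∀ r : ℝ, 0 < r → r ≤ 1 → r • x ∈ Om := by
  intro x hx r hr hr1
  obtain ⟨h0, h1, h2, h3, h4⟩ := hx
  refine ⟨?_, ?_, ?_, ?_, ?_⟩
  · simpa using mul_pos hr h0
  · simpa using mul_pos hr h1
  · simp only [PiLp.smul_apply, smul_eq_mul]
    nlinarith
  · simpa using mul_pos hr h3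
  · simp only [PiLp.smul_apply, smul_eq_mul]
    nlinarith

/-- the four inequalities needed at a projection point, face by face -/
theorem proj_ok {i : Fin 5} {x : E3} (h0 : i ≠ 0 → 0 < x 0) (h1 : i ≠ 1 → 0 < x 1)
    (h2 : i ≠ 2 → 0 < x 2) (h3 : i ≠ 3 → x 2 < 3 * (x 0 + x 1)) (h4 : x 0 + x 1 < 1) :
    ∀ j, j ≠ i → cc j < ⟪nn j, x⟫_ℝ := by
  intro j hj
  fin_cases j
  · show cc 0 < ⟪nn 0, x⟫_ℝ
    rw [in0]
    exact h0 hj.symm
  · show cc 1 < ⟪nn 1, x⟫_ℝ
    rw [in1]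
    exact h1 hj.symm
  · show cc 2 < ⟪nn 2, x⟫_ℝ
    rw [in2]
    exact h2 hj.symm
  · exact (roof_iff x).2 (h3 hj.symm)
  · exact (cap_iff x).2 h4

/-- the mass of the proof: no log-concave first Robin eigenfunction -/
theorem no_logconcave {α : ℝ} (hα : 0 < α) {u : E3 → ℝ} (hu : IsFirstRobin Om α u)
    (hlc : ConcaveOn ℝ Om (fun x => Real.log (u x))) : False := by
  set v : E3 → ℝ := fun x => - Real.log (u x) with hv
  have hconv : ConvexOn ℝ Om v := hlc.neg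
  have hvc : ContinuousOn v Om := hconv.continuousOn Om_open
  have hbd : Bornology.IsBounded (Pol nn cc) := by
    rw [← Om_eq]
    exact Om_bdd
  have hGd : Good Om := by
    rw [Om_eq]
    exact good_Pol nn_norm hbd
  -- easy inequality, in general form
  have easy : ∀ (i : Fin 5) (x : E3), x ∈ Om →
      (∀ j, j ≠ i → cc j < ⟪nn j, x - (⟪nn i, x⟫_ℝ - cc i) • nn i⟫_ℝ) →
      ∀ h : ℝ, 0 < h → x + h • nn i ∈ Om → v x ≤ v (x + h • nn i) + α * h := by
    intro i x hx hpr h hh hxh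
    rw [Om_eq] at hx hxh hconv hu
    exact easy_global nn_norm hbd hα hu hv hconv hx hpr hh hxh
  have n0 : nn 0 = V 1 0 0 := rfl
  have n1 : nn 1 = V 0 1 0 := rfl
  have n2 : nn 2 = V 0 0 1 := rfl
  have n3 : nn 3 = V (3 / √19) (3 / √19) (-1 / √19) := rfl
  set p : E3 := V (1 / 4) (1 / 4) (1 / 4) with hp
  have hpOm : p ∈ Om := Om_nonempty
  -- path along the diagonal
  have hpath : ∀ s t : ℝ, 0 < s → s < t → t ≤ 1 → v (s • p) ≤ v (t • p) + (3 / 4 * α) * (t - s) := by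
    intro s t hs hst ht
    have hh : 0 < (t - s) / 4 := by linarith
    have m1 : s • p ∈ Om := Om_star p hpOm s hs (by linarith)
    have m2 : s • p + ((t - s) / 4) • nn 0 ∈ Om := by
      rw [n0]
      refine ⟨?_, ?_, ?_, ?_, ?_⟩ <;> simp [hp] <;> linarith
    have m3 : s • p + ((t - s) / 4) • nn 0 + ((t - s) / 4) • nn 1 ∈ Om := by
      rw [n0, n1]
      refine ⟨?_, ?_, ?_, ?_, ?_⟩ <;> simp [hp] <;> linarith
    have m4 : s • p + ((t - s) / 4) • nn 0 + ((t - s) / 4) • nn 1 + ((t - s) / 4) • nn 2 ∈ Om := by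
      rw [n0, n1, n2]
      refine ⟨?_, ?_, ?_, ?_, ?_⟩ <;> simp [hp] <;> linarith
    have k1 := easy 0 _ m1 (by
      rw [in0, c0, n0]
      apply proj_ok
      · intro h
        exact absurd rfl h
      · intro _
        simp [hp]
        linarith
      · intro _
        simp [hp]
        linarith
      · intro _
        simp [hp]
        linarith
      · simp [hp]
        linarith) _ hh m2
    have k2 := easy 1 _ m2 (by
      rw [in1, c1, n0, n1]
      apply proj_ok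
      · intro _
        simp [hp]
        linarith
      · intro h
        exact absurd rfl h
      · intro _
        simp [hp]
        linarith
      · intro _
        simp [hp]
        linarith
      · simp [hp]
        linarith) _ hh m3
    have k3 := easy 2 _ m3 (by
      rw [in2, c2, n0, n1, n2]
      apply proj_ok
      · intro _
        simp [hp]
        linarith
      · intro _
        simp [hp]
        linarith
      · intro h
        exact absurd rfl h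
      · intro _
        simp [hp]
        linarith
      · simp [hp]
        linarith) _ hh m4
    have e : s • p + ((t - s) / 4) • nn 0 + ((t - s) / 4) • nn 1 + ((t - s) / 4) • nn 2 =
        t • p := by
      rw [n0, n1, n2, hp]
      ext i
      fin_cases i <;> simp [V] <;> ring
    rw [e] at k3
    linarith
  -- compact set for the lower bound
  set Kc : Set E3 := {x | 1 / 10 ≤ x 0 ∧ 1 / 10 ≤ x 1 ∧ x 0 + x 1 ≤ 9 / 10 ∧ 1 / 10 ≤ x 2 ∧
    x 2 ≤ 3 * (x 0 + x 1) - 1 / 10} with hKc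
  have hKOm : Kc ⊆ Om := by
    rintro x ⟨h0, h1, h2, h3, h4⟩
    exact ⟨by linarith, by linarith, by linarith, by linarith, by linarith⟩
  have hKcpt : IsCompact Kc := by
    refine Metric.isCompact_of_isClosed_isBounded ?_ (Om_bdd.subset hKOm)
    have e : Kc = {x : E3 | 1 / 10 ≤ x 0} ∩ ({x : E3 | 1 / 10 ≤ x 1} ∩
        ({x : E3 | x 0 + x 1 ≤ 9 / 10} ∩ ({x : E3 | 1 / 10 ≤ x 2} ∩
        {x : E3 | x 2 ≤ 3 * (x 0 + x 1) - 1 / 10}))) := by
      ext x
      simp [hKc]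
    rw [e]
    refine IsClosed.inter (isClosed_le (by fun_prop) (by fun_prop)) ?_
    refine IsClosed.inter (isClosed_le (by fun_prop) (by fun_prop)) ?_
    refine IsClosed.inter (isClosed_le (by fun_prop) (by fun_prop)) ?_
    exact IsClosed.inter (isClosed_le (by fun_prop) (by fun_prop))
      (isClosed_le (by fun_prop) (by fun_prop))
  obtain ⟨M, hM⟩ := hKcpt.exists_bound_of_continuousOn (hvc.mono hKOm)
  have hK : ∀ x ∈ Om, (1 - 1 / 100 : ℝ)⁻¹ • (p - (1 / 100 : ℝ) • x) ∈ Om ∧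
      v ((1 - 1 / 100 : ℝ)⁻¹ • (p - (1 / 100 : ℝ) • x)) ≤ M := by
    intro x hx
    obtain ⟨h0, h1, h2, h3, h4⟩ := hx
    have hz : (1 - 1 / 100 : ℝ)⁻¹ • (p - (1 / 100 : ℝ) • x) ∈ Kc := by
      have e0 : ((1 - 1 / 100 : ℝ)⁻¹ • (p - (1 / 100 : ℝ) • x)) 0 =
          (1 - 1 / 100 : ℝ)⁻¹ * (1 / 4 - (1 / 100) * x 0) := by simp [hp]
      have e1 : ((1 - 1 / 100 : ℝ)⁻¹ • (p - (1 / 100 : ℝ) • x)) 1 =
          (1 - 1 / 100 : ℝ)⁻¹ * (1 / 4 - (1 / 100) * x 1) := by simp [hp]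
      have e2 : ((1 - 1 / 100 : ℝ)⁻¹ • (p - (1 / 100 : ℝ) • x)) 2 =
          (1 - 1 / 100 : ℝ)⁻¹ * (1 / 4 - (1 / 100) * x 2) := by simp [hp]
      simp only [hKc, mem_ofPred_eq]
      rw [e0, e1, e2]
      norm_num
      refine ⟨?_, ?_, ?_, ?_, ?_⟩ <;> linarith
    exact ⟨hKOm hz, (le_abs_self _).trans (hM _ hz)⟩
  obtain ⟨v0, M1, L, hM1, hLc, hLt, hLb⟩ := blowup Om_open Om_star hconv hvc hpOm
    (show 0 ≤ 3 / 4 * α by positivity) hpath (show (0 : ℝ) < 1 / 100 by norm_num) (by norm_num) hK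
  have hB : BlowData Om v v0 M1 L := ⟨hM1, hLt, hLb⟩
  -- the blow-up limit is affine
  set b : OrthonormalBasis (Fin 3) ℝ E3 := EuclideanSpace.basisFun (Fin 3) ℝ with hbdef
  have haffc := Pool.Agent.H234R4.StepE.affine_of_weak_harmonic
    (C := {s : Fin 3 → ℝ | fr 0 b s ∈ Om}) (Om_open.preimage (continuous_fr 0 b))
    ⟨co 0 b p, by show fr 0 b (co 0 b p) ∈ Om; rw [fr_co]; exact hpOm⟩
    (fun s => L (fr 0 b s))
    (by
      refine ⟨?_, ?_⟩
      · intro s hs t ht x y hx hy hxy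
        show fr 0 b (x • s + y • t) ∈ Om
        rw [fr_convex 0 b s t hxy]
        exact Om_convex hs ht hx hy hxy
      · intro s hs t ht x y hx hy hxy
        show L (fr 0 b (x • s + y • t)) ≤ _
        rw [fr_convex 0 b s t hxy]
        exact hLc.2 hs ht hx hy hxy)
    (fun p' ρ hρ hcube => weak_harmonic hGd Om_star hα.le hu hv hvc hB b hρ hcube)
  obtain ⟨a', c', ha'⟩ := haffc
  set a : E3 := ∑ i, a' i • b i with ha
  have haff : ∀ x ∈ Om, L x = ⟪a, x⟫_ℝ + c' := by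
    intro x hx
    have h1 := ha' (co 0 b x) (by show fr 0 b (co 0 b x) ∈ Om; rw [fr_co]; exact hx)
    simp only [fr_co] at h1
    rw [h1, ha, sum_inner]
    congr 1
    refine Finset.sum_congr rfl fun i _ => ?_
    rw [real_inner_smul_left]
    simp [co]
  -- walls
  have hwall : ∀ i : Fin 5, cc i = 0 → ∀ q : E3, ⟪nn i, q⟫_ℝ = 0 →
      (∀ j, j ≠ i → cc j < ⟪nn j, q⟫_ℝ) → ⟪a, nn i⟫_ℝ = -α := by
    intro i hci q hq hq'
    obtain ⟨fb, hfb⟩ := exists_frame (nn_norm i)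
    have hq0 : ⟪nn i, q⟫_ℝ = cc i := by rw [hq, hci]
    obtain ⟨δ, hδ, M2, hbox, hM2⟩ : ∃ δ > 0, ∃ M2 : ℝ, (∀ s ∈ FBox δ δ, fr q fb s ∈ Om) ∧
        ∀ s ∈ FBox δ δ, v (fr q fb s) ≤ M2 := by
      rw [Om_eq] at hu hconv hvc ⊢
      exact wall_bound nn_norm hbd hα hu hv hconv hvc hq0 hq' hfb
    have h1 := wall_slope hGd Om_star hα.le hu hv hvc hB hδ hδ hbox
      (fun x hx => by
        rw [hfb]
        rw [Om_eq] at hx
        have := hx i
        rw [hci] at this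
        exact this)
      (by rw [hfb]; exact hq) hM2 haff
    rw [hfb] at h1
    exact h1
  have w0 : ⟪a, nn 0⟫_ℝ = -α := by
    refine hwall 0 c0 (V 0 (1 / 4) (1 / 4)) (by rw [in0]; simp) (proj_ok ?_ ?_ ?_ ?_ ?_)
    · intro h
      exact absurd rfl h
    · intro _
      simp
    · intro _
      simp
    · intro _
      simp
    · simp
      norm_num
  have w1 : ⟪a, nn 1⟫_ℝ = -α := by
    refine hwall 1 c1 (V (1 / 4) 0 (1 / 4)) (by rw [in1]; simp) (proj_ok ?_ ?_ ?_ ?_ ?_)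
    · intro _
      simp
    · intro h
      exact absurd rfl h
    · intro _
      simp
    · intro _
      simp
    · simp
      norm_num
  have w2 : ⟪a, nn 2⟫_ℝ = -α := by
    refine hwall 2 c2 (V (1 / 4) (1 / 4) 0) (by rw [in2]; simp) (proj_ok ?_ ?_ ?_ ?_ ?_)
    · intro _
      simp
    · intro _
      simp
    · intro h
      exact absurd rfl h
    · intro _
      simp
    · simp
      norm_num
  have w3 : ⟪a, nn 3⟫_ℝ = -α := by
    refine hwall 3 c3 (V (1 / 8) (1 / 8) (3 / 4)) (by rw [in3]; simp; norm_num)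
      (proj_ok ?_ ?_ ?_ ?_ ?_)
    · intro _
      simp
    · intro _
      simp
    · intro _
      simp
    · intro h
      exact absurd rfl h
    · simp
      norm_num
  rw [real_inner_comm, in0] at w0
  rw [real_inner_comm, in1] at w1
  rw [real_inner_comm, in2] at w2
  rw [real_inner_comm, in3, w0, w1, w2, div_eq_iff s19_pos.ne'] at w3
  have h19 := s19_sq
  have hpos := s19_pos
  have h5 : √(19 : ℝ) = 5 := by
    have : α * (√19 - 5) = 0 := by linarith
    rcases mul_eq_zero.1 this with h | h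
    · linarith
    · linarith
  rw [h5] at h19
  norm_num at h19

end Pool.Agent.H943R3
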