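import Pool.Agent.H943R3.Bump
import Pool.Agent.H54R3.StepC

namespace Pool.Agent.H943R3
open MeasureTheory Set Filter Topology

/-- The easy direction in box coordinates (proved by helper54). -/
theorem easy_dir {δ ρ α lam : ℝ} (hδ : 0 < δ) (hρ : 0 < ρ) (hα : 0 < α)
    (U : (Fin 3 → ℝ) → ℝ) (hpos : ∀ s ∈ FBox δ ρ, 0 < U s)
    (hconc : ConcaveOn ℝ (FBox δ ρ) (fun s => Real.log (U s)))
    (hw : ∀ (G G1 G2 η η1 η2 θ θ1 θ2 : ℝ → ℝ) (δ' ρ' : ℝ), 0 < δ' → δ' < δ → 0 < ρ' → ρ' < ρ →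
      C2T G G1 G2 → C2T η η1 η2 → C2T θ θ1 θ2 → G1 0 = α * G 0 →
      (∀ t, δ' ≤ t → G t = 0) → (∀ t, ρ' ≤ |t| → η t = 0) → (∀ t, ρ' ≤ |t| → θ t = 0) →
      ∫ s in FBox δ ρ, U s * (G2 (s 0) * η (s 1) * θ (s 2) + G (s 0) * η2 (s 1) * θ (s 2)
        + G (s 0) * η (s 1) * θ2 (s 2) + lam * (G (s 0) * η (s 1) * θ (s 2))) = 0) :
    ∀ s ∈ FBox δ ρ, ∀ h, 0 < h → s 0 + h < δ →
      U (s + Pi.single 0 h) ≤ Real.exp (α * h) * U s :=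
  Pool.Agent.H54R3.StepC.easy_dir hδ hρ hα U hpos hconc hw

end Pool.Agent.H943R3
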