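import Pool.Agent.H943R3.Wall
import Pool.Agent.H943R3.Stmts

/-! The easy slope inequality above a face of a polyhedron. -/

namespace Pool.Agent.H943R3

open MeasureTheory Set Filter Topology InnerProductSpace

theorem C2T.zero_deriv {G G1 G2 : ℝ → ℝ} (h : C2T G G1 G2) {t : ℝ} (ht : G =ᶠ[𝓝 t] fun _ => 0) :
    G1 t = 0 := by
  have h1 : HasDerivAt G 0 t := (hasDerivAt_const t (0 : ℝ)).congr_of_eventuallyEq ht
  exact (h.1 t).unique h1

section
variable {ι : Type} [Fintype ι] {n : ι → E3} {c : ι → ℝ}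

theorem box_Pol' {i : ι} {q : E3} (hq : ⟪n i, q⟫_ℝ = c i)
    (hq' : ∀ j, j ≠ i → c j < ⟪n j, q⟫_ℝ)
    {b : OrthonormalBasis (Fin 3) ℝ E3} (hb : b 0 = n i) :
    ∃ δ > 0, (∀ s : Fin 3 → ℝ, (∀ k, |s k| < δ) → ∀ j, j ≠ i → c j < ⟪n j, fr q b s⟫_ℝ) ∧
      ∀ s : Fin 3 → ℝ, 0 < s 0 → (∀ k, |s k| < δ) → fr q b s ∈ Pol n c := by
  have hev : ∀ᶠ s in 𝓝 (0 : Fin 3 → ℝ), ∀ j, j ≠ i → c j < ⟪n j, fr q b s⟫_ℝ := by
    rw [eventually_all]
    intro j
    by_cases hj : j = i
    · exact Eventually.of_forall fun s h => absurd hj h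
    · have hc : Continuous fun s => ⟪n j, fr q b s⟫_ℝ :=
        continuous_const.inner (continuous_fr q b)
      have h0 : fr q b 0 = q := by simp [fr]
      have := hc.continuousAt.eventually (lt_mem_nhds (show c j < ⟪n j, fr q b 0⟫_ℝ by
        rw [h0]; exact hq' j hj))
      filter_upwards [this] with s hs _ using hs
  obtain ⟨δ, hδ, hball⟩ := Metric.eventually_nhds_iff.1 hev
  have hA : ∀ s : Fin 3 → ℝ, (∀ k, |s k| < δ) → ∀ j, j ≠ i → c j < ⟪n j, fr q b s⟫_ℝ := by
    intro s hs j hj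
    refine hball ?_ j hj
    rw [dist_zero_right, pi_norm_lt_iff hδ]
    intro k
    rw [Real.norm_eq_abs]
    exact hs k
  refine ⟨δ, hδ, hA, fun s hs0 hs j => ?_⟩
  by_cases hj : j = i
  · subst hj
    have h1 : co q b (fr q b s) 0 = s 0 := by rw [co_fr]
    simp only [co, hb, inner_sub_right, hq] at h1
    linarith
  · exact hA s hs j hj

theorem FBox_sub {δ : ℝ} {s : Fin 3 → ℝ} (hs : s ∈ FBox δ δ) : ∀ k, |s k| < δ := by
  obtain ⟨h0, h1, h2, h3⟩ := hs
  intro k
  fin_cases k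
  · exact abs_lt.2 ⟨by show -δ < s 0; linarith, h1⟩
  · exact h2
  · exact h3

theorem fr_convex (q : E3) (b : OrthonormalBasis (Fin 3) ℝ E3) (s t : Fin 3 → ℝ) {x y : ℝ}
    (hxy : x + y = 1) : fr q b (x • s + y • t) = x • fr q b s + y • fr q b t := by
  have e : q = x • q + y • q := by rw [← add_smul, hxy, one_smul]
  simp only [fr, Pi.add_apply, Pi.smul_apply, smul_eq_mul, add_smul, Finset.sum_add_distrib,
    smul_add, Finset.smul_sum, smul_smul]
  nth_rewrite 1 [e]
  abel

theorem convex_FBox (δ ρ : ℝ) : Convex ℝ (FBox δ ρ) := by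
  rw [FBox_eq]
  exact convex_pi fun i _ => convex_Ioo _ _

/-- The local easy inequality near a face point. -/
theorem easy_local (hn : ∀ i, ‖n i‖ = 1) (hbd : Bornology.IsBounded (Pol n c)) {α : ℝ}
    (hα : 0 < α) {u v : E3 → ℝ} (hu : IsFirstRobin (Pol n c) α u)
    (hv : v = fun x => - Real.log (u x)) (hconv : ConvexOn ℝ (Pol n c) v) {i : ι} {q : E3}
    (hq : ⟪n i, q⟫_ℝ = c i)
    {b : OrthonormalBasis (Fin 3) ℝ E3} (hb : b 0 = n i) {δ : ℝ} (hδ : 0 < δ)
    (hbox : ∀ s ∈ FBox δ δ, fr q b s ∈ Pol n c) :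
    ∀ s ∈ FBox δ δ, ∀ h, 0 < h → s 0 + h < δ →
      v (fr q b s) ≤ v (fr q b (s + Pi.single 0 h)) + α * h := by
  have hGd := good_Pol hn hbd
  have key := easy_dir (lam := lam (Pol n c) α) hδ hδ hα (fun s => u (fr q b s))
    (fun s hs => hu.1 _ (hbox s hs)) ?_ ?_
  · intro s hs h hh hsh
    have h1 := key s hs h hh hsh
    have hs' : s + Pi.single 0 h ∈ FBox δ δ := by
      obtain ⟨g0, g1, g2, g3⟩ := hs
      refine ⟨?_, ?_, ?_, ?_⟩
      · simp
        linarith
      · simpa using hsh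
      · simpa using g2
      · simpa using g3
    have p1 := hu.1 _ (hbox s hs)
    have p2 := hu.1 _ (hbox _ hs')
    have h2 := Real.log_le_log p2 h1
    rw [Real.log_mul (Real.exp_pos _).ne' p1.ne', Real.log_exp] at h2
    simp only [hv]
    linarith
  · refine ⟨convex_FBox δ δ, ?_⟩
    intro s hs t ht x y hx hy hxy
    have h1 := hconv.2 (hbox s hs) (hbox t ht) hx hy hxy
    simp only [hv, smul_eq_mul] at h1 ⊢
    rw [fr_convex q b s t hxy]
    linarith
  · intro G G1 G2 η η1 η2 θ θ1 θ2 δ' ρ' h1 h2 h3 h4 hG hη hθ bc vG vη vθ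
    have hA := adm_face (q := q) (b := b) (α := α) hGd.opn hδ hδ hbox
      (fun x hx => co_pos_Pol hq hb hx) hG hη hθ bc
      (fun t ht => ⟨vG t (by linarith), hG.zero_deriv (by
        filter_upwards [lt_mem_nhds (show δ' < t by linarith)] with y hy
        exact vG y hy.le)⟩)
      (fun t ht => ⟨vη t (by linarith), hη.zero_deriv (by
        have : ∀ᶠ y in 𝓝 t, ρ' < |y| :=
          continuous_abs.continuousAt.eventually (lt_mem_nhds (show ρ' < |t| by linarith))
        filter_upwards [this] with y hy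
        exact vη y hy.le)⟩)
      (fun t ht => ⟨vθ t (by linarith), hθ.zero_deriv (by
        have : ∀ᶠ y in 𝓝 t, ρ' < |y| :=
          continuous_abs.continuousAt.eventually (lt_mem_nhds (show ρ' < |t| by linarith))
        filter_upwards [this] with y hy
        exact vθ y hy.le)⟩)
    have := very_weak hGd hα.le hA hu
    exact this

theorem easy_global (hn : ∀ i, ‖n i‖ = 1) (hbd : Bornology.IsBounded (Pol n c)) {α : ℝ}
    (hα : 0 < α) {u v : E3 → ℝ} (hu : IsFirstRobin (Pol n c) α u)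
    (hv : v = fun x => - Real.log (u x)) (hconv : ConvexOn ℝ (Pol n c) v) {i : ι} {x : E3}
    (hx : x ∈ Pol n c) (hproj : ∀ j, j ≠ i → c j < ⟪n j, x - (⟪n i, x⟫_ℝ - c i) • n i⟫_ℝ)
    {h : ℝ} (hh : 0 < h) (hxh : x + h • n i ∈ Pol n c) :
    v x ≤ v (x + h • n i) + α * h := by
  set d : ℝ := ⟪n i, x⟫_ℝ - c i with hd
  have hd0 : 0 < d := by
    have := hx i
    linarith
  set q : E3 := x - d • n i with hqdef
  have hii : ⟪n i, n i⟫_ℝ = 1 := by rw [real_inner_self_eq_norm_sq, hn i, one_pow]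
  have hq : ⟪n i, q⟫_ℝ = c i := by
    rw [hqdef, inner_sub_right, inner_smul_right, hii, hd]
    ring
  obtain ⟨b, hb⟩ := exists_frame (hn i)
  obtain ⟨δ, hδ, -, hbox0⟩ := box_Pol' hq hproj hb
  have hbox : ∀ s ∈ FBox δ δ, fr q b s ∈ Pol n c := fun s hs => hbox0 s hs.1 (FBox_sub hs)
  have hloc := easy_local hn hbd hα hu hv hconv hq hb hδ hbox
  set t1 : ℝ := min d δ / 3 with ht1
  have hm : 0 < min d δ := lt_min hd0 hδ
  have ht1p : 0 < t1 := by positivity
  have hmd : min d δ ≤ d := min_le_left _ _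
  have hmδ : min d δ ≤ δ := min_le_right _ _
  have hfr : ∀ t : ℝ, fr q b (Pi.single 0 t) = q + t • n i := by
    intro t
    simp only [fr, Fin.sum_univ_three]
    simp [hb]
  have hsin : (Pi.single 0 t1 : Fin 3 → ℝ) ∈ FBox δ δ := by
    refine ⟨?_, ?_, ?_, ?_⟩
    · simpa using ht1p
    · simp only [Pi.single_eq_same]
      linarith
    · simpa using hδ
    · simpa using hδ
  have h1 := hloc _ hsin t1 ht1p (by
    simp only [Pi.single_eq_same]
    linarith)
  rw [← Pi.single_add, hfr, hfr] at h1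
  -- the convex function on the line
  have hline : ConvexOn ℝ {t : ℝ | q + t • n i ∈ Pol n c} (fun t => v (q + t • n i)) := by
    have hlin : ∀ s t x y : ℝ, x + y = 1 → q + (x • s + y • t) • n i =
        x • (q + s • n i) + y • (q + t • n i) := by
      intro s t x y hxy
      have e : q = x • q + y • q := by rw [← add_smul, hxy, one_smul]
      nth_rewrite 1 [e]
      simp only [smul_eq_mul, add_smul, smul_add, smul_smul]
      abel
    refine ⟨?_, ?_⟩
    · intro s hs t ht x y hx0 hy0 hxy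
      show q + (x • s + y • t) • n i ∈ Pol n c
      rw [hlin s t x y hxy]
      exact convex_Pol hs ht hx0 hy0 hxy
    · intro s hs t ht x y hx0 hy0 hxy
      show v (q + (x • s + y • t) • n i) ≤ _
      rw [hlin s t x y hxy]
      exact hconv.2 hs ht hx0 hy0 hxy
  have m1 : t1 ∈ {t : ℝ | q + t • n i ∈ Pol n c} := by
    show q + t1 • n i ∈ Pol n c
    rw [← hfr]
    exact hbox _ hsin
  have m3 : d ∈ {t : ℝ | q + t • n i ∈ Pol n c} := by
    show q + d • n i ∈ Pol n c
    rw [hqdef, sub_add_cancel]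
    exact hx
  have m4 : d + h ∈ {t : ℝ | q + t • n i ∈ Pol n c} := by
    show q + (d + h) • n i ∈ Pol n c
    rw [hqdef, add_smul, ← add_assoc, sub_add_cancel]
    exact hxh
  have s1 := hline.slope_mono_adjacent m1 m3 (show t1 < t1 + t1 by linarith)
    (show t1 + t1 < d by linarith)
  have m2 : t1 + t1 ∈ {t : ℝ | q + t • n i ∈ Pol n c} := by
    have hoc := hline.1.ordConnected
    exact hoc.out m1 m3 ⟨by linarith, by linarith⟩
  have s2 := hline.slope_mono_adjacent m2 m4 (show t1 + t1 < d by linarith)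
    (show d < d + h by linarith)
  have ex : q + d • n i = x := by rw [hqdef, sub_add_cancel]
  have ex2 : q + (d + h) • n i = x + h • n i := by
    rw [hqdef, add_smul, ← add_assoc, sub_add_cancel]
  rw [ex] at s1 s2
  rw [ex2] at s2
  have s0 : -α ≤ (v (q + (t1 + t1) • n i) - v (q + t1 • n i)) / (t1 + t1 - t1) := by
    rw [le_div_iff₀ (by linarith)]
    linarith
  have s4 : -α ≤ (v (x + h • n i) - v x) / (d + h - d) := s0.trans (s1.trans s2)
  rw [le_div_iff₀ (by linarith)] at s4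
  linarith

/-- uniform upper bound of `v` on a small box at a face. -/
theorem wall_bound (hn : ∀ i, ‖n i‖ = 1) (hbd : Bornology.IsBounded (Pol n c)) {α : ℝ}
    (hα : 0 < α) {u v : E3 → ℝ} (hu : IsFirstRobin (Pol n c) α u)
    (hv : v = fun x => - Real.log (u x)) (hconv : ConvexOn ℝ (Pol n c) v)
    (hvc : ContinuousOn v (Pol n c)) {i : ι} {q : E3}
    (hq : ⟪n i, q⟫_ℝ = c i) (hq' : ∀ j, j ≠ i → c j < ⟪n j, q⟫_ℝ)
    {b : OrthonormalBasis (Fin 3) ℝ E3} (hb : b 0 = n i) :
    ∃ δ > 0, ∃ M2 : ℝ, (∀ s ∈ FBox δ δ, fr q b s ∈ Pol n c) ∧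
      ∀ s ∈ FBox δ δ, v (fr q b s) ≤ M2 := by
  obtain ⟨δ0, hδ0, hA, hbox0⟩ := box_Pol' hq hq' hb
  have hbox : ∀ s ∈ FBox δ0 δ0, fr q b s ∈ Pol n c := fun s hs => hbox0 s hs.1 (FBox_sub hs)
  have hloc := easy_local hn hbd hα hu hv hconv hq hb hδ0 hbox
  set δ : ℝ := δ0 / 2 with hδ
  have hδp : 0 < δ := by positivity
  set S : Set (Fin 3 → ℝ) := Icc ![δ, -δ, -δ] ![δ, δ, δ] with hS
  have hmem : ∀ s ∈ S, fr q b s ∈ Pol n c := by
    intro s hs
    have a0 := hs.1 0
    have a0' := hs.2 0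
    have a1 := hs.1 1
    have a1' := hs.2 1
    have a2 := hs.1 2
    have a2' := hs.2 2
    simp at a0 a0' a1 a1' a2 a2'
    refine hbox0 s (by linarith) fun k => ?_
    fin_cases k
    · show |s 0| < δ0
      rw [abs_lt]
      constructor <;> linarith
    · show |s 1| < δ0
      rw [abs_lt]
      constructor <;> linarith
    · show |s 2| < δ0
      rw [abs_lt]
      constructor <;> linarith
  have hc : ContinuousOn (fun s => v (fr q b s)) S := hvc.comp (continuous_fr q b).continuousOn hmem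
  obtain ⟨M, hM⟩ := (isCompact_Icc (a := ![δ, -δ, -δ]) (b := ![δ, δ, δ])).exists_bound_of_continuousOn hc
  refine ⟨δ, hδp, M + α * δ, ?_, ?_⟩
  · intro s hs
    obtain ⟨g0, g1, g2, g3⟩ := hs
    exact hbox s ⟨g0, by linarith, by linarith, by linarith⟩
  · intro s hs
    obtain ⟨g0, g1, g2, g3⟩ := hs
    have h1 := hloc s ⟨g0, by linarith, by linarith, by linarith⟩ (δ - s 0) (by linarith)
      (by linarith)
    have hs' : s + Pi.single 0 (δ - s 0) ∈ S := by
      have b1 := abs_lt.1 g2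
      have b2 := abs_lt.1 g3
      rw [hS, mem_Icc]
      constructor
      · intro k
        fin_cases k
        · simp
        · simpa using b1.1.le
        · simpa using b2.1.le
      · intro k
        fin_cases k
        · simp
        · simpa using b1.2.le
        · simpa using b2.2.le
    have h2 := (le_abs_self _).trans (hM _ hs')
    have h3 : α * (δ - s 0) ≤ α * δ := by nlinarith
    linarith

end

end Pool.Agent.H943R3
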