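import Pool.Agent.H943R3.Regular

/-! The limit of a positive minimising sequence is positive almost everywhere. -/

namespace Pool.Agent.H943R3

open MeasureTheory Set Filter Topology InnerProductSpace
open scoped ENNReal

section
variable {d : ℕ} {Ω : Set (EuclideanSpace ℝ (Fin d))} {α : ℝ}

theorem log_double (hG : Good Ω) (hc : Convex ℝ Ω) (hα : 0 ≤ α)
    {ψ : EuclideanSpace ℝ (Fin d) → ℝ}
    (hψ : ContDiff ℝ 1 ψ) (hpos : ∀ x, 0 < ψ x) {ε : ℝ} (hε : 0 < ε) {E0 : ℝ}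
    (hE0 : energy Ω α ψ ≤ E0)
    (hsmall : (energy Ω α ψ - lam Ω α * ∫ x in Ω, ψ x ^ 2) *
      (E0 / ε ^ 4 + α * (((μHE[d - 1] : Measure (EuclideanSpace ℝ (Fin d)))
        (frontier Ω)).toReal / ε ^ 2)) ≤ 1) {h : ℝ} (hdiam : ∀ x ∈ Ω, ∀ y ∈ Ω, ‖x - y‖ ≤ h) :
    ∫⁻ x in Ω, ∫⁻ y in Ω, ENNReal.ofReal ((Real.log (ψ x + ε) - Real.log (ψ y + ε)) ^ 2) ≤
      volume Ω * (ENNReal.ofReal (2 ^ d) * ENNReal.ofReal (h ^ 2 * (α *
        ((μHE[d - 1] : Measure (EuclideanSpace ℝ (Fin d))) (frontier Ω)).toReal + 1))) := by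
  obtain ⟨hw, hest⟩ := log_est hG hα hψ hpos hε hE0 hsmall
  have hpd := poincare_double hc hG.opn.measurableSet hdiam hw
  refine hpd.trans ?_
  have cgw := continuous_gradient hw
  have h1 : ∫⁻ x in Ω, ENNReal.ofReal (h ^ 2 * ‖gradient (fun x => Real.log (ψ x + ε)) x‖ ^ 2) ≤
      ENNReal.ofReal (h ^ 2 * (α *
        ((μHE[d - 1] : Measure (EuclideanSpace ℝ (Fin d))) (frontier Ω)).toReal + 1)) := by
    rw [← ofReal_integral_eq_lintegral_ofReal (hG.intOn (by fun_prop))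
      (Eventually.of_forall fun y => by positivity)]
    apply ENNReal.ofReal_le_ofReal
    rw [integral_const_mul]
    exact mul_le_mul_of_nonneg_left hest (sq_nonneg h)
  exact mul_le_mul_right (mul_le_mul_right h1 _) _

/-- abstract Fatou step -/
theorem fatou_step {X : Type*} [MeasurableSpace X] {μ : Measure X} [SFinite μ]
    {f : ℕ → X → X → ℝ≥0∞} (hfm : ∀ k, Measurable fun p : X × X => f k p.1 p.2) {C c : ℝ≥0∞}
    (hev : ∀ᶠ k in atTop, ∫⁻ x, ∫⁻ y, f k x y ∂μ ∂μ ≤ C) {Z P : Set X}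
    (hZ : MeasurableSet Z) (hP : MeasurableSet P)
    (hlow : ∀ᵐ x ∂μ, x ∈ Z → ∀ᵐ y ∂μ, y ∈ P → c ≤ liminf (fun k => f k x y) atTop) :
    c * μ P * μ Z ≤ C := by
  have hF1 : ∀ x, ∫⁻ y in P, liminf (fun k => f k x y) atTop ∂μ ≤
      liminf (fun k => ∫⁻ y in P, f k x y ∂μ) atTop := fun x =>
    lintegral_liminf_le fun k => (hfm k).comp measurable_prodMk_left
  have hF2 : ∫⁻ x in Z, liminf (fun k => ∫⁻ y in P, f k x y ∂μ) atTop ∂μ ≤
      liminf (fun k => ∫⁻ x in Z, ∫⁻ y in P, f k x y ∂μ ∂μ) atTop :=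
    lintegral_liminf_le fun k => (hfm k).lintegral_prod_right' (ν := μ.restrict P)
  have hF3 : liminf (fun k => ∫⁻ x in Z, ∫⁻ y in P, f k x y ∂μ ∂μ) atTop ≤ C := by
    refine (liminf_le_liminf (v := fun _ : ℕ => C) ?_).trans (le_of_eq (by simp))
    filter_upwards [hev] with k hk
    refine le_trans ?_ hk
    refine (setLIntegral_le_lintegral _ _).trans (lintegral_mono fun x => ?_)
    exact setLIntegral_le_lintegral _ _
  calc c * μ P * μ Z = ∫⁻ x in Z, ∫⁻ y in P, c ∂μ ∂μ := by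
        rw [setLIntegral_const, setLIntegral_const]
    _ ≤ ∫⁻ x in Z, ∫⁻ y in P, liminf (fun k => f k x y) atTop ∂μ ∂μ := by
        have hlow' : ∀ᵐ x ∂(μ.restrict Z), ∀ᵐ y ∂(μ.restrict P),
            c ≤ liminf (fun k => f k x y) atTop := by
          rw [ae_restrict_iff' hZ]
          filter_upwards [hlow] with x hx hxZ
          rw [ae_restrict_iff' hP]
          exact hx hxZ
        exact lintegral_mono_ae (hlow'.mono fun x hx => lintegral_mono_ae hx)
    _ ≤ ∫⁻ x in Z, liminf (fun k => ∫⁻ y in P, f k x y ∂μ) atTop ∂μ :=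
        lintegral_mono fun x => hF1 x
    _ ≤ _ := hF2
    _ ≤ C := hF3

theorem pos_ae (hG : Good Ω) (hc : Convex ℝ Ω) (hα : 0 ≤ α)
    {ψ : ℕ → EuclideanSpace ℝ (Fin d) → ℝ} (hψ : ∀ k, ContDiff ℝ 1 (ψ k))
    (hpos : ∀ k x, 0 < ψ k x) {u : EuclideanSpace ℝ (Fin d) → ℝ} (hum : Measurable u)
    (hae : ∀ᵐ x ∂(volume.restrict Ω), Tendsto (fun k => ψ k x) atTop (𝓝 (u x)))
    {E0 : ℝ} (hE0 : ∀ k, energy Ω α (ψ k) ≤ E0)
    (hQ : Tendsto (fun k => energy Ω α (ψ k) - lam Ω α * ∫ x in Ω, ψ k x ^ 2) atTop (𝓝 0))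
    (hu : ∫ x in Ω, u x ^ 2 ≠ 0) : ∀ᵐ x ∂(volume.restrict Ω), 0 < u x := by
  set σ : ℝ := ((μHE[d - 1] : Measure (EuclideanSpace ℝ (Fin d))) (frontier Ω)).toReal with hσ
  have hfinite : IsFiniteMeasure ((volume : Measure (EuclideanSpace ℝ (Fin d))).restrict Ω) := ⟨by
    rw [Measure.restrict_apply_univ]
    exact hG.bdd.measure_lt_top⟩
  have hnn : ∀ᵐ x ∂(volume.restrict Ω), 0 ≤ u x := by
    filter_upwards [hae] with x hx
    exact ge_of_tendsto' hx fun k => (hpos k x).le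
  by_contra hcon
  set Z : Set (EuclideanSpace ℝ (Fin d)) := {x | ¬ 0 < u x} with hZ
  have hZm : MeasurableSet Z := (measurableSet_lt measurable_const hum).compl
  have hZ0 : (volume.restrict Ω) Z ≠ 0 := fun h => hcon h
  obtain ⟨m, hm⟩ : ∃ m : ℕ, (volume.restrict Ω) {x | 1 / ((m : ℝ) + 1) ≤ u x} ≠ 0 := by
    by_contra hall
    push Not at hall
    have h1 : ∀ᵐ x ∂(volume.restrict Ω), u x = 0 := by
      have h2 : ∀ᵐ x ∂(volume.restrict Ω), ∀ m : ℕ, ¬ (1 / ((m : ℝ) + 1) ≤ u x) := by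
        rw [ae_all_iff]
        intro m
        have h3 := hall m
        rw [ae_iff]
        simp only [not_not]
        exact h3
      filter_upwards [h2, hnn] with x hx hx0
      by_contra hne
      have hxp : 0 < u x := lt_of_le_of_ne hx0 (Ne.symm hne)
      obtain ⟨m, hm⟩ := exists_nat_one_div_lt hxp
      exact hx m hm.le
    apply hu
    have h5 : ∫ x in Ω, u x ^ 2 = ∫ x in Ω, (0 : ℝ) := by
      apply integral_congr_ae
      filter_upwards [h1] with x hx
      rw [hx]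
      norm_num
    rw [h5]
    simp
  set η : ℝ := 1 / ((m : ℝ) + 1) with hη
  have hη0 : 0 < η := by positivity
  set P : Set (EuclideanSpace ℝ (Fin d)) := {x | η ≤ u x} with hP
  have hPm : MeasurableSet P := measurableSet_le measurable_const hum
  obtain ⟨h, hh⟩ := Metric.isBounded_iff.1 hG.bdd
  have hdiam : ∀ x ∈ Ω, ∀ y ∈ Ω, ‖x - y‖ ≤ h := fun x hx y hy => by
    rw [← dist_eq_norm]
    exact hh hx hy
  set C : ℝ≥0∞ := volume Ω * (ENNReal.ofReal (2 ^ d) * ENNReal.ofReal (h ^ 2 * (α * σ + 1)))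
    with hC
  have hCtop : C ≠ ⊤ := ENNReal.mul_ne_top hG.bdd.measure_lt_top.ne
    (ENNReal.mul_ne_top ENNReal.ofReal_ne_top ENNReal.ofReal_ne_top)
  have key : ∀ ε : ℝ, 0 < ε → ENNReal.ofReal ((Real.log ((η + ε) / ε)) ^ 2) *
      (volume.restrict Ω) P * (volume.restrict Ω) Z ≤ C := by
    intro ε hε
    have hcont : ∀ k, Continuous fun x => Real.log (ψ k x + ε) := fun k =>
      ((hψ k).continuous.add continuous_const).log fun x => (add_pos (hpos k x) hε).ne'
    refine fatou_step (f := fun k x y =>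
      ENNReal.ofReal ((Real.log (ψ k x + ε) - Real.log (ψ k y + ε)) ^ 2)) ?_ ?_ hZm hPm ?_
    · intro k
      have h1 : Continuous fun p : EuclideanSpace ℝ (Fin d) × EuclideanSpace ℝ (Fin d) =>
        (Real.log (ψ k p.1 + ε) - Real.log (ψ k p.2 + ε)) ^ 2 :=
        (((hcont k).comp continuous_fst).sub ((hcont k).comp continuous_snd)).pow 2
      exact h1.measurable.ennreal_ofReal
    · have h1 : Tendsto (fun k => (energy Ω α (ψ k) - lam Ω α * ∫ x in Ω, ψ k x ^ 2) *
          (E0 / ε ^ 4 + α * (σ / ε ^ 2))) atTop (𝓝 0) := by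
        have := hQ.mul_const (E0 / ε ^ 4 + α * (σ / ε ^ 2))
        simpa using this
      filter_upwards [h1.eventually (gt_mem_nhds (show (0 : ℝ) < 1 by norm_num))] with k hk
      exact log_double hG hc hα (hψ k) (hpos k) hε (hE0 k) hk.le hdiam
    · filter_upwards [hae, hnn] with x hx hx0 hxZ
      filter_upwards [hae] with y hy hyP
      have hux : u x = 0 := le_antisymm (not_lt.1 hxZ) hx0
      have huy : η ≤ u y := hyP
      have l1 : Tendsto (fun k => Real.log (ψ k x + ε)) atTop (𝓝 (Real.log (u x + ε))) :=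
        (hx.add_const ε).log (by rw [hux]; linarith)
      have l2 : Tendsto (fun k => Real.log (ψ k y + ε)) atTop (𝓝 (Real.log (u y + ε))) :=
        (hy.add_const ε).log (by linarith)
      have l3 : Tendsto (fun k => ENNReal.ofReal ((Real.log (ψ k x + ε) -
          Real.log (ψ k y + ε)) ^ 2)) atTop
          (𝓝 (ENNReal.ofReal ((Real.log (u x + ε) - Real.log (u y + ε)) ^ 2))) :=
        ENNReal.tendsto_ofReal ((l1.sub l2).pow 2)
      rw [l3.liminf_eq]
      apply ENNReal.ofReal_le_ofReal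
      rw [hux, zero_add, Real.log_div (by linarith) hε.ne']
      have g1 : Real.log (η + ε) ≤ Real.log (u y + ε) :=
        Real.log_le_log (by linarith) (by linarith)
      have g2 : Real.log ε ≤ Real.log (η + ε) := Real.log_le_log hε (by linarith)
      nlinarith
  have hPtop : (volume.restrict Ω) P ≠ ⊤ := measure_ne_top _ _
  have hZtop : (volume.restrict Ω) Z ≠ ⊤ := measure_ne_top _ _
  have hPZ0 : (volume.restrict Ω) P * (volume.restrict Ω) Z ≠ 0 := mul_ne_zero hm hZ0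
  have hPZt : (volume.restrict Ω) P * (volume.restrict Ω) Z ≠ ⊤ := ENNReal.mul_ne_top hPtop hZtop
  set K : ℝ≥0∞ := C / ((volume.restrict Ω) P * (volume.restrict Ω) Z) with hK
  have hKt : K ≠ ⊤ := ENNReal.div_ne_top hCtop hPZ0
  set T : ℝ := √(K.toReal + 1) with hT
  have hT2 : T ^ 2 = K.toReal + 1 := Real.sq_sqrt (by positivity)
  have hT0 : 0 ≤ T := Real.sqrt_nonneg _
  have hk := key (η / Real.exp T) (by positivity)
  have hlog : T ^ 2 ≤ (Real.log ((η + η / Real.exp T) / (η / Real.exp T))) ^ 2 := by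
    have e : (η + η / Real.exp T) / (η / Real.exp T) = Real.exp T + 1 := by
      have := Real.exp_pos T
      field_simp
    rw [e]
    have h1 : T ≤ Real.log (Real.exp T + 1) := by
      rw [Real.le_log_iff_exp_le (by positivity)]
      linarith
    exact pow_le_pow_left₀ hT0 h1 2
  have h2 : ENNReal.ofReal (T ^ 2) * ((volume.restrict Ω) P * (volume.restrict Ω) Z) ≤ C := by
    rw [← mul_assoc]
    refine le_trans ?_ hk
    gcongr
  have h3 : ENNReal.ofReal (T ^ 2) ≤ K := by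
    rw [hK, ENNReal.le_div_iff_mul_le (Or.inl hPZ0) (Or.inl hPZt)]
    exact h2
  rw [← ENNReal.ofReal_toReal hKt, ENNReal.ofReal_le_ofReal_iff ENNReal.toReal_nonneg, hT2] at h3
  linarith

end

end Pool.Agent.H943R3
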