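import Pool.Agent.H943R3.Exist

/-! Existence of the first Robin eigenfunction of a bounded convex open set. -/

namespace Pool.Agent.H943R3

open MeasureTheory Set Filter Topology InnerProductSpace
open scoped ENNReal

section
variable {d : ℕ} {Ω : Set (EuclideanSpace ℝ (Fin d))} {α : ℝ}

theorem exists_firstRobin (hG : Good Ω) (hc : Convex ℝ Ω) (hne : Ω.Nonempty) (hα : 0 ≤ α) :
    ∃ u : EuclideanSpace ℝ (Fin d) → ℝ, IsFirstRobin Ω α u := by
  set S : Set ℝ := {t : ℝ | ∃ φ : EuclideanSpace ℝ (Fin d) → ℝ, ContDiff ℝ 1 φ ∧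
    0 < ∫ x in Ω, φ x ^ 2 ∧ t = energy Ω α φ / ∫ x in Ω, φ x ^ 2} with hS
  set σ : ℝ := ((μHE[d - 1] : Measure (EuclideanSpace ℝ (Fin d))) (frontier Ω)).toReal with hσ
  set vΩ : ℝ := (volume Ω).toReal with hvΩ
  have hσ0 : 0 ≤ σ := ENNReal.toReal_nonneg
  have hv0 : 0 < vΩ := ENNReal.toReal_pos (hG.opn.measure_pos volume hne).ne'
    hG.bdd.measure_lt_top.ne
  have hSne : S.Nonempty := by
    refine ⟨_, fun _ => 1, contDiff_const, ?_, rfl⟩
    rw [setIntegral_const]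
    simpa [Measure.real] using hv0
  have hSb : BddBelow S := by
    refine ⟨0, ?_⟩
    rintro t ⟨φ, -, h1, rfl⟩
    exact div_nonneg (energy_nonneg hα φ) h1.le
  obtain ⟨t, -, htt, htS⟩ := exists_seq_tendsto_sInf hSne hSb
  have htt' : Tendsto t atTop (𝓝 (lam Ω α)) := htt
  choose φ hφ hN ht using htS
  -- normalised sequence
  set N : ℕ → ℝ := fun n => ∫ x in Ω, φ n x ^ 2 with hNdef
  have hNpos : ∀ n, 0 < N n := hN
  set φ' : ℕ → EuclideanSpace ℝ (Fin d) → ℝ := fun n x => (√(N n))⁻¹ * φ n x with hφ'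
  have hφ'c : ∀ n, ContDiff ℝ 1 (φ' n) := fun n => contDiff_const.mul (hφ n)
  have hφ'N : ∀ n, ∫ x in Ω, φ' n x ^ 2 = 1 := by
    intro n
    simp only [hφ', mul_pow]
    rw [integral_const_mul, inv_pow, Real.sq_sqrt (hNpos n).le]
    exact inv_mul_cancel₀ (hNpos n).ne'
  have hφ'E : ∀ n, energy Ω α (φ' n) = t n := by
    intro n
    simp only [hφ']
    rw [energy_smul hG _ (hφ n), inv_pow, Real.sq_sqrt (hNpos n).le, ht n, inv_mul_eq_div]
  -- regularised positive sequence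
  set δ : ℕ → ℝ := fun n => 1 / ((n : ℝ) + 1) with hδ
  have hδ0 : ∀ n, 0 < δ n := fun n => by positivity
  have hδt : Tendsto δ atTop (𝓝 0) := tendsto_one_div_add_atTop_nhds_zero_nat
  set ψ : ℕ → EuclideanSpace ℝ (Fin d) → ℝ := fun n x => √(φ' n x ^ 2 + δ n ^ 2) with hψdef
  have hψ : ∀ n, ContDiff ℝ 1 (ψ n) := fun n => reg_contDiff (hφ'c n) (hδ0 n)
  have hψpos : ∀ n x, 0 < ψ n x := fun n x => Real.sqrt_pos.2 (by
    have := hδ0 n
    positivity)
  have hψN : ∀ n, ∫ x in Ω, ψ n x ^ 2 = 1 + δ n ^ 2 * vΩ := by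
    intro n
    simp only [hψdef]
    rw [reg_mass hG (hφ'c n), hφ'N n]
  have hψE : ∀ n, energy Ω α (ψ n) ≤ t n + α * (δ n ^ 2 * σ) := by
    intro n
    have := reg_energy hG hα (hφ'c n) (hδ0 n)
    rw [hφ'E n] at this
    exact this
  have hδ2 : Tendsto (fun n => δ n ^ 2) atTop (𝓝 0) := by
    have := hδt.pow 2
    simpa using this
  have hEt : Tendsto (fun n => energy Ω α (ψ n)) atTop (𝓝 (lam Ω α)) := by
    have h1 : Tendsto (fun n => lam Ω α * (1 + δ n ^ 2 * vΩ)) atTop (𝓝 (lam Ω α)) := by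
      have := ((hδ2.mul_const vΩ).const_add 1).const_mul (lam Ω α)
      simpa using this
    have h2 : Tendsto (fun n => t n + α * (δ n ^ 2 * σ)) atTop (𝓝 (lam Ω α)) := by
      have := htt'.add ((hδ2.mul_const σ).const_mul α)
      simpa using this
    refine tendsto_of_tendsto_of_tendsto_of_le_of_le h1 h2 (fun n => ?_) hψE
    have := lam_le (Ω := Ω) hα (hψ n)
    rw [hψN n] at this
    show lam Ω α * (1 + δ n ^ 2 * vΩ) ≤ energy Ω α (ψ n)
    linarith
  obtain ⟨E0, hE0⟩ := hEt.bddAbove_range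
  have hE0' : ∀ n, energy Ω α (ψ n) ≤ E0 := fun n => hE0 ⟨n, rfl⟩
  have hNt : Tendsto (fun n => ∫ x in Ω, ψ n x ^ 2) atTop (𝓝 1) := by
    simp only [hψN]
    have := (hδ2.mul_const vΩ).const_add 1
    simpa using this
  obtain ⟨A0, hA0⟩ := hNt.bddAbove_range
  have hgr : ∀ n, ∫ x in Ω, ‖gradient (ψ n) x‖ ^ 2 ≤ E0 := by
    intro n
    refine le_trans ?_ (hE0' n)
    unfold energy
    have : 0 ≤ ∫ x in frontier Ω, ψ n x ^ 2 ∂(μHE[d - 1]) := integral_nonneg fun x => sq_nonneg _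
    nlinarith
  obtain ⟨u, hu2, ns, hns, hL, hae⟩ := rellich hG hc hψ (fun n => hA0 ⟨n, rfl⟩) hgr
  have hNu : ∫ x in Ω, u x ^ 2 = 1 :=
    tendsto_nhds_unique (tendsto_sq_of_L2 hG hu2 (fun k => (hψ (ns k)).continuous) hL)
      (hNt.comp hns.tendsto_atTop)
  have hEu : Tendsto (fun k => energy Ω α (ψ (ns k))) atTop (𝓝 (lam Ω α)) :=
    hEt.comp hns.tendsto_atTop
  have hQ : Tendsto (fun k => energy Ω α (ψ (ns k)) - lam Ω α * ∫ x in Ω, ψ (ns k) x ^ 2)
      atTop (𝓝 0) := by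
    have := hEu.sub ((hNt.comp hns.tendsto_atTop).const_mul (lam Ω α))
    simpa using this
  -- measurable representative
  set g : EuclideanSpace ℝ (Fin d) → ℝ := hu2.1.mk u with hg
  have hgm : Measurable g := hu2.1.stronglyMeasurable_mk.measurable
  have hug : u =ᵐ[volume.restrict Ω] g := hu2.1.ae_eq_mk
  have hNg : ∫ x in Ω, g x ^ 2 ≠ 0 := by
    have : ∫ x in Ω, g x ^ 2 = ∫ x in Ω, u x ^ 2 := by
      apply integral_congr_ae
      filter_upwards [hug] with x hx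
      rw [hx]
    rw [this, hNu]
    norm_num
  have hgpos := pos_ae hG hc hα (fun k => hψ (ns k)) (fun k x => hψpos (ns k) x) hgm
    (by
      filter_upwards [hae, hug] with x hx hx2
      rw [← hx2]
      exact hx) (fun k => hE0' (ns k)) hQ hNg
  classical
  set w : EuclideanSpace ℝ (Fin d) → ℝ := fun x => if 0 < g x then g x else 1 with hw
  have hwu : u =ᵐ[volume.restrict Ω] w := by
    filter_upwards [hug, hgpos] with x h1 h2
    rw [h1, hw]
    simp [h2]
  refine ⟨w, ?_, (memLp_congr_ae hwu).1 hu2, fun k => ψ (ns k), fun k => hψ (ns k), ?_, ?_⟩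
  · intro x _
    simp only [hw]
    split_ifs with h
    · exact h
    · norm_num
  · refine hL.congr fun k => ?_
    apply integral_congr_ae
    filter_upwards [hwu] with x hx
    rw [hx]
  · have h1 : ∫ x in Ω, w x ^ 2 = 1 := by
      rw [← hNu]
      apply integral_congr_ae
      filter_upwards [hwu] with x hx
      rw [hx]
    rw [h1, mul_one]
    exact hEu

end

end Pool.Agent.H943R3
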