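import Pool.Agent.H943R3.RobDef
import Pool.Agent.H943R3.Bump

/-! Orthonormal frames in `ℝ³`, volume and surface integrals in frame coordinates. -/

namespace Pool.Agent.H943R3

open MeasureTheory Set Filter Topology InnerProductSpace

/-- Three dimensional Euclidean space. -/
abbrev E3 := EuclideanSpace ℝ (Fin 3)

/-- The frame map with origin `q` and axes `b`. -/
noncomputable def fr (q : E3) (b : OrthonormalBasis (Fin 3) ℝ E3) (s : Fin 3 → ℝ) : E3 :=
  q + ∑ i, s i • b i

/-- Coordinates with respect to a frame. -/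
noncomputable def co (q : E3) (b : OrthonormalBasis (Fin 3) ℝ E3) (x : E3) : Fin 3 → ℝ :=
  fun i => ⟪b i, x - q⟫_ℝ

section
variable (q : E3) (b : OrthonormalBasis (Fin 3) ℝ E3)

theorem co_fr (s : Fin 3 → ℝ) : co q b (fr q b s) = s := by
  ext i
  simp [co, fr, inner_sum, inner_smul_right, b.inner_eq_ite]

theorem fr_co (x : E3) : fr q b (co q b x) = x := by
  simp only [co, fr]
  rw [b.sum_repr']
  simp

theorem fr_eq (s : Fin 3 → ℝ) : fr q b s = q + b.repr.symm (WithLp.toLp 2 s) := by
  rw [fr, ← b.sum_repr_symm]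

theorem continuous_fr : Continuous (fr q b) := by
  unfold fr
  fun_prop

theorem continuous_co : Continuous (co q b) := by
  unfold co
  fun_prop

theorem contDiff_fr : ContDiff ℝ 1 (fr q b) := by
  unfold fr
  fun_prop

theorem measurableEmbedding_fr : MeasurableEmbedding (fr q b) := by
  have h : fr q b = (fun x => q + x) ∘ b.repr.symm ∘ (MeasurableEquiv.toLp 2 (Fin 3 → ℝ)) := by
    ext1 s
    simp [fr_eq]
  rw [h]
  exact (Homeomorph.addLeft q).measurableEmbedding.comp
    (b.measurableEquiv.symm.measurableEmbedding.comp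
      (MeasurableEquiv.toLp 2 (Fin 3 → ℝ)).measurableEmbedding)

theorem measurePreserving_fr : MeasurePreserving (fr q b) volume volume := by
  have h : fr q b = (fun x => q + x) ∘ b.repr.symm ∘ (@WithLp.toLp 2 (Fin 3 → ℝ)) := by
    ext1 s
    simp [fr_eq]
  rw [h]
  exact (measurePreserving_add_left volume q).comp
    (b.measurePreserving_repr_symm.comp (PiLp.volume_preserving_toLp (Fin 3)))

theorem integral_fr (f : E3 → ℝ) : ∫ x, f x = ∫ s, f (fr q b s) :=
  ((measurePreserving_fr q b).integral_comp (measurableEmbedding_fr q b) f).symm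

/-- change of variables for a set integral -/
theorem setIntegral_fr {Ω : Set E3} (hΩ : MeasurableSet Ω) {B : Set (Fin 3 → ℝ)}
    (hB : MeasurableSet B) (f : E3 → ℝ) (h1 : ∀ s ∈ B, fr q b s ∈ Ω)
    (h2 : ∀ s, fr q b s ∈ Ω → s ∉ B → f (fr q b s) = 0) :
    ∫ x in Ω, f x = ∫ s in B, f (fr q b s) := by
  rw [← integral_indicator hΩ, integral_fr q b, ← integral_indicator hB]
  congr 1
  ext s
  by_cases hs : s ∈ B
  · simp [hs, h1 s hs]
  · by_cases hs' : fr q b s ∈ Ω
    · simp [hs, hs', h2 s hs' hs]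
    · simp [hs, hs']

/-- the parametrisation of the plane `s 0 = 0` -/
noncomputable def pl (y : EuclideanSpace ℝ (Fin 2)) : E3 :=
  fr q b (Fin.cons 0 (fun i => y i))

theorem isometry_pl : Isometry (pl q b) := by
  have h1 : Isometry (fun y : EuclideanSpace ℝ (Fin 2) =>
      (WithLp.toLp 2 (Fin.cons 0 (fun i => y i) : Fin 3 → ℝ) : EuclideanSpace ℝ (Fin 3))) := by
    refine Isometry.of_dist_eq fun y z => ?_
    rw [EuclideanSpace.dist_eq, EuclideanSpace.dist_eq]
    congr 1
    simp [Fin.sum_univ_succ]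
  have h2 : pl q b = (fun x => q + x) ∘ b.repr.symm ∘ (fun y : EuclideanSpace ℝ (Fin 2) =>
      (WithLp.toLp 2 (Fin.cons 0 (fun i => y i) : Fin 3 → ℝ) : EuclideanSpace ℝ (Fin 3))) := by
    ext1 y
    simp [pl, fr_eq]
  rw [h2]
  exact (isometry_add_left q).comp (b.repr.symm.isometry.comp h1)

theorem range_pl : range (pl q b) = {x | co q b x 0 = 0} := by
  ext x
  constructor
  · rintro ⟨y, rfl⟩
    simp [pl, co_fr]
  · intro hx
    refine ⟨WithLp.toLp 2 (fun i => co q b x i.succ), ?_⟩
    have : (Fin.cons 0 (fun i : Fin 2 => co q b x i.succ) : Fin 3 → ℝ) = co q b x := by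
      ext i
      refine Fin.cases ?_ (fun j => ?_) i
      · simpa using hx.symm
      · simp
    simp only [pl]
    rw [this, fr_co]

theorem plane_integral (f : E3 → ℝ) :
    ∫ x in {x | co q b x 0 = 0}, f x ∂(μHE[2]) =
      ∫ y : Fin 2 → ℝ, f (fr q b (Fin.cons 0 y)) := by
  have hi := isometry_pl q b
  rw [← range_pl, ← hi.map_euclideanHausdorffMeasure,
    hi.isClosedEmbedding.measurableEmbedding.integral_map,
    EuclideanSpace.euclideanHausdorffMeasure_eq_volume 2,
    ← (PiLp.volume_preserving_toLp (Fin 2)).integral_comp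
      (MeasurableEquiv.toLp 2 (Fin 2 → ℝ)).measurableEmbedding]
  rfl

theorem plane_measure_lt_top {K : Set E3} (hK : Bornology.IsBounded K) :
    (μHE[2] : Measure E3) (K ∩ {x | co q b x 0 = 0}) < ⊤ := by
  have hi := isometry_pl q b
  rw [← range_pl, ← hi.euclideanHausdorffMeasure_preimage,
    EuclideanSpace.euclideanHausdorffMeasure_eq_volume 2]
  have : Bornology.IsBounded (pl q b ⁻¹' K) := hi.antilipschitz.isBounded_preimage hK
  exact this.measure_lt_top

end

end Pool.Agent.H943R3
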