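import Mathlib

/-! The limit step of the blow-up. -/

namespace Pool.Agent.H943R3

open MeasureTheory Filter Topology Set

theorem exp_sub_one_bounds (x : ℝ) : x ≤ Real.exp x - 1 ∧ Real.exp x - 1 ≤ x * Real.exp x := by
  constructor
  · have := Real.add_one_le_exp x
    linarith
  · have h := Real.add_one_le_exp (-x)
    have hp := Real.exp_pos x
    have h2 : Real.exp (-x) * Real.exp x = 1 := by
      rw [← Real.exp_add]
      simp
    nlinarith

theorem abs_exp_sub_one_le' (x : ℝ) : |Real.exp x - 1| ≤ |x| * Real.exp |x| := by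
  obtain ⟨h1, h2⟩ := exp_sub_one_bounds x
  have h3 : Real.exp x ≤ Real.exp |x| := Real.exp_le_exp.2 (le_abs_self x)
  have h4 : 1 ≤ Real.exp |x| := Real.one_le_exp (abs_nonneg x)
  have h5 := Real.exp_pos x
  rw [abs_le]
  constructor
  · have : -|x| ≤ x := neg_abs_le x
    nlinarith [abs_nonneg x]
  · calc Real.exp x - 1 ≤ x * Real.exp x := h2
      _ ≤ |x| * Real.exp x := by
        exact mul_le_mul_of_nonneg_right (le_abs_self x) h5.le
      _ ≤ |x| * Real.exp |x| := mul_le_mul_of_nonneg_left h3 (abs_nonneg x)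

theorem lim_lemma {X : Type*} [MeasurableSpace X] {μ : Measure X} [IsFiniteMeasure μ]
    {vk : ℕ → X → ℝ} {Lf : X → ℝ} {M : ℝ} (hM : ∀ k, ∀ᵐ s ∂μ, |vk k s| ≤ M)
    (hmeas : ∀ k, AEStronglyMeasurable (vk k) μ)
    (hlim : ∀ᵐ s ∂μ, Tendsto (fun k => vk k s) atTop (𝓝 (Lf s)))
    {r : ℕ → ℝ} (hr0 : ∀ k, 0 < r k) (hr1 : ∀ k, r k ≤ 1) (hrt : Tendsto r atTop (𝓝 0))
    {K0 K1 K2 K3 : X → ℝ} {C : ℝ}
    (m0 : AEStronglyMeasurable K0 μ) (m1 : AEStronglyMeasurable K1 μ)
    (m2 : AEStronglyMeasurable K2 μ) (m3 : AEStronglyMeasurable K3 μ)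
    (b0 : ∀ᵐ s ∂μ, |K0 s| ≤ C) (b1 : ∀ᵐ s ∂μ, |K1 s| ≤ C) (b2 : ∀ᵐ s ∂μ, |K2 s| ≤ C)
    (b3 : ∀ᵐ s ∂μ, |K3 s| ≤ C)
    (hid : ∀ k, ∫ s, Real.exp (-(r k * vk k s)) *
      (K0 s + r k * K1 s + (r k) ^ 2 * (K2 s + r k * K3 s)) ∂μ = 0)
    (h0 : ∫ s, K0 s ∂μ = 0) :
    ∫ s, Lf s * K0 s ∂μ = ∫ s, K1 s ∂μ := by
  set Φ : ℕ → X → ℝ := fun k s => (Real.exp (-(r k * vk k s)) - 1) / r k * K0 s +
    Real.exp (-(r k * vk k s)) * (K1 s + r k * (K2 s + r k * K3 s)) with hΦ
  have hexpm : ∀ k, AEStronglyMeasurable (fun s => Real.exp (-(r k * vk k s))) μ := fun k =>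
    Real.continuous_exp.comp_aestronglyMeasurable ((hmeas k).const_mul (r k)).neg
  have hbe : ∀ k, ∀ᵐ s ∂μ, |Real.exp (-(r k * vk k s))| ≤ Real.exp M := by
    intro k
    filter_upwards [hM k] with s hs
    rw [abs_of_pos (Real.exp_pos _)]
    apply Real.exp_le_exp.2
    have h1 := abs_le.1 hs
    have hM0 : 0 ≤ M := (abs_nonneg _).trans hs
    have h2 := hr0 k
    have h3 := hr1 k
    nlinarith
  have hΦm : ∀ k, AEStronglyMeasurable (Φ k) μ := by
    intro k
    have h1 : AEStronglyMeasurable (fun s => (Real.exp (-(r k * vk k s)) - 1) / r k) μ := by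
      simp only [div_eq_mul_inv]
      exact ((hexpm k).sub aestronglyMeasurable_const).mul_const _
    exact (h1.mul m0).add ((hexpm k).mul (m1.add ((m2.add (m3.const_mul (r k))).const_mul (r k))))
  have hint : ∀ k, ∫ s, Φ k s ∂μ = 0 := by
    intro k
    have hrk := hr0 k
    have e : ∀ s, Φ k s = (1 / r k) * (Real.exp (-(r k * vk k s)) *
      (K0 s + r k * K1 s + (r k) ^ 2 * (K2 s + r k * K3 s))) - (1 / r k) * K0 s := by
      intro s
      simp only [hΦ]
      field_simp
      ring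
    have i1 : Integrable K0 μ := by
      refine Integrable.of_bound m0 C ?_
      simpa [Real.norm_eq_abs] using b0
    have i2 : Integrable (fun s => Real.exp (-(r k * vk k s)) *
      (K0 s + r k * K1 s + (r k) ^ 2 * (K2 s + r k * K3 s))) μ := by
      refine Integrable.of_bound ((hexpm k).mul ((m0.add (m1.const_mul (r k))).add
        ((m2.add (m3.const_mul (r k))).const_mul ((r k) ^ 2)))) (Real.exp M * (4 * C)) ?_
      filter_upwards [hbe k, b0, b1, b2, b3] with s hs c0 c1 c2 c3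
      rw [Real.norm_eq_abs]
      show |Real.exp (-(r k * vk k s)) * (K0 s + r k * K1 s + (r k) ^ 2 * (K2 s + r k * K3 s))| ≤ _
      rw [abs_mul]
      refine mul_le_mul hs ?_ (abs_nonneg _) (Real.exp_pos _).le
      have hk1 := hr1 k
      have hC : 0 ≤ C := (abs_nonneg _).trans c0
      have a1 : |r k * K1 s| ≤ C := by
        rw [abs_mul, abs_of_pos hrk]
        nlinarith [abs_nonneg (K1 s)]
      have a3 : |r k * K3 s| ≤ C := by
        rw [abs_mul, abs_of_pos hrk]
        nlinarith [abs_nonneg (K3 s)]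
      have a2 : |(r k) ^ 2 * (K2 s + r k * K3 s)| ≤ 2 * C := by
        rw [abs_mul, abs_of_pos (by positivity : 0 < (r k) ^ 2)]
        have h5 : |K2 s + r k * K3 s| ≤ 2 * C := (abs_add_le _ _).trans (by linarith)
        have h6 : (r k) ^ 2 ≤ 1 := by nlinarith
        nlinarith [abs_nonneg (K2 s + r k * K3 s)]
      have := abs_add_le (K0 s + r k * K1 s) ((r k) ^ 2 * (K2 s + r k * K3 s))
      have := abs_add_le (K0 s) (r k * K1 s)
      linarith
    simp only [e]
    rw [integral_sub (i2.const_mul _) (i1.const_mul _), integral_const_mul, integral_const_mul,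
      hid k, h0]
    ring
  have hΦb : ∀ k, ∀ᵐ s ∂μ, ‖Φ k s‖ ≤ |M| * Real.exp |M| * C + Real.exp M * (3 * C) := by
    intro k
    have hrk := hr0 k
    have hk1 := hr1 k
    filter_upwards [hbe k, b0, b1, b2, b3, hM k] with s hs c0 c1 c2 c3 hMs
    have hC : 0 ≤ C := (abs_nonneg _).trans c0
    have hM0 : 0 ≤ M := (abs_nonneg _).trans hMs
    rw [Real.norm_eq_abs]
    refine (abs_add_le _ _).trans (add_le_add ?_ ?_)
    · rw [abs_mul]
      refine mul_le_mul ?_ c0 (abs_nonneg _) (by positivity)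
      rw [abs_div, abs_of_pos hrk, div_le_iff₀ hrk]
      refine (abs_exp_sub_one_le' _).trans ?_
      rw [abs_neg, abs_mul, abs_of_pos hrk, abs_of_nonneg hM0]
      have h7 : Real.exp (r k * |vk k s|) ≤ Real.exp M := by
        apply Real.exp_le_exp.2
        nlinarith [abs_nonneg (vk k s)]
      have h8 : r k * |vk k s| ≤ M * r k := by nlinarith
      calc r k * |vk k s| * Real.exp (r k * |vk k s|) ≤ (M * r k) * Real.exp M :=
            mul_le_mul h8 h7 (Real.exp_pos _).le (by positivity)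
        _ = M * Real.exp M * r k := by ring
    · rw [abs_mul]
      refine mul_le_mul hs ?_ (abs_nonneg _) (Real.exp_pos _).le
      have a3 : |r k * K3 s| ≤ C := by
        rw [abs_mul, abs_of_pos hrk]
        nlinarith [abs_nonneg (K3 s)]
      have a2 : |r k * (K2 s + r k * K3 s)| ≤ 2 * C := by
        rw [abs_mul, abs_of_pos hrk]
        have h5 : |K2 s + r k * K3 s| ≤ 2 * C := (abs_add_le _ _).trans (by linarith)
        nlinarith [abs_nonneg (K2 s + r k * K3 s)]
      have := abs_add_le (K1 s) (r k * (K2 s + r k * K3 s))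
      linarith
  have hΦl : ∀ᵐ s ∂μ, Tendsto (fun k => Φ k s) atTop (𝓝 (-Lf s * K0 s + 1 * (K1 s + 0))) := by
    filter_upwards [hlim, ae_all_iff.2 hM] with s hs hMs
    have hM0 : 0 ≤ M := (abs_nonneg _).trans (hMs 0)
    have hx : Tendsto (fun k => -(r k * vk k s)) atTop (𝓝 0) := by
      have := (hrt.mul hs).neg
      simpa using this
    have he : Tendsto (fun k => Real.exp (-(r k * vk k s))) atTop (𝓝 1) := by
      have := (Real.continuous_exp.tendsto 0).comp hx
      rw [Real.exp_zero] at this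
      exact this
    have hq : Tendsto (fun k => (Real.exp (-(r k * vk k s)) - 1) / r k) atTop (𝓝 (-Lf s)) := by
      have u1 : Tendsto (fun k => -vk k s) atTop (𝓝 (-Lf s)) := hs.neg
      have u2 : Tendsto (fun k => -vk k s * Real.exp (-(r k * vk k s))) atTop (𝓝 (-Lf s)) := by
        have := u1.mul he
        simpa using this
      refine tendsto_of_tendsto_of_tendsto_of_le_of_le u1 u2 (fun k => ?_) (fun k => ?_)
      · have hrk := hr0 k
        rw [le_div_iff₀ hrk]
        have := (exp_sub_one_bounds (-(r k * vk k s))).1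
        linarith
      · have hrk := hr0 k
        show (Real.exp (-(r k * vk k s)) - 1) / r k ≤ -vk k s * Real.exp (-(r k * vk k s))
        rw [div_le_iff₀ hrk]
        have := (exp_sub_one_bounds (-(r k * vk k s))).2
        linarith
    refine (hq.mul_const _).add (he.mul (tendsto_const_nhds.add ?_))
    have h9 : Tendsto (fun k => r k * (K2 s + r k * K3 s)) atTop (𝓝 (0 * (K2 s + 0 * K3 s))) :=
      hrt.mul (tendsto_const_nhds.add (hrt.mul_const _))
    simpa using h9
  have hDCT := tendsto_integral_of_dominated_convergence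
    (fun _ => |M| * Real.exp |M| * C + Real.exp M * (3 * C)) hΦm (integrable_const _) hΦb hΦl
  simp only [hint] at hDCT
  have h10 : ∫ s, (-Lf s * K0 s + 1 * (K1 s + 0)) ∂μ = 0 :=
    (tendsto_nhds_unique hDCT tendsto_const_nhds)
  have hLm : AEStronglyMeasurable Lf μ := aestronglyMeasurable_of_tendsto_ae atTop hmeas hlim
  have hLb : ∀ᵐ s ∂μ, |Lf s| ≤ M := by
    filter_upwards [hlim, ae_all_iff.2 hM] with s hs hMs
    exact le_of_tendsto' hs.abs hMs
  have i1 : Integrable K1 μ := by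
    refine Integrable.of_bound m1 C ?_
    simpa [Real.norm_eq_abs] using b1
  have i2 : Integrable (fun s => Lf s * K0 s) μ := by
    refine Integrable.of_bound (hLm.mul m0) (M * C) ?_
    filter_upwards [hLb, b0] with s h1 h2
    rw [Real.norm_eq_abs]
    show |Lf s * K0 s| ≤ M * C
    rw [abs_mul]
    exact mul_le_mul h1 h2 (abs_nonneg _) ((abs_nonneg _).trans h1)
  have e : ∀ s, -Lf s * K0 s + 1 * (K1 s + 0) = K1 s - Lf s * K0 s := fun s => by ring
  simp only [e] at h10
  rw [integral_sub i1 i2] at h10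
  linarith

end Pool.Agent.H943R3
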