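import Pool.Agent.H943R3.BumpFacts
import Pool.Agent.H943R3.Lim

/-! The blow-up limit is weakly harmonic. -/

namespace Pool.Agent.H943R3

open MeasureTheory Set Filter Topology InnerProductSpace

/-- The output of the blow-up lemma. -/
structure BlowData (Ω : Set E3) (v : E3 → ℝ) (v0 M1 : ℝ) (L : E3 → ℝ) : Prop where
  hM1 : 0 ≤ M1
  tend : ∀ x ∈ Ω, Tendsto (fun k : ℕ => (v ((1 / ((k : ℝ) + 1)) • x) - v0) / (1 / ((k : ℝ) + 1)))
        atTop (𝓝 (L x))
  bd : ∀ x ∈ Ω, ∀ r : ℝ, 0 < r → r ≤ 1 →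
        -M1 ≤ (v (r • x) - v0) / r ∧ (v (r • x) - v0) / r ≤ v x - v0

theorem rk_pos (k : ℕ) : (0 : ℝ) < 1 / ((k : ℝ) + 1) := by positivity

theorem rk_le (k : ℕ) : 1 / ((k : ℝ) + 1) ≤ 1 := by
  rw [div_le_one (by positivity)]
  have : (0 : ℝ) ≤ k := Nat.cast_nonneg k
  linarith

theorem rk_tendsto : Tendsto (fun k : ℕ => 1 / ((k : ℝ) + 1)) atTop (𝓝 0) :=
  tendsto_one_div_add_atTop_nhds_zero_nat

/-- abstract limit identity on a finite measure set `B`, mapped into `Ω` by `T` -/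
theorem blow_identity {Ω : Set E3} {u v : E3 → ℝ} (hpos : ∀ x ∈ Ω, 0 < u x)
    (hv : v = fun x => - Real.log (u x)) (hvc : ContinuousOn v Ω)
    (hstar : ∀ x ∈ Ω, ∀ r : ℝ, 0 < r → r ≤ 1 → r • x ∈ Ω)
    {v0 M1 : ℝ} {L : E3 → ℝ} (hB : BlowData Ω v v0 M1 L)
    {B : Set (Fin 3 → ℝ)} (hBm : MeasurableSet B) (hBf : volume B < ⊤)
    {T : (Fin 3 → ℝ) → E3} (hT : Continuous T) (hTB : ∀ s ∈ B, T s ∈ Ω) {M2 : ℝ}
    (hM2 : ∀ s ∈ B, v (T s) ≤ M2) {K0 K1 K2 K3 : (Fin 3 → ℝ) → ℝ}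
    (c0 : Continuous K0) (c1 : Continuous K1) (c2 : Continuous K2) (c3 : Continuous K3)
    {C : ℝ} (b0 : ∀ s ∈ B, |K0 s| ≤ C) (b1 : ∀ s ∈ B, |K1 s| ≤ C) (b2 : ∀ s ∈ B, |K2 s| ≤ C)
    (b3 : ∀ s ∈ B, |K3 s| ≤ C)
    (hid : ∀ k : ℕ, ∫ s in B, u ((1 / ((k : ℝ) + 1)) • T s) *
      (K0 s + (1 / ((k : ℝ) + 1)) * K1 s + (1 / ((k : ℝ) + 1)) ^ 2 *
        (K2 s + (1 / ((k : ℝ) + 1)) * K3 s)) = 0)
    (h0 : ∫ s in B, K0 s = 0) :
    ∫ s in B, L (T s) * K0 s = ∫ s in B, K1 s := by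
  have : IsFiniteMeasure ((volume : Measure (Fin 3 → ℝ)).restrict B) :=
    ⟨by rw [Measure.restrict_apply_univ]; exact hBf⟩
  refine lim_lemma (vk := fun k s => (v ((1 / ((k : ℝ) + 1)) • T s) - v0) / (1 / ((k : ℝ) + 1)))
    (M := max M1 (M2 - v0)) (C := C) (K2 := K2) (K3 := K3) ?_ ?_ ?_ rk_pos rk_le rk_tendsto
    c0.aestronglyMeasurable c1.aestronglyMeasurable c2.aestronglyMeasurable
    c3.aestronglyMeasurable ?_ ?_ ?_ ?_ ?_ h0
  · intro k
    rw [ae_restrict_iff' hBm]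
    refine Eventually.of_forall fun s hs => ?_
    obtain ⟨h1, h2⟩ := hB.bd (T s) (hTB s hs) _ (rk_pos k) (rk_le k)
    have h3 := hM2 s hs
    rw [abs_le]
    constructor
    · have := le_max_left M1 (M2 - v0)
      linarith
    · have := le_max_right M1 (M2 - v0)
      linarith
  · intro k
    have h1 : ContinuousOn (fun s => v ((1 / ((k : ℝ) + 1)) • T s)) B := by
      refine hvc.comp (by fun_prop) ?_
      intro s hs
      exact hstar _ (hTB s hs) _ (rk_pos k) (rk_le k)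
    exact ((h1.sub continuousOn_const).div_const _).aestronglyMeasurable hBm
  · rw [ae_restrict_iff' hBm]
    exact Eventually.of_forall fun s hs => hB.tend (T s) (hTB s hs)
  · rw [ae_restrict_iff' hBm]
    exact Eventually.of_forall b0
  · rw [ae_restrict_iff' hBm]
    exact Eventually.of_forall b1
  · rw [ae_restrict_iff' hBm]
    exact Eventually.of_forall b2
  · rw [ae_restrict_iff' hBm]
    exact Eventually.of_forall b3
  · intro k
    have h1 := hid k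
    have e : ∀ s ∈ B, Real.exp (-(1 / ((k : ℝ) + 1) *
        ((v ((1 / ((k : ℝ) + 1)) • T s) - v0) / (1 / ((k : ℝ) + 1))))) *
        (K0 s + (1 / ((k : ℝ) + 1)) * K1 s + (1 / ((k : ℝ) + 1)) ^ 2 *
        (K2 s + (1 / ((k : ℝ) + 1)) * K3 s)) = Real.exp v0 * (u ((1 / ((k : ℝ) + 1)) • T s) *
      (K0 s + (1 / ((k : ℝ) + 1)) * K1 s + (1 / ((k : ℝ) + 1)) ^ 2 *
        (K2 s + (1 / ((k : ℝ) + 1)) * K3 s))) := by
      intro s hs
      have hp := hpos _ (hstar _ (hTB s hs) _ (rk_pos k) (rk_le k))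
      have h2 : 1 / ((k : ℝ) + 1) *
        ((v ((1 / ((k : ℝ) + 1)) • T s) - v0) / (1 / ((k : ℝ) + 1))) =
          v ((1 / ((k : ℝ) + 1)) • T s) - v0 := by
        have := (rk_pos k).ne'
        field_simp
      rw [h2, neg_sub, sub_eq_add_neg, Real.exp_add, hv, neg_neg, Real.exp_log hp]
      ring
    rw [setIntegral_congr_fun hBm e, integral_const_mul, h1, mul_zero]

/-- The Laplacian kernel on the unit cube. -/
noncomputable def lapB (x : Fin 3 → ℝ) : ℝ := lap bmp bmp2 bmp bmp2 bmp bmp2 x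

theorem cont_bmp : Continuous bmp := c2t_bmp.cont
theorem cont_bmp1 : Continuous bmp1 := c2t_bmp.cont1
theorem cont_bmp2 : Continuous bmp2 := c2t_bmp.cont2

theorem continuous_lapB : Continuous lapB := by
  have := cont_bmp
  have := cont_bmp2
  unfold lapB lap
  fun_prop

/-- translation of the box `FBox 2 1` to the unit cube -/
theorem trans_cube (H : (Fin 3 → ℝ) → ℝ) (c : ℝ) :
    ∫ s in FBox 2 1, H s * (lap (fun t => bmp (t - 1)) (fun t => bmp2 (t - 1)) bmp bmp2 bmp bmp2 s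
      + c * prd (fun t => bmp (t - 1)) bmp bmp s) =
    ∫ x in Icc (-1 : Fin 3 → ℝ) 1, H (x + Pi.single 0 1) * (lapB x + c * prd bmp bmp bmp x) := by
  have h1 : ∀ s : Fin 3 → ℝ, s ∉ FBox 2 1 →
      H s * (lap (fun t => bmp (t - 1)) (fun t => bmp2 (t - 1)) bmp bmp2 bmp bmp2 s
      + c * prd (fun t => bmp (t - 1)) bmp bmp s) = 0 := by
    intro s hs
    have hcase : 1 ≤ |s 0 - 1| ∨ 1 ≤ |s 1| ∨ 1 ≤ |s 2| := by
      by_contra hcon
      push Not at hcon
      obtain ⟨h1, h2, h3⟩ := hcon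
      have := abs_lt.1 h1
      exact hs ⟨by linarith [this.1], by linarith [this.2], h2, h3⟩
    unfold lap prd
    rcases hcase with h | h | h <;> obtain ⟨z1, z2, z3⟩ := bmp_zero_of h <;> simp [z1, z3]
  rw [setIntegral_eq_integral_of_forall_compl_eq_zero h1]
  rw [← integral_add_right_eq_self _ (Pi.single 0 1 : Fin 3 → ℝ)]
  have h2 : ∀ x : Fin 3 → ℝ, x ∉ Icc (-1 : Fin 3 → ℝ) 1 →
      H (x + Pi.single 0 1) * (lapB x + c * prd bmp bmp bmp x) = 0 := by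
    intro x hx
    have hcase : 1 ≤ |x 0| ∨ 1 ≤ |x 1| ∨ 1 ≤ |x 2| := by
      by_contra hcon
      push Not at hcon
      obtain ⟨h1, h2, h3⟩ := hcon
      have g1 := abs_lt.1 h1
      have g2 := abs_lt.1 h2
      have g3 := abs_lt.1 h3
      apply hx
      rw [mem_Icc]
      constructor
      · intro i
        fin_cases i
        · exact g1.1.le
        · exact g2.1.le
        · exact g3.1.le
      · intro i
        fin_cases i
        · exact g1.2.le
        · exact g2.2.le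
        · exact g3.2.le
    unfold lapB lap prd
    rcases hcase with h | h | h <;> obtain ⟨z1, z2, z3⟩ := bmp_zero_of h <;> simp [z1, z3]
  rw [setIntegral_eq_integral_of_forall_compl_eq_zero h2]
  congr 1
  ext x
  simp [lapB, lap, prd]

theorem integral_lapB : ∫ x in Icc (-1 : Fin 3 → ℝ) 1, lapB x = 0 := by
  have h1 := trans_cube (fun _ => 1) 0
  simp only [one_mul, zero_mul, add_zero] at h1
  rw [← h1]
  have hz := bmp_zero_of (t := 1) (by simp)
  have hz' := bmp_zero_of (t := -1) (by simp)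
  have h2 := div_id (δ := 2) (ρ := 1) (by norm_num) (by norm_num) (fun _ => 1) contDiff_const
    (c2t_bmp.shift 1) c2t_bmp c2t_bmp (by norm_num [hz.2.1]) hz.2.1 hz'.2.1 hz.2.1 hz'.2.1
  simp only [fderiv_fun_const, Pi.zero_apply, _root_.zero_apply, zero_mul, add_zero,
    integral_zero, zero_add, one_mul, zero_sub, hz'.2.1, neg_zero, mul_zero] at h2
  rw [setIntegral_congr_set (FBox_ae 2 1)]
  exact h2

theorem fr_scale (b : OrthonormalBasis (Fin 3) ℝ E3) {r ρ : ℝ} (hρ : 0 < ρ) (p x : Fin 3 → ℝ) :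
    (r * ρ) • fr 0 b ((1 / ρ) • p - Pi.single 0 1 + (x + Pi.single 0 1)) =
      r • fr 0 b (p + ρ • x) := by
  have h1 := fr_smul (r * ρ) (0 : E3) b ((1 / ρ) • p - Pi.single 0 1 + (x + Pi.single 0 1))
  have h2 := fr_smul r (0 : E3) b (p + ρ • x)
  rw [smul_zero] at h1 h2
  rw [← h1, ← h2]
  congr 1
  ext i
  simp only [Pi.smul_apply, Pi.add_apply, Pi.sub_apply, smul_eq_mul]
  field_simp
  ring

theorem fr_shift (q : E3) (b : OrthonormalBasis (Fin 3) ℝ E3) (t s : Fin 3 → ℝ) :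
    fr (fr q b t) b s = fr q b (t + s) := by
  simp only [fr, Pi.add_apply, add_smul, Finset.sum_add_distrib, add_assoc]

/-- the scaled very weak identity on a cube -/
theorem cube_identity {Ω : Set E3} (hGd : Good Ω)
    (hstar : ∀ x ∈ Ω, ∀ r : ℝ, 0 < r → r ≤ 1 → r • x ∈ Ω)
    {α : ℝ} (hα : 0 ≤ α) {u : E3 → ℝ} (hu : IsFirstRobin Ω α u)
    (b : OrthonormalBasis (Fin 3) ℝ E3) {p : Fin 3 → ℝ} {ρ : ℝ} (hρ : 0 < ρ)
    (hcube : ∀ x : Fin 3 → ℝ, (∀ i, |x i| ≤ 1) → fr 0 b (p + ρ • x) ∈ Ω)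
    {r : ℝ} (hr : 0 < r) (hr1 : r ≤ 1) :
    ∫ x in Icc (-1 : Fin 3 → ℝ) 1, u (r • fr 0 b (p + ρ • x)) *
      (lapB x + r ^ 2 * (ρ ^ 2 * lam Ω α * prd bmp bmp bmp x)) = 0 := by
  have hR : 0 < r * ρ := mul_pos hr hρ
  set q' : E3 := fr 0 b ((1 / ρ) • p - Pi.single 0 1) with hq'
  have H1 : ∀ s ∈ FBox ((r * ρ) * 2) ((r * ρ) * 1), fr ((r * ρ) • q') b s ∈ Ω := by
    intro s hs
    rw [← smul_FBox hR] at hs
    obtain ⟨t, ht, rfl⟩ := hs
    show fr ((r * ρ) • q') b ((r * ρ) • t) ∈ Ω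
    rw [fr_smul, hq', fr_shift]
    have e : t = (t - Pi.single 0 1) + Pi.single 0 1 := by simp
    rw [e, fr_scale b hρ]
    refine hstar _ (hcube _ ?_) r hr hr1
    obtain ⟨h0, h1, h2, h3⟩ := ht
    intro i
    fin_cases i
    · show |t 0 - (Pi.single (0 : Fin 3) (1 : ℝ) : Fin 3 → ℝ) 0| ≤ 1
      rw [Pi.single_eq_same, abs_le]
      constructor <;> linarith
    · show |t 1 - (Pi.single (0 : Fin 3) (1 : ℝ) : Fin 3 → ℝ) 1| ≤ 1
      simpa using h2.le
    · show |t 2 - (Pi.single (0 : Fin 3) (1 : ℝ) : Fin 3 → ℝ) 2| ≤ 1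
      simpa using h3.le
  have vb : ∀ t : ℝ, (r * ρ) * 1 ≤ |t| →
      bmp (t / (r * ρ)) = 0 ∧ bmp1 (t / (r * ρ)) / (r * ρ) = 0 := by
    intro t ht
    have h1 : 1 ≤ |t / (r * ρ)| := by
      rw [abs_div, abs_of_pos hR, le_div_iff₀ hR]
      linarith
    obtain ⟨z1, z2, -⟩ := bmp_zero_of h1
    exact ⟨z1, by rw [z2, zero_div]⟩
  have vb2 : ∀ t : ℝ, 1 ≤ |t / (r * ρ) - 1| →
      bmp (t / (r * ρ) - 1) = 0 ∧ bmp1 (t / (r * ρ) - 1) / (r * ρ) = 0 := by
    intro t ht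
    obtain ⟨z1, z2, -⟩ := bmp_zero_of ht
    exact ⟨z1, by rw [z2, zero_div]⟩
  have hA := adm_int (q := (r * ρ) • q') (b := b) (α := α) hGd.opn
    (show 0 < (r * ρ) * 2 by positivity) (show 0 < (r * ρ) * 1 by positivity) H1
    ((c2t_bmp.shift 1).scale hR) (c2t_bmp.scale hR) (c2t_bmp.scale hR)
    (fun t ht => vb2 t (by
      have : t / (r * ρ) ≤ 0 := div_nonpos_of_nonpos_of_nonneg ht hR.le
      rw [le_abs]
      right
      linarith))
    (fun t ht => vb2 t (by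
      have : 2 ≤ t / (r * ρ) := by
        rw [le_div_iff₀ hR]
        linarith
      rw [le_abs]
      left
      linarith)) vb vb
  have h1 := very_weak hGd hα hA hu
  have h2 := vw_resc (G := fun t => bmp (t - 1)) (G2 := fun t => bmp2 (t - 1)) (η := bmp)
    (η2 := bmp2) (θ := bmp) (θ2 := bmp2) hR h1
  have h3 := trans_cube (fun s => u ((r * ρ) • fr q' b s)) ((r * ρ) ^ 2 * lam Ω α)
  have e1 : ∀ s : Fin 3 → ℝ, u ((r * ρ) • fr q' b s) *
      (lap (fun t => bmp (t - 1)) (fun t => bmp2 (t - 1)) bmp bmp2 bmp bmp2 s +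
        (r * ρ) ^ 2 * (lam Ω α * prd (fun t => bmp (t - 1)) bmp bmp s)) =
      u ((r * ρ) • fr q' b s) *
      (lap (fun t => bmp (t - 1)) (fun t => bmp2 (t - 1)) bmp bmp2 bmp bmp2 s +
        (r * ρ) ^ 2 * lam Ω α * prd (fun t => bmp (t - 1)) bmp bmp s) := fun s => by ring
  simp only [e1] at h2
  rw [h2] at h3
  rw [h3]
  congr 1
  ext x
  simp only [hq']
  rw [fr_shift, fr_scale b hρ]
  ring

theorem weak_harmonic {Ω : Set E3} (hGd : Good Ω)
    (hstar : ∀ x ∈ Ω, ∀ r : ℝ, 0 < r → r ≤ 1 → r • x ∈ Ω)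
    {α : ℝ} (hα : 0 ≤ α) {u v : E3 → ℝ} (hu : IsFirstRobin Ω α u)
    (hv : v = fun x => - Real.log (u x)) (hvc : ContinuousOn v Ω)
    {v0 M1 : ℝ} {L : E3 → ℝ} (hB : BlowData Ω v v0 M1 L)
    (b : OrthonormalBasis (Fin 3) ℝ E3) {p : Fin 3 → ℝ} {ρ : ℝ} (hρ : 0 < ρ)
    (hcube : ∀ x : Fin 3 → ℝ, (∀ i, |x i| ≤ 1) → fr 0 b (p + ρ • x) ∈ Ω) :
    ∫ x : Fin 3 → ℝ, L (fr 0 b (p + ρ • x)) * (bmp2 (x 0) * bmp (x 1) * bmp (x 2)
        + bmp (x 0) * bmp2 (x 1) * bmp (x 2) + bmp (x 0) * bmp (x 1) * bmp2 (x 2)) = 0 := by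
  have hmem : ∀ x ∈ Icc (-1 : Fin 3 → ℝ) 1, fr 0 b (p + ρ • x) ∈ Ω := by
    intro x hx
    apply hcube
    intro i
    exact abs_le.2 ⟨hx.1 i, hx.2 i⟩
  have hT : Continuous fun x : Fin 3 → ℝ => fr 0 b (p + ρ • x) :=
    (continuous_fr 0 b).comp (by fun_prop)
  have hvT : ContinuousOn (fun x : Fin 3 → ℝ => v (fr 0 b (p + ρ • x))) (Icc (-1) 1) :=
    hvc.comp hT.continuousOn hmem
  obtain ⟨M2, hM2⟩ := isCompact_Icc.exists_bound_of_continuousOn hvT
  have hP : Continuous fun x => ρ ^ 2 * lam Ω α * prd bmp bmp bmp x := by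
    have := cont_bmp
    unfold prd
    fun_prop
  obtain ⟨C0, hC0⟩ := (isCompact_Icc (a := (-1 : Fin 3 → ℝ)) (b := 1)).exists_bound_of_continuousOn
    continuous_lapB.continuousOn
  obtain ⟨C2, hC2⟩ := (isCompact_Icc (a := (-1 : Fin 3 → ℝ)) (b := 1)).exists_bound_of_continuousOn
    hP.continuousOn
  have h := blow_identity (B := Icc (-1 : Fin 3 → ℝ) 1) hu.1 hv hvc hstar hB measurableSet_Icc
    isCompact_Icc.measure_lt_top hT hmem (M2 := M2)
    (fun s hs => (le_abs_self _).trans (hM2 s hs)) (K0 := lapB) (K1 := fun _ => 0)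
    (K2 := fun x => ρ ^ 2 * lam Ω α * prd bmp bmp bmp x) (K3 := fun _ => 0) (C := max (max C0 C2) 0)
    continuous_lapB continuous_const hP continuous_const
    (fun s hs => (hC0 s hs).trans ((le_max_left _ _).trans (le_max_left _ _)))
    (fun s hs => by simp)
    (fun s hs => (hC2 s hs).trans ((le_max_right _ _).trans (le_max_left _ _)))
    (fun s hs => by simp)
    (fun k => by
      have := cube_identity hGd hstar hα hu b hρ hcube (rk_pos k) (rk_le k)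
      simpa using this)
    integral_lapB
  rw [integral_zero, setIntegral_eq_integral_of_forall_compl_eq_zero] at h
  · exact h
  · intro x hx
    have hcase : 1 ≤ |x 0| ∨ 1 ≤ |x 1| ∨ 1 ≤ |x 2| := by
      by_contra hcon
      push Not at hcon
      obtain ⟨h1, h2, h3⟩ := hcon
      have g1 := abs_lt.1 h1
      have g2 := abs_lt.1 h2
      have g3 := abs_lt.1 h3
      apply hx
      rw [mem_Icc]
      constructor
      · intro i
        fin_cases i
        · exact g1.1.le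
        · exact g2.1.le
        · exact g3.1.le
      · intro i
        fin_cases i
        · exact g1.2.le
        · exact g2.2.le
        · exact g3.2.le
    unfold lapB lap
    rcases hcase with h | h | h <;> obtain ⟨z1, z2, z3⟩ := bmp_zero_of h <;> simp [z1, z3]

end Pool.Agent.H943R3
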