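import Pool.Agent.H753R3.LM.Stmts

/-!
Task T4 of project H753-LM (generic sequence), from task T1.
-/

set_option autoImplicit false

namespace Pool.Agent.H943R3.LM

open Pool.Agent.H753R3.LM Topology Filter Set

theorem finite_combos {G : Type} [AddCommGroup G] (j : ℕ) (y : ℕ → G) :
    {c : G | ∃ a : ℕ → ℤ, (∀ i < j, |a i| ≤ (i : ℤ)) ∧
      c = ∑ i ∈ Finset.range j, a i • y i}.Finite := by
  refine ((Fintype.piFinset (fun i : Fin j =>
    Finset.Icc (-(i : ℤ)) (i : ℤ))).finite_toSet.image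
    (fun b : Fin j → ℤ => ∑ i : Fin j, b i • y i)).subset ?_
  rintro c ⟨a, ha, rfl⟩
  refine ⟨fun i : Fin j => a i, ?_, ?_⟩
  · simp only [Finset.mem_coe, Fintype.mem_piFinset, Finset.mem_Icc]
    intro i
    exact abs_le.1 (ha i i.2)
  · exact (Finset.sum_range (fun i => a i • y i)).symm

theorem step (hT1 : TaskT1) {G : Type} [AddCommGroup G] (V : ℕ → Set G) (hV : Chain V)
    (D : Set ℤ) (W W' : ℤ → Set G) (k : ℤ → ℕ) (hF : ∀ d ∈ D, Far V d (W d) (k d))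
    (hW : ∀ d ∈ D, ∀ x ∈ W' d, ∀ y ∈ W' d, x - y ∈ W d) (j n : ℕ) (y : ℕ → G) :
    ∃ x ∈ V n, ∀ d ∈ D, |d| ≤ (j : ℤ) → ∀ m : ℤ,
      |m| ≤ (j : ℤ) → ¬ d ∣ m → ∀ a : ℕ → ℤ, (∀ i < j, |a i| ≤ (i : ℤ)) →
      m • x - ∑ i ∈ Finset.range j, a i • y i ∉ Y (W' d) d (V (k d + 1)) := by
  classical
  by_contra hcon
  push Not at hcon
  let P : Finset G := (finite_combos j y).toFinset
  let s : Finset (ℤ × ℤ × G) :=
    ((Finset.Icc (-(j : ℤ)) j ×ˢ (Finset.Icc (-(j : ℤ)) j ×ˢ P)).filter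
      (fun t => t.1 ∈ D ∧ ¬ t.1 ∣ t.2.1))
  let A : ℤ × ℤ × G → Set G :=
    fun t => {x | t.2.1 • x - t.2.2 ∈ Y (W' t.1) t.1 (V (k t.1 + 1))}
  have hcov : ∀ x ∈ V n, ∃ t ∈ s, x ∈ A t := by
    intro x hx
    obtain ⟨d, hd, hdj, m, hm, hdm, a, ha, hY⟩ := hcon x hx
    refine ⟨(d, m, ∑ i ∈ Finset.range j, a i • y i), ?_, hY⟩
    simp only [s, Finset.mem_filter, Finset.mem_product, Finset.mem_Icc]
    refine ⟨⟨abs_le.1 hdj, abs_le.1 hm, ?_⟩, hd, hdm⟩
    simp only [P, Set.Finite.mem_toFinset, Set.mem_setOf_eq]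
    exact ⟨a, ha, rfl⟩
  obtain ⟨t, hts, n', F, hFs⟩ := hT1 G V hV (ℤ × ℤ × G) s A n hcov
  simp only [s, Finset.mem_filter] at hts
  obtain ⟨_, hd, hdm⟩ := hts
  refine hF t.1 hd t.2.1 hdm n' ⟨F.image (fun f => t.2.1 • f), ?_⟩
  rintro x ⟨v, hv, rfl⟩
  obtain ⟨f, hf, a, ⟨w, hw, u, hu, hau⟩, b, ⟨w', hw', u', hu', hbu⟩, hab⟩ := hFs v hv
  refine ⟨t.2.1 • f, Finset.mem_image_of_mem _ hf, w - w', hW t.1 hd w hw w' hw', u - u', ?_, ?_⟩
  · rw [sub_eq_add_neg]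
    exact hV.add _ u hu (-u') (hV.neg _ u' hu')
  · have h1 : t.2.1 • v - t.2.1 • f = t.2.1 • a - t.2.1 • b := by
      rw [← smul_sub, hab, smul_sub]
    have h2 : t.2.1 • a = w + t.1 • u + t.2.2 := by
      rw [← hau]; abel
    have h3 : t.2.1 • b = w' + t.1 • u' + t.2.2 := by
      rw [← hbu]; abel
    rw [h1, h2, h3, smul_sub]
    abel

theorem taskT4 : TaskT1 → TaskT4 := by
  intro hT1 G _ V hV D W W' k hF hW h
  choose F hFV hFp using fun (j : ℕ) (y : ℕ → G) => step hT1 V hV D W W' k hF hW j (h j) y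
  let g : ℕ → (ℕ → G) := fun n => Nat.rec (fun _ => 0) (fun n y => Function.update y n (F n y)) n
  have hg : ∀ n, g (n + 1) = Function.update (g n) n (F n (g n)) := fun n => rfl
  have hst : ∀ i m, i < m → g m i = g (i + 1) i := by
    intro i m
    induction m with
    | zero => intro h; omega
    | succ m ih =>
      intro him
      rcases Nat.lt_succ_iff_lt_or_eq.1 him with h1 | h1
      · rw [hg m, Function.update_of_ne (by omega), ih h1]
      · rw [h1]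
  have hz : ∀ j, g (j + 1) j = F j (g j) := fun j => by rw [hg j, Function.update_self]
  refine ⟨fun j => g (j + 1) j, fun j => ?_, fun j d hd hdj m hm hdm a ha => ?_⟩
  · show g (j + 1) j ∈ V (h j)
    rw [hz]; exact hFV j (g j)
  · have h1 := hFp j (g j) d hd hdj m hm hdm a ha
    have h2 : ∑ i ∈ Finset.range j, a i • g (i + 1) i = ∑ i ∈ Finset.range j, a i • g j i :=
      Finset.sum_congr rfl fun i hi => by rw [hst i j (Finset.mem_range.1 hi)]
    show m • g (j + 1) j - ∑ i ∈ Finset.range j, a i • g (i + 1) i ∉ _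
    rw [h2, hz]
    exact h1

end Pool.Agent.H943R3.LM
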