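import Pool.Agent.H943R3.RobDef

/-! A Poincaré inequality on convex sets with constant `2^d diam²`. -/

namespace Pool.Agent.H943R3

open MeasureTheory Set Filter Topology InnerProductSpace
open scoped ENNReal

section
variable {d : ℕ}


theorem lintegral_affine {a : ℝ} (ha : 0 < a) (c : EuclideanSpace ℝ (Fin d))
    {g : EuclideanSpace ℝ (Fin d) → ℝ≥0∞} (hg : Measurable g) :
    ∫⁻ y, g (a • y + c) = ENNReal.ofReal ((a ^ d)⁻¹) * ∫⁻ y, g y := by
  have h1 : ∫⁻ y, g (a • y + c) = ∫⁻ z, g (z + c) ∂(Measure.map (fun y => a • y) volume) :=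
    (lintegral_map (f := fun z => g (z + c)) (hg.comp (measurable_add_const c))
      (measurable_const_smul a)).symm
  rw [h1]
  have h2 := Measure.map_addHaar_smul (volume : Measure (EuclideanSpace ℝ (Fin d))) ha.ne'
  have h3 : Measure.map (fun y : EuclideanSpace ℝ (Fin d) => a • y) volume =
      ENNReal.ofReal ((a ^ d)⁻¹) • volume := by
    rw [h2, finrank_euclideanSpace_fin, abs_of_pos (by positivity)]
  rw [h3, lintegral_smul_measure, lintegral_add_right_eq_self]
  rfl

theorem lintegral_contract {D : Set (EuclideanSpace ℝ (Fin d))} (hD : Convex ℝ D)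
    (hm : MeasurableSet D) {x : EuclideanSpace ℝ (Fin d)} (hx : x ∈ D) {a : ℝ} (ha : 1 / 2 ≤ a)
    (ha1 : a ≤ 1) {g : EuclideanSpace ℝ (Fin d) → ℝ≥0∞} (hg : Measurable g) :
    ∫⁻ y in D, g (a • y + (1 - a) • x) ≤ ENNReal.ofReal (2 ^ d) * ∫⁻ y in D, g y := by
  have ha0 : 0 < a := by linarith
  calc ∫⁻ y in D, g (a • y + (1 - a) • x) = ∫⁻ y in D, D.indicator g (a • y + (1 - a) • x) := by
        apply setLIntegral_congr_fun hm
        intro y hy
        have : a • y + (1 - a) • x ∈ D := hD hy hx ha0.le (by linarith) (by ring)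
        simp [this]
    _ ≤ ∫⁻ y, D.indicator g (a • y + (1 - a) • x) := setLIntegral_le_lintegral _ _
    _ = ENNReal.ofReal ((a ^ d)⁻¹) * ∫⁻ y, D.indicator g y := lintegral_affine ha0 _
        (hg.indicator hm)
    _ ≤ ENNReal.ofReal (2 ^ d) * ∫⁻ y in D, g y := by
        rw [lintegral_indicator hm]
        gcongr
        rw [← inv_pow]
        have : a⁻¹ ≤ 2 := by
          rw [inv_le_comm₀ ha0 (by norm_num)]
          linarith
        exact pow_le_pow_left₀ (by positivity) this d

theorem sq_diff_le {w : EuclideanSpace ℝ (Fin d) → ℝ} (hw : ContDiff ℝ 1 w) {h : ℝ}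
    {x y : EuclideanSpace ℝ (Fin d)} (hxy : ‖x - y‖ ≤ h) :
    ENNReal.ofReal ((w x - w y) ^ 2) ≤ ∫⁻ t in Icc (0 : ℝ) 1,
      ENNReal.ofReal (h ^ 2 * ‖gradient w (t • x + (1 - t) • y)‖ ^ 2) := by
  have hcg := continuous_gradient hw
  have hh : 0 ≤ h := (norm_nonneg _).trans hxy
  set f : ℝ → ℝ := fun t => fderiv ℝ w (t • x + (1 - t) • y) (x - y) with hf
  have hfc : Continuous f := by
    have h1 : Continuous (fderiv ℝ w) := hw.continuous_fderiv (by norm_num)
    exact (h1.comp (by fun_prop)).clm_apply continuous_const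
  have hder : ∀ t : ℝ, HasDerivAt (fun t : ℝ => w (t • x + (1 - t) • y)) (f t) t := by
    intro t
    have h1 : HasDerivAt (fun t : ℝ => t • x + (1 - t) • y) (x - y) t := by
      have h2 : HasDerivAt (fun t : ℝ => t • x) x t := by
        simpa using (hasDerivAt_id t).smul_const x
      have h3 : HasDerivAt (fun t : ℝ => (1 - t) • y) (-y) t := by
        have := ((hasDerivAt_id t).const_sub 1).smul_const y
        simpa using this
      have := h2.add h3
      rw [← sub_eq_add_neg] at this
      exact this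
    exact ((hw.differentiable (by norm_num)) _).hasFDerivAt.comp_hasDerivAt t h1
  have hFTC : ∫ t in (0 : ℝ)..1, f t = w x - w y := by
    rw [intervalIntegral.integral_eq_sub_of_hasDerivAt (fun t _ => hder t)
      (hfc.intervalIntegrable 0 1)]
    simp
  have hCS : (w x - w y) ^ 2 ≤ ∫ t in (0 : ℝ)..1, f t ^ 2 := by
    have h1 : 0 ≤ ∫ t in (0 : ℝ)..1, (f t - (w x - w y)) ^ 2 :=
      intervalIntegral.integral_nonneg (by norm_num) fun t _ => sq_nonneg _
    have h2 : ∫ t in (0 : ℝ)..1, (f t - (w x - w y)) ^ 2 =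
        (∫ t in (0 : ℝ)..1, f t ^ 2) - (w x - w y) ^ 2 := by
      have e : ∀ t, (f t - (w x - w y)) ^ 2 = f t ^ 2 - 2 * (w x - w y) * f t +
          (w x - w y) ^ 2 := fun t => by ring
      simp only [e]
      rw [intervalIntegral.integral_add, intervalIntegral.integral_sub,
        intervalIntegral.integral_const_mul, hFTC, intervalIntegral.integral_const]
      · simp
        ring
      · exact (hfc.pow 2).intervalIntegrable 0 1
      · exact (hfc.const_mul _).intervalIntegrable 0 1
      · exact ((hfc.pow 2).sub (hfc.const_mul _)).intervalIntegrable 0 1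
      · exact continuous_const.intervalIntegrable 0 1
    linarith
  have hle : ∀ t, f t ^ 2 ≤ h ^ 2 * ‖gradient w (t • x + (1 - t) • y)‖ ^ 2 := by
    intro t
    have h1 : |f t| ≤ ‖gradient w (t • x + (1 - t) • y)‖ * h := by
      have h2 := (fderiv ℝ w (t • x + (1 - t) • y)).le_opNorm (x - y)
      have h3 : ‖gradient w (t • x + (1 - t) • y)‖ = ‖fderiv ℝ w (t • x + (1 - t) • y)‖ := by
        simp only [gradient, LinearIsometryEquiv.norm_map]
      rw [h3]
      exact h2.trans (mul_le_mul_of_nonneg_left hxy (norm_nonneg _))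
    calc f t ^ 2 = |f t| ^ 2 := (sq_abs _).symm
      _ ≤ (‖gradient w (t • x + (1 - t) • y)‖ * h) ^ 2 := pow_le_pow_left₀ (abs_nonneg _) h1 2
      _ = _ := by ring
  have hgc : Continuous fun t : ℝ => h ^ 2 * ‖gradient w (t • x + (1 - t) • y)‖ ^ 2 := by
    fun_prop
  have h5 : ∫ t in (0 : ℝ)..1, f t ^ 2 ≤
      ∫ t in (0 : ℝ)..1, h ^ 2 * ‖gradient w (t • x + (1 - t) • y)‖ ^ 2 :=
    intervalIntegral.integral_mono (by norm_num) ((hfc.pow 2).intervalIntegrable 0 1)
      (hgc.intervalIntegrable 0 1) hle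
  rw [← ofReal_integral_eq_lintegral_ofReal]
  · apply ENNReal.ofReal_le_ofReal
    rw [integral_Icc_eq_integral_Ioc, ← intervalIntegral.integral_of_le (by norm_num)]
    exact hCS.trans h5
  · exact hgc.integrableOn_Icc
  · exact Eventually.of_forall fun t => by positivity

theorem poincare_double {D : Set (EuclideanSpace ℝ (Fin d))} (hD : Convex ℝ D)
    (hm : MeasurableSet D) {h : ℝ} (hdiam : ∀ x ∈ D, ∀ y ∈ D, ‖x - y‖ ≤ h)
    {w : EuclideanSpace ℝ (Fin d) → ℝ} (hw : ContDiff ℝ 1 w) :
    ∫⁻ x in D, ∫⁻ y in D, ENNReal.ofReal ((w x - w y) ^ 2) ≤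
      volume D * (ENNReal.ofReal (2 ^ d) *
        ∫⁻ x in D, ENNReal.ofReal (h ^ 2 * ‖gradient w x‖ ^ 2)) := by
  have hcg := continuous_gradient hw
  set g : EuclideanSpace ℝ (Fin d) → ℝ≥0∞ :=
    fun z => ENNReal.ofReal (h ^ 2 * ‖gradient w z‖ ^ 2) with hg
  have hgm : Measurable g := by
    have : Continuous fun z => h ^ 2 * ‖gradient w z‖ ^ 2 := by fun_prop
    exact this.measurable.ennreal_ofReal
  calc ∫⁻ x in D, ∫⁻ y in D, ENNReal.ofReal ((w x - w y) ^ 2)
      ≤ ∫⁻ x in D, ∫⁻ y in D, ∫⁻ t in Icc (0 : ℝ) 1, g (t • x + (1 - t) • y) := by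
        refine setLIntegral_mono' hm fun x hx => ?_
        refine setLIntegral_mono' hm fun y hy => ?_
        exact sq_diff_le hw (hdiam x hx y hy)
    _ = ∫⁻ x in D, ∫⁻ t in Icc (0 : ℝ) 1, ∫⁻ y in D, g (t • x + (1 - t) • y) := by
        refine setLIntegral_congr_fun hm fun x _ => ?_
        refine lintegral_lintegral_swap ?_
        have : Measurable fun p : EuclideanSpace ℝ (Fin d) × ℝ => g (p.2 • x + (1 - p.2) • p.1) :=
          hgm.comp (by fun_prop)
        exact this.aemeasurable
    _ = ∫⁻ t in Icc (0 : ℝ) 1, ∫⁻ x in D, ∫⁻ y in D, g (t • x + (1 - t) • y) := by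
        refine lintegral_lintegral_swap ?_
        have h1 : Measurable fun p : (EuclideanSpace ℝ (Fin d) × ℝ) × EuclideanSpace ℝ (Fin d) =>
            g (p.1.2 • p.1.1 + (1 - p.1.2) • p.2) := hgm.comp (by fun_prop)
        exact (h1.lintegral_prod_right' (ν := volume.restrict D)).aemeasurable
    _ ≤ ∫⁻ t in Icc (0 : ℝ) 1, volume D * (ENNReal.ofReal (2 ^ d) * ∫⁻ x in D, g x) := by
        refine setLIntegral_mono' measurableSet_Icc fun t ht => ?_
        rcases le_total t (1 / 2) with htt | htt
        · calc ∫⁻ x in D, ∫⁻ y in D, g (t • x + (1 - t) • y)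
              ≤ ∫⁻ x in D, ENNReal.ofReal (2 ^ d) * ∫⁻ y in D, g y := by
                refine setLIntegral_mono' hm fun x hx => ?_
                have := lintegral_contract hD hm hx (a := 1 - t) (by linarith)
                  (by linarith [ht.1]) hgm
                refine (le_of_eq ?_).trans this
                congr 1
                ext y
                congr 1
                rw [sub_sub_cancel, add_comm]
            _ = volume D * (ENNReal.ofReal (2 ^ d) * ∫⁻ x in D, g x) := by
                rw [setLIntegral_const, mul_comm]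
        · have hsw : ∫⁻ x in D, ∫⁻ y in D, g (t • x + (1 - t) • y) =
              ∫⁻ y in D, ∫⁻ x in D, g (t • x + (1 - t) • y) := by
            refine lintegral_lintegral_swap ?_
            have h1 : Measurable fun p : EuclideanSpace ℝ (Fin d) × EuclideanSpace ℝ (Fin d) =>
              g (t • p.1 + (1 - t) • p.2) := hgm.comp (by fun_prop)
            exact h1.aemeasurable
          rw [hsw]
          calc ∫⁻ y in D, ∫⁻ x in D, g (t • x + (1 - t) • y)
              ≤ ∫⁻ y in D, ENNReal.ofReal (2 ^ d) * ∫⁻ x in D, g x := by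
                refine setLIntegral_mono' hm fun y hy => ?_
                exact lintegral_contract hD hm hy htt ht.2 hgm
            _ = volume D * (ENNReal.ofReal (2 ^ d) * ∫⁻ x in D, g x) := by
                rw [setLIntegral_const, mul_comm]
    _ = volume D * (ENNReal.ofReal (2 ^ d) * ∫⁻ x in D, g x) := by
        rw [setLIntegral_const, Real.volume_Icc]
        simp

end

end Pool.Agent.H943R3
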