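import Pool.Agent.H943R3.VeryWeak

/-! Polyhedra in `ℝ³`: frames at faces, admissible test functions. -/

namespace Pool.Agent.H943R3

open MeasureTheory Set Filter Topology InnerProductSpace

theorem adm_face {Ω : Set E3} (hΩo : IsOpen Ω) {q : E3} {b : OrthonormalBasis (Fin 3) ℝ E3}
    {δ ρ : ℝ} (hδ : 0 < δ) (hρ : 0 < ρ) (H1 : ∀ s ∈ FBox δ ρ, fr q b s ∈ Ω)
    (hpos : ∀ x ∈ Ω, 0 < co q b x 0) {α : ℝ} {G G1 G2 η η1 η2 θ θ1 θ2 : ℝ → ℝ}
    (hG : C2T G G1 G2) (hη : C2T η η1 η2) (hθ : C2T θ θ1 θ2) (bc : G1 0 = α * G 0)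
    (vG : ∀ t, δ ≤ t → G t = 0 ∧ G1 t = 0) (vη : ∀ t, ρ ≤ |t| → η t = 0 ∧ η1 t = 0)
    (vθ : ∀ t, ρ ≤ |t| → θ t = 0 ∧ θ1 t = 0) :
    Adm q b Ω α δ ρ G G1 G2 η η1 η2 θ θ1 θ2 where
  hδ := hδ
  hρ := hρ
  hG := hG
  hη := hη
  hθ := hθ
  e1 := (vG δ le_rfl).2
  e2 := (vη ρ (le_abs_self ρ)).2
  e3 := (vη (-ρ) (by rw [abs_neg]; exact le_abs_self ρ)).2
  e4 := (vθ ρ (le_abs_self ρ)).2
  e5 := (vθ (-ρ) (by rw [abs_neg]; exact le_abs_self ρ)).2
  bc := bc
  H1 := H1
  H2 := by
    intro s hs hs'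
    have h0 := hpos _ hs
    rw [co_fr] at h0
    by_cases c0 : δ ≤ s 0
    · exact Or.inl (vG _ c0)
    · by_cases c1 : ρ ≤ |s 1|
      · exact Or.inr (Or.inl (vη _ c1))
      · by_cases c2 : ρ ≤ |s 2|
        · exact Or.inr (Or.inr (vθ _ c2))
        · exact absurd ⟨h0, not_le.1 c0, not_le.1 c1, not_le.1 c2⟩ hs'
  H3 := by
    intro φ hφ
    have hcl : ∀ x ∈ closure Ω, 0 ≤ co q b x 0 := by
      intro x hx
      have hc : Continuous fun x => co q b x 0 := (continuous_apply 0).comp (continuous_co q b)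
      have hsub : closure Ω ⊆ {x | 0 ≤ co q b x 0} :=
        closure_minimal (fun y hy => (hpos y hy).le) (isClosed_le continuous_const hc)
      exact hsub hx
    have hind : ∀ x, (frontier Ω).indicator (fun x => φ x * prd G η θ (co q b x)) x =
        {x | co q b x 0 = 0}.indicator (fun x => φ x * prd G η θ (co q b x)) x := by
      intro x
      by_cases hz : prd G η θ (co q b x) = 0
      · simp [Set.indicator, hz]
      have n0 : ¬ δ ≤ co q b x 0 := fun h => hz (by simp [prd, (vG _ h).1])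
      have n1 : ¬ ρ ≤ |co q b x 1| := fun h => hz (by simp [prd, (vη _ h).1])
      have n2 : ¬ ρ ≤ |co q b x 2| := fun h => hz (by simp [prd, (vθ _ h).1])
      push Not at n0 n1 n2
      have hiff : x ∈ frontier Ω ↔ x ∈ {x | co q b x 0 = 0} := by
        constructor
        · intro hx
          have h1 := hcl x (frontier_subset_closure hx)
          rcases h1.eq_or_lt with h | h
          · exact h.symm
          · exfalso
            have h2 : fr q b (co q b x) ∈ Ω := H1 _ ⟨h, n0, n1, n2⟩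
            rw [fr_co] at h2
            have h3 : x ∈ Ω ∩ frontier Ω := ⟨h2, hx⟩
            rw [hΩo.inter_frontier_eq] at h3
            exact h3
        · intro hx
          have hx0 : co q b x 0 = 0 := hx
          have hnot : x ∉ Ω := fun h => by
            have := hpos x h
            rw [hx0] at this
            exact lt_irrefl _ this
          rw [frontier, hΩo.interior_eq]
          refine ⟨?_, hnot⟩
          -- approximate from inside
          have ht : Tendsto (fun t : ℝ => fr q b (co q b x + t • Pi.single 0 1)) (𝓝[>] 0) (𝓝 x) := by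
            have hc : Continuous fun t : ℝ => fr q b (co q b x + t • Pi.single 0 1) :=
              (continuous_fr q b).comp (by fun_prop)
            have h5 := hc.tendsto 0
            rw [zero_smul, add_zero, fr_co] at h5
            exact h5.mono_left nhdsWithin_le_nhds
          refine mem_closure_of_tendsto ht ?_
          have hev : ∀ᶠ t in 𝓝[>] (0 : ℝ), t < δ := by
            have : ∀ᶠ t in 𝓝 (0 : ℝ), t < δ := gt_mem_nhds hδ
            exact this.filter_mono nhdsWithin_le_nhds
          filter_upwards [hev, self_mem_nhdsWithin] with t ht1 ht2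
          apply H1
          have ht2' : 0 < t := ht2
          refine ⟨?_, ?_, ?_, ?_⟩
          · simp [hx0, ht2']
          · simp [hx0, ht1]
          · simpa using n1
          · simpa using n2
      by_cases h1 : x ∈ frontier Ω
      · rw [indicator_of_mem h1, indicator_of_mem (hiff.1 h1)]
      · rw [indicator_of_notMem h1, indicator_of_notMem (fun h => h1 (hiff.2 h))]
    have hmP : MeasurableSet {x | co q b x 0 = 0} := by
      have hc : Continuous fun x => co q b x 0 := (continuous_apply 0).comp (continuous_co q b)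
      exact (isClosed_eq hc continuous_const).measurableSet
    rw [← integral_indicator isClosed_frontier.measurableSet, integral_congr_ae
      (Eventually.of_forall hind), integral_indicator hmP, plane_integral]
    rw [setIntegral_eq_integral_of_forall_compl_eq_zero]
    · congr 1
      ext y
      rw [co_fr]
      rfl
    · intro y hy
      have : ρ ≤ |y 0| ∨ ρ ≤ |y 1| := by
        by_contra hcon
        push Not at hcon
        apply hy
        rw [mem_Icc]
        have h1 := abs_lt.1 hcon.1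
        have h2 := abs_lt.1 hcon.2
        constructor
        · intro i
          fin_cases i
          · exact h1.1.le
          · exact h2.1.le
        · intro i
          fin_cases i
          · exact h1.2.le
          · exact h2.2.le
      rcases this with h | h
      · rw [(vη _ h).1]
        ring
      · rw [(vθ _ h).1]
        ring

theorem adm_int {Ω : Set E3} (hΩo : IsOpen Ω) {q : E3} {b : OrthonormalBasis (Fin 3) ℝ E3}
    {δ ρ : ℝ} (hδ : 0 < δ) (hρ : 0 < ρ) (H1 : ∀ s ∈ FBox δ ρ, fr q b s ∈ Ω)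
    {α : ℝ} {G G1 G2 η η1 η2 θ θ1 θ2 : ℝ → ℝ}
    (hG : C2T G G1 G2) (hη : C2T η η1 η2) (hθ : C2T θ θ1 θ2)
    (v0 : ∀ t, t ≤ 0 → G t = 0 ∧ G1 t = 0)
    (vG : ∀ t, δ ≤ t → G t = 0 ∧ G1 t = 0) (vη : ∀ t, ρ ≤ |t| → η t = 0 ∧ η1 t = 0)
    (vθ : ∀ t, ρ ≤ |t| → θ t = 0 ∧ θ1 t = 0) :
    Adm q b Ω α δ ρ G G1 G2 η η1 η2 θ θ1 θ2 where
  hδ := hδ
  hρ := hρ
  hG := hG
  hη := hη
  hθ := hθ
  e1 := (vG δ le_rfl).2
  e2 := (vη ρ (le_abs_self ρ)).2
  e3 := (vη (-ρ) (by rw [abs_neg]; exact le_abs_self ρ)).2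
  e4 := (vθ ρ (le_abs_self ρ)).2
  e5 := (vθ (-ρ) (by rw [abs_neg]; exact le_abs_self ρ)).2
  bc := by
    rw [(v0 0 le_rfl).1, (v0 0 le_rfl).2]
    ring
  H1 := H1
  H2 := by
    intro s hs hs'
    by_cases c : s 0 ≤ 0
    · exact Or.inl (v0 _ c)
    by_cases c0 : δ ≤ s 0
    · exact Or.inl (vG _ c0)
    · by_cases c1 : ρ ≤ |s 1|
      · exact Or.inr (Or.inl (vη _ c1))
      · by_cases c2 : ρ ≤ |s 2|
        · exact Or.inr (Or.inr (vθ _ c2))
        · exact absurd ⟨not_le.1 c, not_le.1 c0, not_le.1 c1, not_le.1 c2⟩ hs'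
  H3 := by
    intro φ hφ
    have h1 : ∫ x in frontier Ω, φ x * prd G η θ (co q b x) ∂(μHE[2]) = 0 := by
      refine setIntegral_eq_zero_of_forall_eq_zero fun x hx => ?_
      by_contra hz0
      have hz : prd G η θ (co q b x) ≠ 0 := fun h => hz0 (by rw [h, mul_zero])
      have n : ¬ co q b x 0 ≤ 0 := fun h => hz (by simp [prd, (v0 _ h).1])
      have n0 : ¬ δ ≤ co q b x 0 := fun h => hz (by simp [prd, (vG _ h).1])
      have n1 : ¬ ρ ≤ |co q b x 1| := fun h => hz (by simp [prd, (vη _ h).1])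
      have n2 : ¬ ρ ≤ |co q b x 2| := fun h => hz (by simp [prd, (vθ _ h).1])
      push Not at n n0 n1 n2
      have h2 : fr q b (co q b x) ∈ Ω := H1 _ ⟨n, n0, n1, n2⟩
      rw [fr_co] at h2
      have h3 : x ∈ Ω ∩ frontier Ω := ⟨h2, hx⟩
      rw [hΩo.inter_frontier_eq] at h3
      exact h3
    rw [h1, (v0 0 le_rfl).1]
    simp

/-- Unit vectors extend to orthonormal bases. -/
theorem exists_frame {n : E3} (hn : ‖n‖ = 1) : ∃ b : OrthonormalBasis (Fin 3) ℝ E3, b 0 = n := by
  have hon : Orthonormal ℝ (({0} : Set (Fin 3)).restrict (fun _ : Fin 3 => n)) := by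
    rw [orthonormal_iff_ite]
    intro i j
    have : i = j := Subsingleton.elim _ _
    subst this
    simp [Set.restrict, real_inner_self_eq_norm_sq, hn]
  obtain ⟨b, hb⟩ := hon.exists_orthonormalBasis_extension_of_card_eq (ι := Fin 3) (by simp)
  exact ⟨b, hb 0 rfl⟩

/-- The open polyhedron with inner unit normals `n i` and offsets `c i`. -/
def Pol {ι : Type} (n : ι → E3) (c : ι → ℝ) : Set E3 := {x | ∀ i, c i < ⟪n i, x⟫_ℝ}

section
variable {ι : Type} [Fintype ι] {n : ι → E3} {c : ι → ℝ}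

theorem isOpen_Pol : IsOpen (Pol n c) := by
  have : Pol n c = ⋂ i, {x | c i < ⟪n i, x⟫_ℝ} := by
    ext x
    simp [Pol]
  rw [this]
  refine isOpen_iInter_of_finite fun i => isOpen_lt continuous_const (by fun_prop)

theorem convex_Pol : Convex ℝ (Pol n c) := by
  intro x hx y hy a b ha hb hab i
  rw [inner_add_right, inner_smul_right, inner_smul_right]
  have h1 := hx i
  have h2 := hy i
  rcases ha.eq_or_lt with h | h
  · have hb1 : b = 1 := by linarith
    rw [← h, hb1]
    linarith
  · have e : c i = a * c i + b * c i := by rw [← add_mul, hab, one_mul]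
    rw [e]
    have h3 : a * c i < a * ⟪n i, x⟫_ℝ := mul_lt_mul_of_pos_left h1 h
    have h4 : b * c i ≤ b * ⟪n i, y⟫_ℝ := mul_le_mul_of_nonneg_left h2.le hb
    linarith

theorem frontier_Pol : frontier (Pol n c) ⊆ ⋃ i, {x | ⟪n i, x⟫_ℝ = c i} := by
  intro x hx
  have h1 : ∀ i, c i ≤ ⟪n i, x⟫_ℝ := by
    intro i
    have hsub : closure (Pol n c) ⊆ {x | c i ≤ ⟪n i, x⟫_ℝ} :=
      closure_minimal (fun y hy => (hy i).le) (isClosed_le continuous_const (by fun_prop))
    exact hsub (frontier_subset_closure hx)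
  have h2 : x ∉ Pol n c := fun h => by
    have h3 : x ∈ Pol n c ∩ frontier (Pol n c) := ⟨h, hx⟩
    rw [isOpen_Pol.inter_frontier_eq] at h3
    exact h3
  have h4 : ∃ i, ¬ c i < ⟪n i, x⟫_ℝ := by
    by_contra hcon
    push Not at hcon
    exact h2 hcon
  obtain ⟨i, hi⟩ := h4
  exact mem_iUnion.2 ⟨i, le_antisymm (not_lt.1 hi) (h1 i)⟩

theorem good_Pol (hn : ∀ i, ‖n i‖ = 1) (hb : Bornology.IsBounded (Pol n c)) : Good (Pol n c) where
  bdd := hb
  opn := isOpen_Pol
  fin := by
    show (μHE[2] : Measure E3) (frontier (Pol n c)) < ⊤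
    have hbf : Bornology.IsBounded (frontier (Pol n c)) :=
      hb.closure.subset frontier_subset_closure
    have hsub : frontier (Pol n c) ⊆ ⋃ i, (frontier (Pol n c) ∩ {x | ⟪n i, x⟫_ℝ = c i}) := by
      rw [← inter_iUnion]
      exact subset_inter subset_rfl frontier_Pol
    refine (measure_mono hsub).trans_lt ?_
    refine (measure_iUnion_fintype_le _ _).trans_lt ?_
    rw [ENNReal.sum_lt_top]
    intro i _
    obtain ⟨b, hb0⟩ := exists_frame (hn i)
    have e : {x | ⟪n i, x⟫_ℝ = c i} = {x | co (c i • n i) b x 0 = 0} := by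
      ext x
      simp only [co, mem_ofPred_eq, hb0, inner_sub_right, inner_smul_right,
        real_inner_self_eq_norm_sq, hn i]
      constructor
      · intro h
        rw [h]
        ring
      · intro h
        linarith
    rw [e]
    exact plane_measure_lt_top _ _ hbf

/-- A small box above a relative interior point of a face is contained in the polyhedron. -/
theorem box_Pol {i : ι} {q : E3} (hq : ⟪n i, q⟫_ℝ = c i) (hq' : ∀ j, j ≠ i → c j < ⟪n j, q⟫_ℝ)
    {b : OrthonormalBasis (Fin 3) ℝ E3} (hb : b 0 = n i) :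
    ∃ δ > 0, ∀ s : Fin 3 → ℝ, 0 < s 0 → (∀ k, |s k| < δ) → fr q b s ∈ Pol n c := by
  have hev : ∀ᶠ s in 𝓝 (0 : Fin 3 → ℝ), ∀ j, j ≠ i → c j < ⟪n j, fr q b s⟫_ℝ := by
    rw [eventually_all]
    intro j
    by_cases hj : j = i
    · exact Eventually.of_forall fun s h => absurd hj h
    · have hc : Continuous fun s => ⟪n j, fr q b s⟫_ℝ :=
        continuous_const.inner (continuous_fr q b)
      have h0 : fr q b 0 = q := by simp [fr]
      have := hc.continuousAt.eventually (lt_mem_nhds (show c j < ⟪n j, fr q b 0⟫_ℝ by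
        rw [h0]; exact hq' j hj))
      filter_upwards [this] with s hs _ using hs
  obtain ⟨δ, hδ, hball⟩ := Metric.eventually_nhds_iff.1 hev
  refine ⟨δ, hδ, fun s hs0 hs j => ?_⟩
  by_cases hj : j = i
  · subst hj
    have h1 : co q b (fr q b s) 0 = s 0 := by rw [co_fr]
    simp only [co, hb, inner_sub_right, hq] at h1
    linarith
  · refine hball ?_ j hj
    rw [dist_zero_right, pi_norm_lt_iff hδ]
    intro k
    rw [Real.norm_eq_abs]
    exact hs k

theorem co_pos_Pol {i : ι} {q : E3} (hq : ⟪n i, q⟫_ℝ = c i)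
    {b : OrthonormalBasis (Fin 3) ℝ E3} (hb : b 0 = n i) {x : E3} (hx : x ∈ Pol n c) :
    0 < co q b x 0 := by
  simp only [co, hb, inner_sub_right, hq]
  have := hx i
  linarith

end

end Pool.Agent.H943R3
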