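import Pool.Agent.H943R3.Rellich

/-! Positive minimising sequences and the logarithmic estimate. -/

namespace Pool.Agent.H943R3

open MeasureTheory Set Filter Topology InnerProductSpace
open scoped ENNReal

section
variable {d : ℕ} {Ω : Set (EuclideanSpace ℝ (Fin d))} {α : ℝ}

theorem norm_gradient (φ : EuclideanSpace ℝ (Fin d) → ℝ) (x : EuclideanSpace ℝ (Fin d)) :
    ‖gradient φ x‖ = ‖fderiv ℝ φ x‖ := by
  simp only [gradient, LinearIsometryEquiv.norm_map]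

theorem gradient_of_fderiv {φ ψ : EuclideanSpace ℝ (Fin d) → ℝ} {x : EuclideanSpace ℝ (Fin d)}
    {c : ℝ} (h : fderiv ℝ ψ x = c • fderiv ℝ φ x) : gradient ψ x = c • gradient φ x := by
  simp only [gradient, h]
  rw [LinearIsometryEquiv.map_smulₛₗ]
  simp

theorem energy_smul (hG : Good Ω) (c : ℝ) {φ : EuclideanSpace ℝ (Fin d) → ℝ}
    (hφ : ContDiff ℝ 1 φ) : energy Ω α (fun x => c * φ x) = c ^ 2 * energy Ω α φ := by
  have h1 : ∀ x, gradient (fun x => c * φ x) x = c • gradient φ x := by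
    intro x
    apply gradient_of_fderiv
    exact fderiv_const_mul ((hφ.differentiable (by norm_num)) x) c
  unfold energy
  simp only [h1, norm_smul, mul_pow, Real.norm_eq_abs, sq_abs]
  rw [integral_const_mul, integral_const_mul]
  ring

theorem reg_contDiff {φ : EuclideanSpace ℝ (Fin d) → ℝ} (hφ : ContDiff ℝ 1 φ) {δ : ℝ}
    (hδ : 0 < δ) : ContDiff ℝ 1 (fun x => √(φ x ^ 2 + δ ^ 2)) := by
  refine ContDiff.sqrt ?_ fun x => ?_
  · exact (hφ.pow 2).add contDiff_const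
  · positivity

theorem reg_gradient {φ : EuclideanSpace ℝ (Fin d) → ℝ} (hφ : ContDiff ℝ 1 φ) {δ : ℝ}
    (hδ : 0 < δ) (x : EuclideanSpace ℝ (Fin d)) :
    ‖gradient (fun x => √(φ x ^ 2 + δ ^ 2)) x‖ ≤ ‖gradient φ x‖ := by
  have hd : HasFDerivAt φ (fderiv ℝ φ x) x := ((hφ.differentiable (by norm_num)) x).hasFDerivAt
  have h1 : HasFDerivAt (fun x => φ x ^ 2 + δ ^ 2) ((2 * φ x) • fderiv ℝ φ x) x := by
    have := (hd.pow 2).add_const (δ ^ 2)
    simpa using this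
  have hne : φ x ^ 2 + δ ^ 2 ≠ 0 := by positivity
  have h2 := (h1.sqrt hne).fderiv
  rw [norm_gradient, norm_gradient, h2, smul_smul, norm_smul, Real.norm_eq_abs]
  have hs : 0 < √(φ x ^ 2 + δ ^ 2) := Real.sqrt_pos.2 (by positivity)
  have h3 : |1 / (2 * √(φ x ^ 2 + δ ^ 2)) * (2 * φ x)| ≤ 1 := by
    have e : 1 / (2 * √(φ x ^ 2 + δ ^ 2)) * (2 * φ x) = φ x / √(φ x ^ 2 + δ ^ 2) := by
      field_simp
    rw [e, abs_div, abs_of_pos hs, div_le_one hs]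
    apply Real.le_sqrt_of_sq_le
    rw [sq_abs]
    nlinarith [sq_nonneg δ]
  nlinarith [norm_nonneg (fderiv ℝ φ x)]

theorem reg_mass (hG : Good Ω) {φ : EuclideanSpace ℝ (Fin d) → ℝ} (hφ : ContDiff ℝ 1 φ) {δ : ℝ} :
    ∫ x in Ω, (√(φ x ^ 2 + δ ^ 2)) ^ 2 = (∫ x in Ω, φ x ^ 2) + δ ^ 2 * (volume Ω).toReal := by
  have hc := hφ.continuous
  have e : ∀ x, (√(φ x ^ 2 + δ ^ 2)) ^ 2 = φ x ^ 2 + δ ^ 2 := fun x =>
    Real.sq_sqrt (by positivity)
  simp only [e]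
  rw [integral_add (hG.intOn (by fun_prop)) (hG.intOn continuous_const), setIntegral_const]
  simp [Measure.real]
  ring

theorem reg_energy (hG : Good Ω) (hα : 0 ≤ α) {φ : EuclideanSpace ℝ (Fin d) → ℝ}
    (hφ : ContDiff ℝ 1 φ) {δ : ℝ} (hδ : 0 < δ) :
    energy Ω α (fun x => √(φ x ^ 2 + δ ^ 2)) ≤
      energy Ω α φ + α * (δ ^ 2 * ((μHE[d - 1] : Measure (EuclideanSpace ℝ (Fin d)))
        (frontier Ω)).toReal) := by
  have hc := hφ.continuous
  have hcg := continuous_gradient hφ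
  have hcg2 := continuous_gradient (reg_contDiff hφ hδ)
  unfold energy
  have h1 : ∫ x in Ω, ‖gradient (fun x => √(φ x ^ 2 + δ ^ 2)) x‖ ^ 2 ≤
      ∫ x in Ω, ‖gradient φ x‖ ^ 2 := by
    refine integral_mono (hG.intOn (by fun_prop)) (hG.intOn (by fun_prop)) fun x => ?_
    exact pow_le_pow_left₀ (norm_nonneg _) (reg_gradient hφ hδ x) 2
  have h2 : ∫ x in frontier Ω, (√(φ x ^ 2 + δ ^ 2)) ^ 2 ∂(μHE[d - 1]) =
      (∫ x in frontier Ω, φ x ^ 2 ∂(μHE[d - 1])) + δ ^ 2 *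
        ((μHE[d - 1] : Measure (EuclideanSpace ℝ (Fin d))) (frontier Ω)).toReal := by
    have e : ∀ x, (√(φ x ^ 2 + δ ^ 2)) ^ 2 = φ x ^ 2 + δ ^ 2 := fun x =>
      Real.sq_sqrt (by positivity)
    simp only [e]
    rw [integral_add (hG.intFr (by fun_prop)) (hG.intFr continuous_const), setIntegral_const]
    simp [Measure.real]
    ring
  rw [h2]
  nlinarith

theorem lam_nonneg (hα : 0 ≤ α) : 0 ≤ lam Ω α := by
  apply Real.sInf_nonneg
  rintro t ⟨φ, -, h1, rfl⟩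
  exact div_nonneg (energy_nonneg hα φ) h1.le

/-- Cauchy–Schwarz for the nonnegative form `energy - lam * mass`. -/
theorem form_cs (hG : Good Ω) (hα : 0 ≤ α) {φ ψ : EuclideanSpace ℝ (Fin d) → ℝ}
    (hφ : ContDiff ℝ 1 φ) (hψ : ContDiff ℝ 1 ψ) :
    (bil Ω α φ ψ - lam Ω α * ∫ x in Ω, φ x * ψ x) ^ 2 ≤
      (energy Ω α φ - lam Ω α * ∫ x in Ω, φ x ^ 2) *
        (energy Ω α ψ - lam Ω α * ∫ x in Ω, ψ x ^ 2) := by
  apply quad_ineq
  intro t
  have hc : ContDiff ℝ 1 (fun y => φ y + t * ψ y) := hφ.add (contDiff_const.mul hψ)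
  have h1 := lam_le (Ω := Ω) hα hc
  rw [energy_add hG hφ hψ t] at h1
  have c1 := hφ.continuous
  have c2 := hψ.continuous
  have e := lin3 (μ := volume.restrict Ω) (hG.intOn (f := fun x => φ x ^ 2) (by fun_prop))
    (hG.intOn (f := fun x => φ x * ψ x) (by fun_prop))
    (hG.intOn (f := fun x => ψ x ^ 2) (by fun_prop)) 1 (2 * t) (t ^ 2)
  have e2 : ∫ x in Ω, (φ x + t * ψ x) ^ 2 = ∫ x in Ω, (1 * φ x ^ 2 + 2 * t * (φ x * ψ x) +
      t ^ 2 * ψ x ^ 2) := by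
    congr 1
    ext x
    ring
  rw [e2, e] at h1
  linarith

/-- The logarithmic estimate for a positive `C^1` function. -/
theorem log_est (hG : Good Ω) (hα : 0 ≤ α) {ψ : EuclideanSpace ℝ (Fin d) → ℝ}
    (hψ : ContDiff ℝ 1 ψ) (hpos : ∀ x, 0 < ψ x) {ε : ℝ} (hε : 0 < ε) {E0 : ℝ}
    (hE0 : energy Ω α ψ ≤ E0)
    (hsmall : (energy Ω α ψ - lam Ω α * ∫ x in Ω, ψ x ^ 2) *
      (E0 / ε ^ 4 + α * (((μHE[d - 1] : Measure (EuclideanSpace ℝ (Fin d)))
        (frontier Ω)).toReal / ε ^ 2)) ≤ 1) :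
    ContDiff ℝ 1 (fun x => Real.log (ψ x + ε)) ∧
    ∫ x in Ω, ‖gradient (fun x => Real.log (ψ x + ε)) x‖ ^ 2 ≤
      α * ((μHE[d - 1] : Measure (EuclideanSpace ℝ (Fin d))) (frontier Ω)).toReal + 1 := by
  set σ : ℝ := ((μHE[d - 1] : Measure (EuclideanSpace ℝ (Fin d))) (frontier Ω)).toReal with hσ
  have hp : ∀ x, 0 < ψ x + ε := fun x => add_pos (hpos x) hε
  have hw : ContDiff ℝ 1 (fun x => Real.log (ψ x + ε)) :=
    (hψ.add contDiff_const).log fun x => (hp x).ne'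
  have hχ : ContDiff ℝ 1 (fun x => (ψ x + ε)⁻¹) :=
    (hψ.add contDiff_const).inv fun x => (hp x).ne'
  refine ⟨hw, ?_⟩
  have hd : ∀ x, HasFDerivAt (fun x => ψ x + ε) (fderiv ℝ ψ x) x := fun x =>
    (((hψ.differentiable (by norm_num)) x).hasFDerivAt).add_const ε
  have gw : ∀ x, gradient (fun x => Real.log (ψ x + ε)) x = (ψ x + ε)⁻¹ • gradient ψ x := by
    intro x
    exact gradient_of_fderiv ((hd x).log (hp x).ne').fderiv
  have gχ : ∀ x, gradient (fun x => (ψ x + ε)⁻¹) x = (-((ψ x + ε) ^ 2)⁻¹) • gradient ψ x := by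
    intro x
    apply gradient_of_fderiv
    have h1 := ((hasDerivAt_inv (hp x).ne').comp_hasFDerivAt x (hd x)).fderiv
    have e : (fun x => (ψ x + ε)⁻¹) = (fun y : ℝ => y⁻¹) ∘ (fun x => ψ x + ε) := rfl
    rw [e, h1]
  have c1 := hψ.continuous
  have cg := continuous_gradient hψ
  have cw := continuous_gradient hw
  have cχ := hχ.continuous
  have cgχ := continuous_gradient hχ
  have hbil : bil Ω α ψ (fun x => (ψ x + ε)⁻¹) =
      -(∫ x in Ω, ‖gradient (fun x => Real.log (ψ x + ε)) x‖ ^ 2) +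
        α * ∫ x in frontier Ω, ψ x * (ψ x + ε)⁻¹ ∂(μHE[d - 1]) := by
    unfold bil
    rw [← integral_neg]
    congr 2
    ext x
    rw [gw, gχ, inner_smul_right, real_inner_self_eq_norm_sq, norm_smul, mul_pow, norm_inv,
      Real.norm_eq_abs, abs_of_pos (hp x)]
    rw [inv_pow]
    ring
  have hEχ : energy Ω α (fun x => (ψ x + ε)⁻¹) ≤ E0 / ε ^ 4 + α * (σ / ε ^ 2) := by
    unfold energy
    have a1 : ∫ x in Ω, ‖gradient (fun x => (ψ x + ε)⁻¹) x‖ ^ 2 ≤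
        ∫ x in Ω, (1 / ε ^ 4) * ‖gradient ψ x‖ ^ 2 := by
      refine integral_mono (hG.intOn (by fun_prop)) (hG.intOn (by fun_prop)) fun x => ?_
      show ‖gradient (fun x => (ψ x + ε)⁻¹) x‖ ^ 2 ≤ (1 / ε ^ 4) * ‖gradient ψ x‖ ^ 2
      rw [gχ, norm_smul, mul_pow]
      refine mul_le_mul_of_nonneg_right ?_ (by positivity)
      rw [norm_neg, norm_inv, norm_pow, Real.norm_eq_abs, abs_of_pos (hp x), inv_pow, ← pow_mul,
        one_div]
      apply inv_anti₀ (by positivity)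
      refine pow_le_pow_left₀ hε.le ?_ _
      linarith [hpos x]
    have a2 : ∫ x in frontier Ω, ((ψ x + ε)⁻¹) ^ 2 ∂(μHE[d - 1]) ≤
        ∫ x in frontier Ω, (1 / ε ^ 2) ∂(μHE[d - 1]) := by
      refine integral_mono (hG.intFr (by fun_prop)) (hG.intFr continuous_const) fun x => ?_
      show ((ψ x + ε)⁻¹) ^ 2 ≤ 1 / ε ^ 2
      rw [inv_pow, one_div]
      apply inv_anti₀ (by positivity)
      refine pow_le_pow_left₀ hε.le ?_ _
      linarith [hpos x]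
    rw [integral_const_mul] at a1
    rw [setIntegral_const, smul_eq_mul] at a2
    have a3 : ∫ x in Ω, ‖gradient ψ x‖ ^ 2 ≤ E0 := by
      refine le_trans ?_ hE0
      unfold energy
      have : 0 ≤ ∫ x in frontier Ω, ψ x ^ 2 ∂(μHE[d - 1]) := integral_nonneg fun x => sq_nonneg _
      nlinarith
    have a4 : (1 / ε ^ 4) * ∫ x in Ω, ‖gradient ψ x‖ ^ 2 ≤ E0 / ε ^ 4 := by
      rw [div_eq_mul_one_div E0, mul_comm E0]
      exact mul_le_mul_of_nonneg_left a3 (by positivity)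
    have a5 : (μHE[d - 1] : Measure (EuclideanSpace ℝ (Fin d))).real (frontier Ω) * (1 / ε ^ 2) =
        σ / ε ^ 2 := by
      rw [hσ, Measure.real]
      ring
    rw [a5] at a2
    have a6 := mul_le_mul_of_nonneg_left a2 hα
    linarith
  have hcs := form_cs hG hα hψ hχ
  have hQ0 := lam_le (Ω := Ω) hα hψ
  have hlam := lam_nonneg (Ω := Ω) hα
  have hNχ : 0 ≤ ∫ x in Ω, ((ψ x + ε)⁻¹) ^ 2 := integral_nonneg fun x => sq_nonneg _
  have h1 : (bil Ω α ψ (fun x => (ψ x + ε)⁻¹) - lam Ω α * ∫ x in Ω, ψ x * (ψ x + ε)⁻¹) ^ 2 ≤ 1 := by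
    refine hcs.trans (le_trans ?_ hsmall)
    refine mul_le_mul_of_nonneg_left ?_ hQ0
    nlinarith [mul_nonneg hlam hNχ]
  have h2 : -1 ≤ bil Ω α ψ (fun x => (ψ x + ε)⁻¹) - lam Ω α * ∫ x in Ω, ψ x * (ψ x + ε)⁻¹ :=
    (abs_le_of_sq_le_sq' (by simpa using h1) (by norm_num)).1
  have h3 : 0 ≤ ∫ x in Ω, ψ x * (ψ x + ε)⁻¹ := integral_nonneg fun x =>
    mul_nonneg (hpos x).le (inv_nonneg.2 (hp x).le)
  have h4 : ∫ x in frontier Ω, ψ x * (ψ x + ε)⁻¹ ∂(μHE[d - 1]) ≤ σ := by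
    have h5 : ∫ x in frontier Ω, ψ x * (ψ x + ε)⁻¹ ∂(μHE[d - 1]) ≤
        ∫ x in frontier Ω, (1 : ℝ) ∂(μHE[d - 1]) := by
      refine integral_mono (hG.intFr (by fun_prop)) (hG.intFr continuous_const) fun x => ?_
      show ψ x * (ψ x + ε)⁻¹ ≤ 1
      rw [← div_eq_mul_inv, div_le_one (hp x)]
      linarith
    rw [setIntegral_const, smul_eq_mul, mul_one] at h5
    exact h5
  rw [hbil] at h2
  have h6 := mul_le_mul_of_nonneg_left h4 hα
  have h7 := mul_nonneg hlam h3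
  linarith

end

end Pool.Agent.H943R3
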