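import Pool.Agent.H943R3.Poincare
import Pool.Agent.H943R3.Compact

/-! Compactness of bounded energy sequences on bounded convex sets. -/

namespace Pool.Agent.H943R3

open MeasureTheory Set Filter Topology InnerProductSpace
open scoped ENNReal

section
variable {d : ℕ}

theorem cell_ineq {D : Set (EuclideanSpace ℝ (Fin d))} (hD : Convex ℝ D)
    (hm : MeasurableSet D) (hb : Bornology.IsBounded D) {h : ℝ}
    (hdiam : ∀ x ∈ D, ∀ y ∈ D, ‖x - y‖ ≤ h)
    {φ : EuclideanSpace ℝ (Fin d) → ℝ} (hφ : ContDiff ℝ 1 φ) :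
    ∫ x in D, (φ x - (volume D).toReal⁻¹ * ∫ y in D, φ y) ^ 2 ≤
      2 ^ d * ∫ x in D, h ^ 2 * ‖gradient φ x‖ ^ 2 := by
  have hc := hφ.continuous
  have hcg := continuous_gradient hφ
  have hint : ∀ f : EuclideanSpace ℝ (Fin d) → ℝ, Continuous f → IntegrableOn f D volume :=
    fun f hf => integrableOn_cont hb hf _ subset_closure hm hb.measure_lt_top
  set V : ℝ := (volume D).toReal with hV
  set a : ℝ := V⁻¹ * ∫ y in D, φ y with ha
  have hfin : volume D ≠ ⊤ := hb.measure_lt_top.ne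
  by_cases hz : volume D = 0
  · have : (volume : Measure (EuclideanSpace ℝ (Fin d))).restrict D = 0 :=
      Measure.restrict_eq_zero.2 hz
    rw [this]
    simp
  have hV0 : 0 < V := ENNReal.toReal_pos hz hfin
  have hjen : ∀ x, V * (φ x - a) ^ 2 ≤ ∫ y in D, (φ x - φ y) ^ 2 := by
    intro x
    have h1 : 0 ≤ ∫ y in D, ((φ x - φ y) - (φ x - a)) ^ 2 := integral_nonneg fun y => sq_nonneg _
    have h2 := lin3 (μ := volume.restrict D) (hint (fun y => (φ x - φ y) ^ 2) (by fun_prop))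
      (hint φ hc) (hint (fun _ => (1 : ℝ)) continuous_const) 1 (2 * (φ x - a))
      ((φ x - a) ^ 2 - 2 * (φ x - a) * φ x)
    have h3 : ∫ y in D, ((φ x - φ y) - (φ x - a)) ^ 2 = ∫ y in D, (1 * (φ x - φ y) ^ 2 +
        2 * (φ x - a) * φ y + ((φ x - a) ^ 2 - 2 * (φ x - a) * φ x) * 1) := by
      congr 1
      ext y
      ring
    have h4 : ∫ y in D, (1 : ℝ) = V := by
      rw [setIntegral_const]
      simp [hV, Measure.real]
    have h5 : ∫ y in D, φ y = V * a := by
      rw [ha]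
      field_simp
    rw [h3, h2, h4, h5] at h1
    nlinarith
  have hjen2 : ∀ x, ENNReal.ofReal ((φ x - a) ^ 2) * volume D ≤
      ∫⁻ y in D, ENNReal.ofReal ((φ x - φ y) ^ 2) := by
    intro x
    rw [← ofReal_integral_eq_lintegral_ofReal (hint (fun y => (φ x - φ y) ^ 2) (by fun_prop))
      (Eventually.of_forall fun y => sq_nonneg _)]
    have h1 : volume D = ENNReal.ofReal V := (ENNReal.ofReal_toReal hfin).symm
    rw [h1, ← ENNReal.ofReal_mul (sq_nonneg _)]
    apply ENNReal.ofReal_le_ofReal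
    have := hjen x
    linarith
  have hpd := poincare_double hD hm hdiam hφ
  have h6 : (∫⁻ x in D, ENNReal.ofReal ((φ x - a) ^ 2)) * volume D ≤
      volume D * (ENNReal.ofReal (2 ^ d) *
        ∫⁻ x in D, ENNReal.ofReal (h ^ 2 * ‖gradient φ x‖ ^ 2)) := by
    rw [← lintegral_mul_const]
    · exact (lintegral_mono fun x => hjen2 x).trans hpd
    · have : Continuous fun x => (φ x - a) ^ 2 := by fun_prop
      exact this.measurable.ennreal_ofReal
  rw [mul_comm (volume D)] at h6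
  have h7 : ∫⁻ x in D, ENNReal.ofReal ((φ x - a) ^ 2) ≤ ENNReal.ofReal (2 ^ d) *
        ∫⁻ x in D, ENNReal.ofReal (h ^ 2 * ‖gradient φ x‖ ^ 2) :=
    (ENNReal.mul_le_mul_iff_left hz hfin).1 h6
  rw [← ofReal_integral_eq_lintegral_ofReal (hint (fun y => (φ y - a) ^ 2) (by fun_prop))
      (Eventually.of_forall fun y => sq_nonneg _),
    ← ofReal_integral_eq_lintegral_ofReal
      (hint (fun y => h ^ 2 * ‖gradient φ y‖ ^ 2) (by fun_prop))
      (Eventually.of_forall fun y => by positivity), ← ENNReal.ofReal_mul (by positivity)] at h7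
  have h8 : 0 ≤ ∫ x in D, h ^ 2 * ‖gradient φ x‖ ^ 2 := integral_nonneg fun x => by positivity
  exact (ENNReal.ofReal_le_ofReal_iff (by positivity)).1 h7

/-- The cells of the cubic grid of mesh `h`, intersected with `Ω`. -/
def cell (Ω : Set (EuclideanSpace ℝ (Fin d))) (h : ℝ) (k : Fin d → ℤ) :
    Set (EuclideanSpace ℝ (Fin d)) :=
  {x | x ∈ Ω ∧ ∀ i, ⌊x i / h⌋ = k i}

theorem cell_eq (Ω : Set (EuclideanSpace ℝ (Fin d))) {h : ℝ} (hh : 0 < h) (k : Fin d → ℤ) :
    cell Ω h k = Ω ∩ ⋂ i, {x | (k i : ℝ) * h ≤ x i ∧ x i < (k i + 1) * h} := by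
  ext x
  simp only [cell, mem_inter_iff, mem_iInter, mem_ofPred_eq]
  refine and_congr_right fun _ => forall_congr' fun i => ?_
  rw [Int.floor_eq_iff, le_div_iff₀ hh, div_lt_iff₀ hh]

theorem cell_measurable {Ω : Set (EuclideanSpace ℝ (Fin d))} (hm : MeasurableSet Ω) {h : ℝ}
    (hh : 0 < h) (k : Fin d → ℤ) : MeasurableSet (cell Ω h k) := by
  rw [cell_eq Ω hh]
  refine hm.inter (MeasurableSet.iInter fun i => ?_)
  have hc : Continuous fun x : EuclideanSpace ℝ (Fin d) => x i := by fun_prop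
  exact (measurableSet_le measurable_const hc.measurable).inter
    (measurableSet_lt hc.measurable measurable_const)

theorem cell_convex {Ω : Set (EuclideanSpace ℝ (Fin d))} (hc : Convex ℝ Ω) {h : ℝ}
    (hh : 0 < h) (k : Fin d → ℤ) : Convex ℝ (cell Ω h k) := by
  rw [cell_eq Ω hh]
  refine hc.inter (convex_iInter fun i => ?_)
  have hl : IsLinearMap ℝ fun x : EuclideanSpace ℝ (Fin d) => x i :=
    ⟨fun x y => rfl, fun c x => rfl⟩
  exact (convex_halfSpace_ge hl _).inter (convex_halfSpace_lt hl _)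

theorem cell_diam {Ω : Set (EuclideanSpace ℝ (Fin d))} {h : ℝ} (hh : 0 < h) (k : Fin d → ℤ) :
    ∀ x ∈ cell Ω h k, ∀ y ∈ cell Ω h k, ‖x - y‖ ≤ √d * h := by
  intro x hx y hy
  rw [cell_eq Ω hh] at hx hy
  have h1 : ∀ i, |x i - y i| ≤ h := by
    intro i
    have a1 := mem_iInter.1 hx.2 i
    have a2 := mem_iInter.1 hy.2 i
    have a3 : (k i : ℝ) * h ≤ x i ∧ x i < (k i + 1) * h := a1
    have a4 : (k i : ℝ) * h ≤ y i ∧ y i < (k i + 1) * h := a2
    rw [abs_le]
    constructor <;> nlinarith [a3.1, a3.2, a4.1, a4.2]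
  rw [EuclideanSpace.norm_eq]
  have h2 : ∑ i, ‖(x - y) i‖ ^ 2 ≤ d * h ^ 2 := by
    have : ∀ i ∈ (Finset.univ : Finset (Fin d)), ‖(x - y) i‖ ^ 2 ≤ h ^ 2 := by
      intro i _
      rw [Real.norm_eq_abs]
      exact pow_le_pow_left₀ (abs_nonneg _) (h1 i) 2
    refine (Finset.sum_le_card_nsmul _ _ _ this).trans ?_
    simp
  calc √(∑ i, ‖(x - y) i‖ ^ 2) ≤ √(d * h ^ 2) := Real.sqrt_le_sqrt h2
    _ = √d * h := by rw [Real.sqrt_mul (Nat.cast_nonneg d), Real.sqrt_sq hh.le]

theorem rellich {Ω : Set (EuclideanSpace ℝ (Fin d))} (hG : Good Ω) (hc : Convex ℝ Ω)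
    {φ : ℕ → EuclideanSpace ℝ (Fin d) → ℝ} (hφ : ∀ n, ContDiff ℝ 1 (φ n)) {A0 B0 : ℝ}
    (hA0 : ∀ n, ∫ x in Ω, φ n x ^ 2 ≤ A0) (hB0 : ∀ n, ∫ x in Ω, ‖gradient (φ n) x‖ ^ 2 ≤ B0) :
    ∃ u : EuclideanSpace ℝ (Fin d) → ℝ, MemLp u 2 (volume.restrict Ω) ∧
      ∃ ns : ℕ → ℕ, StrictMono ns ∧
      Tendsto (fun k => ∫ x in Ω, (φ (ns k) x - u x) ^ 2) atTop (𝓝 0) ∧
      ∀ᵐ x ∂(volume.restrict Ω), Tendsto (fun k => φ (ns k) x) atTop (𝓝 (u x)) := by
  classical
  refine compact_of_averages (fun n => memLp_of_cont hG (hφ n).continuous) ?_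
  intro ε hε
  have hΩm : MeasurableSet Ω := hG.opn.measurableSet
  have hB00 : 0 ≤ B0 := (integral_nonneg fun x => by positivity).trans (hB0 0)
  -- mesh size
  obtain ⟨h, hh, hsmall⟩ : ∃ h : ℝ, 0 < h ∧ 2 ^ d * ((√d * h) ^ 2 * B0) ≤ ε ^ 2 := by
    have hden : 0 < 2 ^ d * ((√d) ^ 2 * B0) + 1 := by positivity
    refine ⟨ε / √(2 ^ d * ((√d) ^ 2 * B0) + 1), by positivity, ?_⟩
    rw [mul_pow, div_pow, Real.sq_sqrt hden.le]
    have : 2 ^ d * ((√d) ^ 2 * (ε ^ 2 / (2 ^ d * ((√d) ^ 2 * B0) + 1)) * B0) =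
        ε ^ 2 * ((2 ^ d * ((√d) ^ 2 * B0)) / (2 ^ d * ((√d) ^ 2 * B0) + 1)) := by
      field_simp
    rw [this]
    have h2 : (2 ^ d * ((√d) ^ 2 * B0)) / (2 ^ d * ((√d) ^ 2 * B0) + 1) ≤ 1 := by
      rw [div_le_one hden]
      linarith
    nlinarith [sq_nonneg ε]
  -- bound for indices
  obtain ⟨R, hR⟩ := hG.bdd.subset_closedBall 0
  obtain ⟨Mz, hMz⟩ : ∃ Mz : ℤ, ∀ x ∈ Ω, ∀ i, -Mz ≤ ⌊x i / h⌋ ∧ ⌊x i / h⌋ ≤ Mz := by
    refine ⟨⌈|R| / h⌉ + 1, fun x hx i => ?_⟩
    have h1 : ‖x‖ ≤ |R| := (mem_closedBall_zero_iff.1 (hR hx)).trans (le_abs_self R)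
    have h2 : |x i| ≤ |R| := by
      have := PiLp.norm_apply_le x i
      rw [Real.norm_eq_abs] at this
      exact this.trans h1
    have h3 : |x i / h| ≤ |R| / h := by
      rw [abs_div, abs_of_pos hh]
      gcongr
    have h4 := abs_le.1 h3
    have h5 : |R| / h ≤ ⌈|R| / h⌉ := Int.le_ceil _
    constructor
    · rw [Int.le_floor]
      push_cast
      linarith [h4.1]
    · have h6 : (⌊x i / h⌋ : ℝ) ≤ x i / h := Int.floor_le _
      have h7 : (⌊x i / h⌋ : ℝ) ≤ ((⌈|R| / h⌉ + 1 : ℤ) : ℝ) := by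
        push_cast
        linarith [h4.2]
      exact_mod_cast h7
  set Kf : Finset (Fin d → ℤ) := Fintype.piFinset fun _ => Finset.Icc (-Mz) Mz with hKf
  set vΩ : ℝ := (volume Ω).toReal with hvΩ
  set Ab : ℝ := ∑ k : Kf, (volume (cell Ω h k.1)).toReal⁻¹ * (vΩ + A0) with hAb
  have hdisj : Pairwise (Function.onFun Disjoint fun k : Kf => cell Ω h k.1) := by
    intro k l hkl
    rw [Function.onFun, Set.disjoint_left]
    intro x hx hy
    apply hkl
    apply Subtype.ext
    ext i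
    rw [← hx.2 i, ← hy.2 i]
  have hunion : (⋃ k : Kf, cell Ω h k.1) = Ω := by
    ext x
    rw [mem_iUnion]
    constructor
    · rintro ⟨k, hk⟩
      exact hk.1
    · intro hx
      refine ⟨⟨fun i => ⌊x i / h⌋, ?_⟩, hx, fun i => rfl⟩
      rw [hKf, Fintype.mem_piFinset]
      intro i
      rw [Finset.mem_Icc]
      exact hMz x hx i
  have hsplit : ∀ f : EuclideanSpace ℝ (Fin d) → ℝ, IntegrableOn f Ω volume →
      ∫ x in Ω, f x = ∑ k : Kf, ∫ x in cell Ω h k.1, f x := by
    intro f hf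
    conv_lhs => rw [← hunion]
    refine integral_iUnion_fintype (fun k => cell_measurable hΩm hh k.1) hdisj fun k => ?_
    exact hf.mono_set fun x hx => hx.1
  refine ⟨Kf, inferInstance, fun k => (cell Ω h k.1).indicator fun _ => 1, Ab, ?_, ?_⟩
  · intro k
    exact (memLp_of_cont hG continuous_const).indicator (cell_measurable hΩm hh k.1)
  · intro n
    have hcn := (hφ n).continuous
    have hcg := continuous_gradient (hφ n)
    refine ⟨fun k => (volume (cell Ω h k.1)).toReal⁻¹ * ∫ y in cell Ω h k.1, φ n y, ?_, ?_⟩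
    · intro k
      have h1 : |∫ y in cell Ω h k.1, φ n y| ≤ vΩ + A0 := by
        have i0 : IntegrableOn (fun y => 1 + φ n y ^ 2) Ω volume := hG.intOn (by fun_prop)
        calc |∫ y in cell Ω h k.1, φ n y| ≤ ∫ y in cell Ω h k.1, |φ n y| := by
              have := norm_integral_le_integral_norm (μ := volume.restrict (cell Ω h k.1)) (φ n)
              simpa [Real.norm_eq_abs] using this
          _ ≤ ∫ y in cell Ω h k.1, (1 + φ n y ^ 2) := by
              refine integral_mono ?_ (i0.mono_set fun x hx => hx.1) fun y => ?_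
              · exact (hG.intOn (f := fun y => |φ n y|) (by fun_prop)).mono_set fun x hx => hx.1
              · show |φ n y| ≤ 1 + φ n y ^ 2
                have := sq_abs (φ n y)
                nlinarith [sq_nonneg (|φ n y| - 1), abs_nonneg (φ n y)]
          _ ≤ ∫ y in Ω, (1 + φ n y ^ 2) := by
              refine setIntegral_mono_set i0 (Eventually.of_forall fun y => ?_)
                (Eventually.of_forall fun x hx => hx.1)
              show 0 ≤ 1 + φ n y ^ 2
              positivity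
          _ = vΩ + ∫ y in Ω, φ n y ^ 2 := by
              rw [integral_add (hG.intOn continuous_const) (hG.intOn (by fun_prop)),
                setIntegral_const]
              simp [hvΩ, Measure.real]
          _ ≤ vΩ + A0 := by linarith [hA0 n]
      have h2 : 0 ≤ vΩ + A0 := (abs_nonneg _).trans h1
      show |(volume (cell Ω h k.1)).toReal⁻¹ * ∫ y in cell Ω h k.1, φ n y| ≤ Ab
      rw [abs_mul, abs_of_nonneg (inv_nonneg.2 ENNReal.toReal_nonneg)]
      refine (mul_le_mul_of_nonneg_left h1 (inv_nonneg.2 ENNReal.toReal_nonneg)).trans ?_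
      rw [hAb]
      exact Finset.single_le_sum
        (f := fun k : Kf => (volume (cell Ω h k.1)).toReal⁻¹ * (vΩ + A0))
        (fun j _ => mul_nonneg (inv_nonneg.2 ENNReal.toReal_nonneg) h2) (Finset.mem_univ k)
    · have hml : MemLp (fun x => φ n x - ∑ k : Kf, ((volume (cell Ω h k.1)).toReal⁻¹ *
          ∫ y in cell Ω h k.1, φ n y) * (cell Ω h k.1).indicator (fun _ => 1) x) 2
          (volume.restrict Ω) := by
        refine (memLp_of_cont hG hcn).sub ?_
        refine memLp_finsetSum _ fun k _ => ?_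
        exact ((memLp_of_cont hG continuous_const).indicator
          (cell_measurable hΩm hh k.1)).const_mul _
      rw [hsplit _ hml.integrable_sq]
      have hcell : ∀ k : Kf, ∫ x in cell Ω h k.1, (φ n x - ∑ j : Kf,
          ((volume (cell Ω h j.1)).toReal⁻¹ * ∫ y in cell Ω h j.1, φ n y) *
            (cell Ω h j.1).indicator (fun _ => 1) x) ^ 2 ≤
          2 ^ d * ∫ x in cell Ω h k.1, (√d * h) ^ 2 * ‖gradient (φ n) x‖ ^ 2 := by
        intro k
        refine (le_of_eq ?_).trans (cell_ineq (cell_convex hc hh k.1) (cell_measurable hΩm hh k.1)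
          (hG.bdd.subset fun x hx => hx.1) (cell_diam hh k.1) (hφ n))
        apply setIntegral_congr_fun (cell_measurable hΩm hh k.1)
        intro x hx
        simp only
        congr 2
        rw [Finset.sum_eq_single k]
        · rw [indicator_of_mem hx, mul_one]
        · intro j _ hj
          rw [indicator_of_notMem, mul_zero]
          intro hxj
          exact Set.disjoint_left.1 (hdisj hj) hxj hx
        · intro hk
          exact absurd (Finset.mem_univ k) hk
      refine (Finset.sum_le_sum fun k _ => hcell k).trans ?_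
      rw [← Finset.mul_sum, ← hsplit _ (hG.intOn (by fun_prop)), integral_const_mul]
      refine le_trans ?_ hsmall
      gcongr
      exact hB0 n

end

end Pool.Agent.H943R3
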