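import Mathlib

/-! The first Robin eigenfunction of an open set, through minimising sequences of `C^1`
functions, and the first variation of the Robin energy. -/

namespace Pool.Agent.H943R3

open MeasureTheory Set Filter Topology InnerProductSpace

/-- The Robin energy `∫_Ω |∇φ|² + α ∫_{∂Ω} φ² dσ`, where `σ` is the `(d-1)`-dimensional
Hausdorff measure normalised as surface area. -/
noncomputable def energy {d : ℕ} (Ω : Set (EuclideanSpace ℝ (Fin d))) (α : ℝ)
    (φ : EuclideanSpace ℝ (Fin d) → ℝ) : ℝ :=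
  (∫ x in Ω, ‖gradient φ x‖ ^ 2) + α * ∫ x in frontier Ω, φ x ^ 2 ∂(μHE[d - 1])

/-- The first Robin eigenvalue: the infimum of the Rayleigh quotient over (restrictions to `Ω`
of) `C^1` functions on `ℝ^d` that do not vanish identically on `Ω`. -/
noncomputable def lam {d : ℕ} (Ω : Set (EuclideanSpace ℝ (Fin d))) (α : ℝ) : ℝ :=
  sInf {t : ℝ | ∃ φ : EuclideanSpace ℝ (Fin d) → ℝ, ContDiff ℝ 1 φ ∧ 0 < ∫ x in Ω, φ x ^ 2 ∧
    t = energy Ω α φ / ∫ x in Ω, φ x ^ 2}

/-- `u` is a (positive) first Robin eigenfunction of `Ω` with parameter `α`: it is positive on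
`Ω`, square integrable, and a minimiser of the Rayleigh quotient in the sense that there is a
sequence of `C^1` functions converging to `u` in `L²(Ω)` whose Robin energies converge to
`lam Ω α * ∫_Ω u²`. -/
def IsFirstRobin {d : ℕ} (Ω : Set (EuclideanSpace ℝ (Fin d))) (α : ℝ)
    (u : EuclideanSpace ℝ (Fin d) → ℝ) : Prop :=
  (∀ x ∈ Ω, 0 < u x) ∧ MemLp u 2 (volume.restrict Ω) ∧
  ∃ φ : ℕ → EuclideanSpace ℝ (Fin d) → ℝ, (∀ n, ContDiff ℝ 1 (φ n)) ∧
    Tendsto (fun n => ∫ x in Ω, (φ n x - u x) ^ 2) atTop (𝓝 0) ∧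
    Tendsto (fun n => energy Ω α (φ n)) atTop (𝓝 (lam Ω α * ∫ x in Ω, u x ^ 2))

/-- The bilinear form of the Robin energy. -/
noncomputable def bil {d : ℕ} (Ω : Set (EuclideanSpace ℝ (Fin d))) (α : ℝ)
    (φ ψ : EuclideanSpace ℝ (Fin d) → ℝ) : ℝ :=
  (∫ x in Ω, ⟪gradient φ x, gradient ψ x⟫_ℝ) + α * ∫ x in frontier Ω, φ x * ψ x ∂(μHE[d - 1])

section
variable {d : ℕ} {Ω : Set (EuclideanSpace ℝ (Fin d))} {α : ℝ}

theorem continuous_gradient {φ : EuclideanSpace ℝ (Fin d) → ℝ} (hφ : ContDiff ℝ 1 φ) :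
    Continuous (gradient φ) := by
  have h : Continuous (fderiv ℝ φ) := hφ.continuous_fderiv (by norm_num)
  exact (toDual ℝ (EuclideanSpace ℝ (Fin d))).symm.continuous.comp h

theorem gradient_add_smul {φ ψ : EuclideanSpace ℝ (Fin d) → ℝ} (hφ : ContDiff ℝ 1 φ)
    (hψ : ContDiff ℝ 1 ψ) (t : ℝ) (x : EuclideanSpace ℝ (Fin d)) :
    gradient (fun y => φ y + t * ψ y) x = gradient φ x + t • gradient ψ x := by
  have h1 : HasGradientAt φ (gradient φ x) x :=
    ((hφ.differentiable (by norm_num)) x).hasGradientAt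
  have h2 : HasGradientAt ψ (gradient ψ x) x :=
    ((hψ.differentiable (by norm_num)) x).hasGradientAt
  apply HasGradientAt.gradient
  rw [hasGradientAt_iff_hasFDerivAt] at *
  have h3 := h1.add (h2.const_mul t)
  have e : (toDual ℝ (EuclideanSpace ℝ (Fin d))) (gradient φ x + t • gradient ψ x) =
      (toDual ℝ (EuclideanSpace ℝ (Fin d))) (gradient φ x) +
        t • (toDual ℝ (EuclideanSpace ℝ (Fin d))) (gradient ψ x) := by
    rw [map_add]
    congr 1
    ext v
    simp [inner_smul_left]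
  rw [e]
  exact h3

theorem lin3 {X : Type*} [MeasurableSpace X] {μ : Measure X} {f g h : X → ℝ}
    (hf : Integrable f μ) (hg : Integrable g μ) (hh : Integrable h μ) (a b c : ℝ) :
    ∫ x, (a * f x + b * g x + c * h x) ∂μ = a * (∫ x, f x ∂μ) + b * (∫ x, g x ∂μ)
      + c * ∫ x, h x ∂μ := by
  have h1 : Integrable (fun x => a * f x) μ := hf.const_mul a
  have h2 : Integrable (fun x => b * g x) μ := hg.const_mul b
  have h3 : Integrable (fun x => c * h x) μ := hh.const_mul c
  have h12 : Integrable (fun x => a * f x + b * g x) μ := h1.add h2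
  rw [integral_add h12 h3, integral_add h1 h2, integral_const_mul, integral_const_mul,
    integral_const_mul]

theorem integrableOn_cont (hb : Bornology.IsBounded Ω) {f : EuclideanSpace ℝ (Fin d) → ℝ}
    (hf : Continuous f) (μ : Measure (EuclideanSpace ℝ (Fin d))) {S : Set (EuclideanSpace ℝ (Fin d))}
    (hS : S ⊆ closure Ω) (hm : MeasurableSet S) (hfin : μ S < ⊤) :
    IntegrableOn f S μ := by
  have hc : IsCompact (closure Ω) := hb.isCompact_closure
  obtain ⟨C, hC⟩ := hc.exists_bound_of_continuousOn hf.continuousOn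
  refine Measure.integrableOn_of_bounded (M := C) hfin.ne hf.aestronglyMeasurable ?_
  rw [ae_restrict_iff' hm]
  exact Eventually.of_forall fun x hx => hC x (hS hx)

theorem quad_ineq {a b c : ℝ} (h : ∀ t : ℝ, 0 ≤ a + 2 * t * b + t ^ 2 * c) : b ^ 2 ≤ a * c := by
  have := discrim_le_zero (a := c) (b := 2 * b) (c := a) (fun x => by have := h x; nlinarith)
  unfold discrim at this
  nlinarith

/-- Standing assumptions on the domain. -/
structure Good (Ω : Set (EuclideanSpace ℝ (Fin d))) : Prop where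
  bdd : Bornology.IsBounded Ω
  opn : IsOpen Ω
  fin : (μHE[d - 1] : Measure (EuclideanSpace ℝ (Fin d))) (frontier Ω) < ⊤

variable (hG : Good Ω)
include hG

theorem Good.intOn {f : EuclideanSpace ℝ (Fin d) → ℝ} (hf : Continuous f) :
    IntegrableOn f Ω volume :=
  integrableOn_cont hG.bdd hf _ subset_closure hG.opn.measurableSet hG.bdd.measure_lt_top

theorem Good.intFr {f : EuclideanSpace ℝ (Fin d) → ℝ} (hf : Continuous f) :
    IntegrableOn f (frontier Ω) (μHE[d - 1]) :=
  integrableOn_cont hG.bdd hf _ frontier_subset_closure isClosed_frontier.measurableSet hG.fin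

theorem energy_add {φ ψ : EuclideanSpace ℝ (Fin d) → ℝ} (hφ : ContDiff ℝ 1 φ)
    (hψ : ContDiff ℝ 1 ψ) (t : ℝ) :
    energy Ω α (fun y => φ y + t * ψ y) =
      energy Ω α φ + 2 * t * bil Ω α φ ψ + t ^ 2 * energy Ω α ψ := by
  unfold energy bil
  have c1 := continuous_gradient hφ
  have c2 := continuous_gradient hψ
  have e1 : ∫ x in Ω, ‖gradient (fun y => φ y + t * ψ y) x‖ ^ 2 =
      (∫ x in Ω, ‖gradient φ x‖ ^ 2) + (2 * t) * (∫ x in Ω, ⟪gradient φ x, gradient ψ x⟫_ℝ) +
        t ^ 2 * ∫ x in Ω, ‖gradient ψ x‖ ^ 2 := by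
    rw [← integral_const_mul, ← integral_const_mul, ← integral_add, ← integral_add]
    · apply integral_congr_ae
      refine Eventually.of_forall fun x => ?_
      simp only [gradient_add_smul hφ hψ]
      rw [norm_add_sq_real, inner_smul_right, norm_smul, mul_pow, Real.norm_eq_abs, sq_abs]
      ring
    · exact (hG.intOn (by fun_prop)).add (hG.intOn (by fun_prop))
    · exact hG.intOn (by fun_prop)
    · exact hG.intOn (by fun_prop)
    · exact hG.intOn (by fun_prop)
  have d1 : Continuous φ := hφ.continuous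
  have d2 : Continuous ψ := hψ.continuous
  have e2 : ∫ x in frontier Ω, (φ x + t * ψ x) ^ 2 ∂(μHE[d - 1]) =
      (∫ x in frontier Ω, φ x ^ 2 ∂(μHE[d - 1])) +
        (2 * t) * (∫ x in frontier Ω, φ x * ψ x ∂(μHE[d - 1])) +
        t ^ 2 * ∫ x in frontier Ω, ψ x ^ 2 ∂(μHE[d - 1]) := by
    rw [← integral_const_mul, ← integral_const_mul, ← integral_add, ← integral_add]
    · apply integral_congr_ae
      refine Eventually.of_forall fun x => ?_
      simp only
      ring
    · exact (hG.intFr (by fun_prop)).add (hG.intFr (by fun_prop))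
    · exact hG.intFr (by fun_prop)
    · exact hG.intFr (by fun_prop)
    · exact hG.intFr (by fun_prop)
  rw [e1, e2]
  ring

omit hG in
theorem energy_nonneg (hα : 0 ≤ α) (φ : EuclideanSpace ℝ (Fin d) → ℝ) : 0 ≤ energy Ω α φ := by
  unfold energy
  have h1 : 0 ≤ ∫ x in Ω, ‖gradient φ x‖ ^ 2 := integral_nonneg fun x => by positivity
  have h2 : 0 ≤ ∫ x in frontier Ω, φ x ^ 2 ∂(μHE[d - 1]) := integral_nonneg fun x => by positivity
  positivity

omit hG in
theorem lam_le (hα : 0 ≤ α) {φ : EuclideanSpace ℝ (Fin d) → ℝ} (hφ : ContDiff ℝ 1 φ) :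
    0 ≤ energy Ω α φ - lam Ω α * ∫ x in Ω, φ x ^ 2 := by
  have hN : 0 ≤ ∫ x in Ω, φ x ^ 2 := integral_nonneg fun x => by positivity
  rcases hN.eq_or_lt with h | h
  · rw [← h]
    have := energy_nonneg (Ω := Ω) hα φ
    linarith
  · have hb : BddBelow {t : ℝ | ∃ φ : EuclideanSpace ℝ (Fin d) → ℝ, ContDiff ℝ 1 φ ∧
        0 < ∫ x in Ω, φ x ^ 2 ∧ t = energy Ω α φ / ∫ x in Ω, φ x ^ 2} := by
      refine ⟨0, ?_⟩
      rintro t ⟨φ, -, h1, rfl⟩
      exact div_nonneg (energy_nonneg hα φ) h1.le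
    have : lam Ω α ≤ energy Ω α φ / ∫ x in Ω, φ x ^ 2 := csInf_le hb ⟨φ, hφ, h, rfl⟩
    rw [le_div_iff₀ h] at this
    linarith

/-- If `f_n → u` in `L²(Ω)` then `∫ f_n g → ∫ u g` for `g ∈ L²`. -/
theorem tendsto_mul_of_L2 {u g : EuclideanSpace ℝ (Fin d) → ℝ}
    {φ : ℕ → EuclideanSpace ℝ (Fin d) → ℝ}
    (hu : MemLp u 2 (volume.restrict Ω)) (hg : MemLp g 2 (volume.restrict Ω))
    (hφ : ∀ n, Continuous (φ n))
    (h : Tendsto (fun n => ∫ x in Ω, (φ n x - u x) ^ 2) atTop (𝓝 0)) :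
    Tendsto (fun n => ∫ x in Ω, φ n x * g x) atTop (𝓝 (∫ x in Ω, u x * g x)) := by
  have hφm : ∀ n, MemLp (φ n) 2 (volume.restrict Ω) := by
    intro n
    have : IntegrableOn (fun x => (φ n x) ^ 2) Ω volume := hG.intOn ((hφ n).pow 2)
    exact (memLp_two_iff_integrable_sq (hφ n).aestronglyMeasurable).2 this
  have hd : ∀ n, MemLp (fun x => φ n x - u x) 2 (volume.restrict Ω) := fun n => (hφm n).sub hu
  have key : ∀ n, (∫ x in Ω, (φ n x - u x) * g x) ^ 2 ≤
      (∫ x in Ω, (φ n x - u x) ^ 2) * ∫ x in Ω, g x ^ 2 := by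
    intro n
    apply quad_ineq
    intro t
    have : 0 ≤ ∫ x in Ω, ((φ n x - u x) + t * g x) ^ 2 := integral_nonneg fun x => by positivity
    refine this.trans_eq ?_
    have i1 : Integrable (fun x => (φ n x - u x) ^ 2) (volume.restrict Ω) := (hd n).integrable_sq
    have i2 : Integrable (fun x => g x ^ 2) (volume.restrict Ω) := hg.integrable_sq
    have i3 : Integrable (fun x => (φ n x - u x) * g x) (volume.restrict Ω) :=
      (hd n).integrable_mul hg
    have := lin3 i1 i3 i2 1 (2 * t) (t ^ 2)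
    rw [one_mul] at this
    rw [← this]
    apply integral_congr_ae
    refine Eventually.of_forall fun x => ?_
    simp only
    ring
  have h0 : Tendsto (fun n => (∫ x in Ω, (φ n x - u x) * g x) ^ 2) atTop (𝓝 0) := by
    refine squeeze_zero (fun n => by positivity) key ?_
    simpa using h.mul_const (∫ x in Ω, g x ^ 2)
  have h1 : Tendsto (fun n => ∫ x in Ω, (φ n x - u x) * g x) atTop (𝓝 0) := by
    have := (Real.continuous_sqrt.tendsto 0).comp h0
    simp only [Function.comp_def, Real.sqrt_sq_eq_abs, Real.sqrt_zero] at this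
    exact (tendsto_zero_iff_abs_tendsto_zero _).2 this
  have h2 : ∀ n, ∫ x in Ω, φ n x * g x = (∫ x in Ω, (φ n x - u x) * g x) + ∫ x in Ω, u x * g x := by
    intro n
    have i1 : Integrable (fun x => (φ n x - u x) * g x) (volume.restrict Ω) :=
      (hd n).integrable_mul hg
    have i2 : Integrable (fun x => u x * g x) (volume.restrict Ω) := hu.integrable_mul hg
    rw [← integral_add i1 i2]
    apply integral_congr_ae
    refine Eventually.of_forall fun x => ?_
    simp only
    ring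
  simp only [h2]
  simpa using h1.add_const (∫ x in Ω, u x * g x)

theorem memLp_of_cont {g : EuclideanSpace ℝ (Fin d) → ℝ} (hg : Continuous g) :
    MemLp g 2 (volume.restrict Ω) :=
  (memLp_two_iff_integrable_sq hg.aestronglyMeasurable).2 (hG.intOn (hg.pow 2))

theorem tendsto_sq_of_L2 {u : EuclideanSpace ℝ (Fin d) → ℝ}
    {φ : ℕ → EuclideanSpace ℝ (Fin d) → ℝ}
    (hu : MemLp u 2 (volume.restrict Ω)) (hφ : ∀ n, Continuous (φ n))
    (h : Tendsto (fun n => ∫ x in Ω, (φ n x - u x) ^ 2) atTop (𝓝 0)) :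
    Tendsto (fun n => ∫ x in Ω, φ n x ^ 2) atTop (𝓝 (∫ x in Ω, u x ^ 2)) := by
  have h1 := tendsto_mul_of_L2 hG hu hu hφ h
  have h2 : ∀ n, ∫ x in Ω, φ n x ^ 2 = (∫ x in Ω, (φ n x - u x) ^ 2) +
      2 * (∫ x in Ω, φ n x * u x) - ∫ x in Ω, u x ^ 2 := by
    intro n
    have m := memLp_of_cont hG (hφ n)
    have i1 : Integrable (fun x => (φ n x - u x) ^ 2) (volume.restrict Ω) :=
      (m.sub hu).integrable_sq
    have i3 : Integrable (fun x => φ n x * u x) (volume.restrict Ω) := m.integrable_mul hu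
    have := lin3 i1 i3 hu.integrable_sq 1 2 (-1)
    rw [one_mul, neg_one_mul, ← sub_eq_add_neg] at this
    rw [← this]
    apply integral_congr_ae
    refine Eventually.of_forall fun x => ?_
    simp only
    ring
  simp only [h2]
  have h3 : ∫ x in Ω, u x * u x = ∫ x in Ω, u x ^ 2 := by
    congr 1
    ext x
    ring
  rw [h3] at h1
  have := (h.add (h1.const_mul 2)).sub_const (∫ x in Ω, u x ^ 2)
  convert this using 2
  ring

/-- First variation: along the minimising sequence the bilinear form converges to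
`lam ∫ u ψ` for every `C^1` test function. -/
theorem first_variation (hα : 0 ≤ α) {u : EuclideanSpace ℝ (Fin d) → ℝ}
    {φ : ℕ → EuclideanSpace ℝ (Fin d) → ℝ}
    (hu : MemLp u 2 (volume.restrict Ω)) (hφ : ∀ n, ContDiff ℝ 1 (φ n))
    (h : Tendsto (fun n => ∫ x in Ω, (φ n x - u x) ^ 2) atTop (𝓝 0))
    (hE : Tendsto (fun n => energy Ω α (φ n)) atTop (𝓝 (lam Ω α * ∫ x in Ω, u x ^ 2)))
    {ψ : EuclideanSpace ℝ (Fin d) → ℝ} (hψ : ContDiff ℝ 1 ψ) :
    Tendsto (fun n => bil Ω α (φ n) ψ) atTop (𝓝 (lam Ω α * ∫ x in Ω, u x * ψ x)) := by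
  have hN := tendsto_sq_of_L2 hG hu (fun n => (hφ n).continuous) h
  have hM := tendsto_mul_of_L2 hG hu (memLp_of_cont hG hψ.continuous)
    (fun n => (hφ n).continuous) h
  have hQ : Tendsto (fun n => energy Ω α (φ n) - lam Ω α * ∫ x in Ω, φ n x ^ 2) atTop (𝓝 0) := by
    have := hE.sub (hN.const_mul (lam Ω α))
    simpa using this
  have key : ∀ n, (bil Ω α (φ n) ψ - lam Ω α * ∫ x in Ω, φ n x * ψ x) ^ 2 ≤
      (energy Ω α (φ n) - lam Ω α * ∫ x in Ω, φ n x ^ 2) *
        (energy Ω α ψ - lam Ω α * ∫ x in Ω, ψ x ^ 2) := by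
    intro n
    apply quad_ineq
    intro t
    have hc : ContDiff ℝ 1 (fun y => φ n y + t * ψ y) := (hφ n).add (contDiff_const.mul hψ)
    have h1 := lam_le (Ω := Ω) hα hc
    rw [energy_add hG (hφ n) hψ t] at h1
    have c1 := (hφ n).continuous
    have c2 := hψ.continuous
    have e : ∫ x in Ω, (φ n x + t * ψ x) ^ 2 = (∫ x in Ω, φ n x ^ 2) +
        (2 * t) * (∫ x in Ω, φ n x * ψ x) + t ^ 2 * ∫ x in Ω, ψ x ^ 2 := by
      rw [← integral_const_mul, ← integral_const_mul, ← integral_add, ← integral_add]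
      · apply integral_congr_ae
        refine Eventually.of_forall fun x => ?_
        simp only
        ring
      · exact (hG.intOn (by fun_prop)).add (hG.intOn (by fun_prop))
      · exact hG.intOn (by fun_prop)
      · exact hG.intOn (by fun_prop)
      · exact hG.intOn (by fun_prop)
    rw [e] at h1
    linarith
  have h0 : Tendsto (fun n => (bil Ω α (φ n) ψ - lam Ω α * ∫ x in Ω, φ n x * ψ x) ^ 2)
      atTop (𝓝 0) := by
    refine squeeze_zero (fun n => by positivity) key ?_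
    simpa using hQ.mul_const (energy Ω α ψ - lam Ω α * ∫ x in Ω, ψ x ^ 2)
  have h1 : Tendsto (fun n => bil Ω α (φ n) ψ - lam Ω α * ∫ x in Ω, φ n x * ψ x) atTop (𝓝 0) := by
    have := (Real.continuous_sqrt.tendsto 0).comp h0
    simp only [Function.comp_def, Real.sqrt_sq_eq_abs, Real.sqrt_zero] at this
    exact (tendsto_zero_iff_abs_tendsto_zero _).2 this
  have := h1.add (hM.const_mul (lam Ω α))
  simpa using this

end

end Pool.Agent.H943R3
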