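import Pool.Agent.H943R3.DivId

/-! The very weak identity for the first Robin eigenfunction in a frame. -/

namespace Pool.Agent.H943R3

open MeasureTheory Set Filter Topology InnerProductSpace

theorem C2T.cont {G G1 G2 : ℝ → ℝ} (h : C2T G G1 G2) : Continuous G :=
  continuous_iff_continuousAt.2 fun t => (h.1 t).continuousAt

theorem C2T.cont1 {G G1 G2 : ℝ → ℝ} (h : C2T G G1 G2) : Continuous G1 :=
  continuous_iff_continuousAt.2 fun t => (h.2.1 t).continuousAt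

theorem C2T.cont2 {G G1 G2 : ℝ → ℝ} (h : C2T G G1 G2) : Continuous G2 := h.2.2

theorem C2T.contDiff {G G1 G2 : ℝ → ℝ} (h : C2T G G1 G2) : ContDiff ℝ 1 G := by
  rw [contDiff_one_iff_deriv]
  refine ⟨fun t => (h.1 t).differentiableAt, ?_⟩
  have : deriv G = G1 := funext fun t => (h.1 t).deriv
  rw [this]
  exact h.cont1

theorem FBox_eq (δ ρ : ℝ) : FBox δ ρ =
    Set.pi univ fun i => Ioo ((![0, -ρ, -ρ] : Fin 3 → ℝ) i) ((![δ, ρ, ρ] : Fin 3 → ℝ) i) := by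
  ext s
  simp only [FBox, mem_ofPred_eq, Set.mem_pi, mem_univ, true_imp_iff, mem_Ioo]
  rw [Fin.forall_fin_succ, Fin.forall_fin_succ, Fin.forall_fin_succ]
  simp [abs_lt]
  tauto

theorem measurableSet_FBox (δ ρ : ℝ) : MeasurableSet (FBox δ ρ) := by
  rw [FBox_eq]
  exact MeasurableSet.univ_pi fun i => measurableSet_Ioo

theorem FBox_ae (δ ρ : ℝ) : (FBox δ ρ : Set (Fin 3 → ℝ)) =ᵐ[volume]
    Icc (![0, -ρ, -ρ] : Fin 3 → ℝ) ![δ, ρ, ρ] := by
  rw [FBox_eq]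
  exact Measure.univ_pi_Ioo_ae_eq_Icc

theorem integrableOn_FBox {δ ρ : ℝ} {f : (Fin 3 → ℝ) → ℝ} (hf : Continuous f) :
    IntegrableOn f (FBox δ ρ) volume := by
  have : IntegrableOn f (Icc (![0, -ρ, -ρ] : Fin 3 → ℝ) ![δ, ρ, ρ]) volume := hf.integrableOn_Icc
  exact this.congr_set_ae (FBox_ae δ ρ)

/-- The Laplacian of a product test function. -/
def lap (G G2 η η2 θ θ2 : ℝ → ℝ) (s : Fin 3 → ℝ) : ℝ :=
  G2 (s 0) * η (s 1) * θ (s 2) + G (s 0) * η2 (s 1) * θ (s 2) + G (s 0) * η (s 1) * θ2 (s 2)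

/-- A product test function. -/
def prd (G η θ : ℝ → ℝ) (s : Fin 3 → ℝ) : ℝ := G (s 0) * η (s 1) * θ (s 2)

section
variable (q : E3) (b : OrthonormalBasis (Fin 3) ℝ E3)

theorem hasFDerivAt_fr (s : Fin 3 → ℝ) : HasFDerivAt (fr q b)
    (∑ i, (ContinuousLinearMap.proj (R := ℝ) (φ := fun _ : Fin 3 => ℝ) i).smulRight (b i)) s := by
  unfold fr
  refine HasFDerivAt.const_add q ?_
  refine HasFDerivAt.fun_sum fun i _ => ?_
  exact (hasFDerivAt_apply (𝕜 := ℝ) i s).smul_const (b i)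

theorem fderiv_comp_fr {φ : E3 → ℝ} (s : Fin 3 → ℝ) (hφ : DifferentiableAt ℝ φ (fr q b s))
    (i : Fin 3) : fderiv ℝ (fun s => φ (fr q b s)) s (Pi.single i 1) =
      fderiv ℝ φ (fr q b s) (b i) := by
  have := (hφ.hasFDerivAt.comp s (hasFDerivAt_fr q b s)).fderiv
  have e : (fun s => φ (fr q b s)) = φ ∘ fr q b := rfl
  rw [e, this]
  simp [Pi.single_apply]

theorem inner_grad_fr {φ ψ : E3 → ℝ} (s : Fin 3 → ℝ) (hφ : DifferentiableAt ℝ φ (fr q b s))
    (hψ : DifferentiableAt ℝ ψ (fr q b s)) :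
    ⟪gradient φ (fr q b s), gradient ψ (fr q b s)⟫_ℝ =
      ∑ i, fderiv ℝ (fun s => φ (fr q b s)) s (Pi.single i 1) *
        fderiv ℝ (fun s => ψ (fr q b s)) s (Pi.single i 1) := by
  rw [← b.sum_inner_mul_inner]
  refine Finset.sum_congr rfl fun i _ => ?_
  rw [fderiv_comp_fr q b s hφ, fderiv_comp_fr q b s hψ, real_inner_comm (gradient ψ _) (b i)]
  simp only [gradient, toDual_symm_apply]

theorem contDiff_co (i : Fin 3) : ContDiff ℝ 1 (fun x => co q b x i) := by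
  unfold co
  exact contDiff_const.inner ℝ (contDiff_id.sub contDiff_const)

theorem contDiff_tst {G G1 G2 η η1 η2 θ θ1 θ2 : ℝ → ℝ} (hG : C2T G G1 G2)
    (hη : C2T η η1 η2) (hθ : C2T θ θ1 θ2) :
    ContDiff ℝ 1 (fun x => prd G η θ (co q b x)) := by
  unfold prd
  exact ((hG.contDiff.comp (contDiff_co q b 0)).mul (hη.contDiff.comp (contDiff_co q b 1))).mul
    (hθ.contDiff.comp (contDiff_co q b 2))

/-- Data of an admissible product test function in a frame. -/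
structure Adm (Ω : Set E3) (α δ ρ : ℝ) (G G1 G2 η η1 η2 θ θ1 θ2 : ℝ → ℝ) : Prop where
  hδ : 0 < δ
  hρ : 0 < ρ
  hG : C2T G G1 G2
  hη : C2T η η1 η2
  hθ : C2T θ θ1 θ2
  e1 : G1 δ = 0
  e2 : η1 ρ = 0
  e3 : η1 (-ρ) = 0
  e4 : θ1 ρ = 0
  e5 : θ1 (-ρ) = 0
  bc : G1 0 = α * G 0
  H1 : ∀ s ∈ FBox δ ρ, fr q b s ∈ Ω
  H2 : ∀ s, fr q b s ∈ Ω → s ∉ FBox δ ρ → (G (s 0) = 0 ∧ G1 (s 0) = 0) ∨
    (η (s 1) = 0 ∧ η1 (s 1) = 0) ∨ (θ (s 2) = 0 ∧ θ1 (s 2) = 0)
  H3 : ∀ φ : E3 → ℝ, Continuous φ →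
    ∫ x in frontier Ω, φ x * prd G η θ (co q b x) ∂(μHE[2]) =
      ∫ y in Icc (![-ρ, -ρ] : Fin 2 → ℝ) ![ρ, ρ], φ (fr q b (Fin.cons 0 y)) *
        (G 0 * η (y 0) * θ (y 1))

variable {q b}

theorem bil_test {Ω : Set E3} (hΩ : MeasurableSet Ω) {α δ ρ : ℝ}
    {G G1 G2 η η1 η2 θ θ1 θ2 : ℝ → ℝ}
    (hA : Adm q b Ω α δ ρ G G1 G2 η η1 η2 θ θ1 θ2) {φ : E3 → ℝ} (hφ : ContDiff ℝ 1 φ) :
    bil Ω α φ (fun x => prd G η θ (co q b x)) =
      - ∫ s in FBox δ ρ, φ (fr q b s) * lap G G2 η η2 θ θ2 s := by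
  have hψ := contDiff_tst q b hA.hG hA.hη hA.hθ
  have hFc : ContDiff ℝ 1 (fun s => φ (fr q b s)) := hφ.comp (contDiff_fr q b)
  have hdφ : Differentiable ℝ φ := hφ.differentiable (by norm_num)
  have hdψ : Differentiable ℝ (fun x => prd G η θ (co q b x)) := hψ.differentiable (by norm_num)
  have hP : ∀ s : Fin 3 → ℝ, (∀ i, fderiv ℝ (fun s => prd G η θ (co q b (fr q b s))) s
      (Pi.single i 1) = ![G1 (s 0) * η (s 1) * θ (s 2), G (s 0) * η1 (s 1) * θ (s 2),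
        G (s 0) * η (s 1) * θ1 (s 2)] i) := by
    intro s i
    have e : (fun s => prd G η θ (co q b (fr q b s))) =
        fun x : Fin 3 → ℝ => G (x 0) * η (x 1) * θ (x 2) := by
      ext s
      rw [co_fr]
      rfl
    rw [e, (hasFDerivAt_prod3 hA.hG.1 hA.hη.1 hA.hθ.1 s).fderiv]
    fin_cases i <;> simp
  have hin : ∀ s, ⟪gradient φ (fr q b s), gradient (fun x => prd G η θ (co q b x)) (fr q b s)⟫_ℝ =
      fderiv ℝ (fun s => φ (fr q b s)) s (Pi.single 0 1) * (G1 (s 0) * η (s 1) * θ (s 2))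
      + fderiv ℝ (fun s => φ (fr q b s)) s (Pi.single 1 1) * (G (s 0) * η1 (s 1) * θ (s 2))
      + fderiv ℝ (fun s => φ (fr q b s)) s (Pi.single 2 1) * (G (s 0) * η (s 1) * θ1 (s 2)) := by
    intro s
    rw [inner_grad_fr q b s (hdφ _) (hdψ _), Fin.sum_univ_three, hP, hP, hP]
    simp
  unfold bil
  have s1 : ∫ x in Ω, ⟪gradient φ x, gradient (fun x => prd G η θ (co q b x)) x⟫_ℝ =
      ∫ s in FBox δ ρ, ⟪gradient φ (fr q b s),
        gradient (fun x => prd G η θ (co q b x)) (fr q b s)⟫_ℝ := by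
    refine setIntegral_fr q b hΩ (measurableSet_FBox δ ρ)
      (fun x => ⟪gradient φ x, gradient (fun x => prd G η θ (co q b x)) x⟫_ℝ) hA.H1 ?_
    intro s hs hs'
    rw [hin]
    rcases hA.H2 s hs hs' with h | h | h <;> simp [h.1, h.2]
  rw [s1]
  simp only [hin]
  rw [setIntegral_congr_set (FBox_ae δ ρ), setIntegral_congr_set (FBox_ae δ ρ)]
  have key := div_id hA.hδ hA.hρ (fun s => φ (fr q b s)) hFc hA.hG hA.hη hA.hθ hA.e1 hA.e2 hA.e3
    hA.e4 hA.e5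
  have h3 := hA.H3 φ hφ.continuous
  show _ + α * ∫ x in frontier Ω, φ x * prd G η θ (co q b x) ∂(μHE[2]) = _
  rw [h3]
  have h4 : ∫ y in Icc (![-ρ, -ρ] : Fin 2 → ℝ) ![ρ, ρ], φ (fr q b (Fin.cons 0 y)) *
      (G1 0 * η (y 0) * θ (y 1)) = α * ∫ y in Icc (![-ρ, -ρ] : Fin 2 → ℝ) ![ρ, ρ],
        φ (fr q b (Fin.cons 0 y)) * (G 0 * η (y 0) * θ (y 1)) := by
    rw [← integral_const_mul]
    congr 1
    ext y
    rw [hA.bc]
    ring
  rw [h4] at key
  unfold lap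
  linarith

theorem very_weak {Ω : Set E3} (hGd : Good Ω) {α δ ρ : ℝ} (hα : 0 ≤ α)
    {G G1 G2 η η1 η2 θ θ1 θ2 : ℝ → ℝ}
    (hA : Adm q b Ω α δ ρ G G1 G2 η η1 η2 θ θ1 θ2) {u : E3 → ℝ} (hu : IsFirstRobin Ω α u) :
    ∫ s in FBox δ ρ, u (fr q b s) * (lap G G2 η η2 θ θ2 s + lam Ω α * prd G η θ s) = 0 := by
  obtain ⟨-, hu2, φ, hφ, hL, hE⟩ := hu
  have hm : MeasurableSet Ω := hGd.opn.measurableSet
  have hψ := contDiff_tst q b hA.hG hA.hη hA.hθ
  have cG := hA.hG.cont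
  have cG2 := hA.hG.cont2
  have cη := hA.hη.cont
  have cη2 := hA.hη.cont2
  have cθ := hA.hθ.cont
  have cθ2 := hA.hθ.cont2
  have cl : Continuous (lap G G2 η η2 θ θ2) := by
    unfold lap
    fun_prop
  have cp : Continuous (prd G η θ) := by
    unfold prd
    fun_prop
  have cfr := continuous_fr q b
  have cco := continuous_co q b
  set K : (Fin 3 → ℝ) → ℝ := fun s => lap G G2 η η2 θ θ2 s + lam Ω α * prd G η θ s with hK
  have cK : Continuous K := by fun_prop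
  set g : E3 → ℝ := {x | co q b x ∈ FBox δ ρ}.indicator (fun x => K (co q b x)) with hg
  have hgL : MemLp g 2 (volume.restrict Ω) :=
    (memLp_of_cont hGd (cK.comp cco)).indicator (cco.measurable (measurableSet_FBox δ ρ))
  have htr : ∀ f : E3 → ℝ, ∫ x in Ω, f x * g x = ∫ s in FBox δ ρ, f (fr q b s) * K s := by
    intro f
    rw [setIntegral_fr q b hm (measurableSet_FBox δ ρ) (fun x => f x * g x) hA.H1]
    · apply setIntegral_congr_fun (measurableSet_FBox δ ρ)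
      intro s hs
      simp [hg, co_fr, hs]
    · intro s _ hs
      simp [hg, co_fr, hs]
  have h1 := tendsto_mul_of_L2 hGd hu2 hgL (fun n => (hφ n).continuous) hL
  have h2 := first_variation hGd hα hu2 hφ hL hE hψ
  have h3 := tendsto_mul_of_L2 hGd hu2 (memLp_of_cont hGd hψ.continuous)
    (fun n => (hφ n).continuous) hL
  have e1 : ∀ n, ∫ x in Ω, φ n x * g x = - bil Ω α (φ n) (fun x => prd G η θ (co q b x)) +
      lam Ω α * ∫ x in Ω, φ n x * prd G η θ (co q b x) := by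
    intro n
    have c1 := (hφ n).continuous
    rw [htr, bil_test hm hA (hφ n), neg_neg]
    have e2 : ∫ x in Ω, φ n x * prd G η θ (co q b x) =
        ∫ s in FBox δ ρ, φ n (fr q b s) * prd G η θ s := by
      rw [setIntegral_fr q b hm (measurableSet_FBox δ ρ)
        (fun x => φ n x * prd G η θ (co q b x)) hA.H1]
      · apply setIntegral_congr_fun (measurableSet_FBox δ ρ)
        intro s hs
        simp [co_fr]
      · intro s hs hs'
        simp only [co_fr, prd]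
        rcases hA.H2 s hs hs' with h | h | h <;> simp [h.1]
    rw [e2, ← integral_const_mul, ← integral_add]
    · congr 1
      ext s
      simp only [hK]
      ring
    · exact integrableOn_FBox (by fun_prop)
    · exact integrableOn_FBox (by fun_prop)
  simp only [e1] at h1
  have h4 := h2.neg.add (h3.const_mul (lam Ω α))
  rw [htr] at h1
  have := tendsto_nhds_unique h1 h4
  rw [this]
  ring

end

end Pool.Agent.H943R3
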