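import Pool.Agent.H943R3.Interior

/-! The slope of the blow-up limit at a face through the apex. -/

namespace Pool.Agent.H943R3

open MeasureTheory Set Filter Topology InnerProductSpace

theorem C2T.mulT {G G1 G2 : ℝ → ℝ} (h : C2T G G1 G2) :
    C2T (fun t => t * G t) (fun t => G t + t * G1 t) (fun t => 2 * G1 t + t * G2 t) := by
  have hid : ∀ t : ℝ, HasDerivAt (fun t : ℝ => t) 1 t := fun t => hasDerivAt_id t
  refine ⟨fun t => ?_, fun t => ?_, ?_⟩
  · exact ((hid t).mul (h.1 t)).congr_deriv (by ring)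
  · exact ((h.1 t).add ((hid t).mul (h.2.1 t))).congr_deriv (by ring)
  · have := h.2.2
    have := h.cont1
    fun_prop

theorem linf_contDiff (i : Fin 3) : ContDiff ℝ 1 (fun s : Fin 3 → ℝ => s i) := by fun_prop

theorem fderiv_coord (i j : Fin 3) (s : Fin 3 → ℝ) :
    fderiv ℝ (fun s : Fin 3 → ℝ => s i) s (Pi.single j 1) = if i = j then 1 else 0 := by
  have : HasFDerivAt (fun s : Fin 3 → ℝ => s i)
      (ContinuousLinearMap.proj (R := ℝ) (φ := fun _ : Fin 3 => ℝ) i) s :=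
    hasFDerivAt_apply (𝕜 := ℝ) i s
  rw [this.fderiv]
  simp [Pi.single_apply]

/-- integrals of affine functions against the Laplacian of a product bump -/
theorem affine_integrals {δ ρ : ℝ} (hδ : 0 < δ) (hρ : 0 < ρ) {g g1 g2 η η1 η2 θ θ1 θ2 : ℝ → ℝ}
    (hg : C2T g g1 g2) (hη : C2T η η1 η2) (hθ : C2T θ θ1 θ2) (z0 : g1 0 = 0)
    (vg : g δ = 0 ∧ g1 δ = 0) (vη : ∀ t, ρ ≤ |t| → η t = 0 ∧ η1 t = 0)
    (vθ : ∀ t, ρ ≤ |t| → θ t = 0 ∧ θ1 t = 0) (a : Fin 3 → ℝ) (c : ℝ) :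
    let I := ∫ y in Icc (![-ρ, -ρ] : Fin 2 → ℝ) ![ρ, ρ], g 0 * η (y 0) * θ (y 1)
    (∫ s in FBox δ ρ, lap g g2 η η2 θ θ2 s = 0) ∧
    (∫ s in FBox δ ρ, lap (fun t => t * g t) (fun t => 2 * g1 t + t * g2 t) η η2 θ θ2 s = - I) ∧
    (∫ s in FBox δ ρ, (a 0 * s 0 + a 1 * s 1 + a 2 * s 2 + c) * lap g g2 η η2 θ θ2 s = a 0 * I) := by
  intro I
  have eρ := vη ρ (le_abs_self ρ)
  have eρ' := vη (-ρ) (by rw [abs_neg]; exact le_abs_self ρ)
  have fρ := vθ ρ (le_abs_self ρ)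
  have fρ' := vθ (-ρ) (by rw [abs_neg]; exact le_abs_self ρ)
  have cg := hg.cont
  have cg1 := hg.cont1
  have cg2 := hg.cont2
  have cη := hη.cont
  have cη1 := hη.cont1
  have cη2 := hη.cont2
  have cθ := hθ.cont
  have cθ1 := hθ.cont1
  have cθ2 := hθ.cont2
  have ae := FBox_ae δ ρ
  -- constant function
  have A1 := div_id hδ hρ (fun _ => 1) contDiff_const hg hη hθ vg.2 eρ.2 eρ'.2 fρ.2 fρ'.2
  have A2 := div_id hδ hρ (fun _ => 1) contDiff_const hg.mulT hη hθ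
    (by simp [vg.1, vg.2]) eρ.2 eρ'.2 fρ.2 fρ'.2
  have A3 := div_id hδ hρ (fun _ => 1) contDiff_const hg hη.mulT hθ vg.2
    (by simp [eρ.1, eρ.2]) (by simp [eρ'.1, eρ'.2]) fρ.2 fρ'.2
  have A4 := div_id hδ hρ (fun _ => 1) contDiff_const hg hη hθ.mulT vg.2 eρ.2 eρ'.2
    (by simp [fρ.1, fρ.2]) (by simp [fρ'.1, fρ'.2])
  have B0 := div_id hδ hρ (fun s => s 0) (linf_contDiff 0) hg hη hθ vg.2 eρ.2 eρ'.2 fρ.2 fρ'.2
  have B1 := div_id hδ hρ (fun s => s 1) (linf_contDiff 1) hg hη hθ vg.2 eρ.2 eρ'.2 fρ.2 fρ'.2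
  have B2 := div_id hδ hρ (fun s => s 2) (linf_contDiff 2) hg hη hθ vg.2 eρ.2 eρ'.2 fρ.2 fρ'.2
  simp only [fderiv_coord, Fin.isValue] at B0 B1 B2
  rw [← setIntegral_congr_set ae, ← setIntegral_congr_set ae] at A1 A2 A3 A4 B0 B1 B2
  simp only [fderiv_fun_const, Pi.zero_apply, _root_.zero_apply, zero_mul, add_zero,
    integral_zero, zero_add, one_mul, z0, neg_zero, mul_zero, reduceIte, Fin.reduceEq]
    at A1 A2 A3 A4 B0 B1 B2
  have iX : IntegrableOn (fun s : Fin 3 → ℝ => g1 (s 0) * η (s 1) * θ (s 2)) (FBox δ ρ) volume :=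
    integrableOn_FBox (by fun_prop)
  have iX1 : IntegrableOn (fun s : Fin 3 → ℝ => g (s 0) * η1 (s 1) * θ (s 2)) (FBox δ ρ) volume :=
    integrableOn_FBox (by fun_prop)
  have iX2 : IntegrableOn (fun s : Fin 3 → ℝ => g (s 0) * η (s 1) * θ1 (s 2)) (FBox δ ρ) volume :=
    integrableOn_FBox (by fun_prop)
  have iK : IntegrableOn (fun s : Fin 3 → ℝ => g2 (s 0) * η (s 1) * θ (s 2) +
      g (s 0) * η2 (s 1) * θ (s 2) + g (s 0) * η (s 1) * θ2 (s 2)) (FBox δ ρ) volume :=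
    integrableOn_FBox (by fun_prop)
  have iK0 : IntegrableOn (fun s : Fin 3 → ℝ => s 0 * (g2 (s 0) * η (s 1) * θ (s 2) +
      g (s 0) * η2 (s 1) * θ (s 2) + g (s 0) * η (s 1) * θ2 (s 2))) (FBox δ ρ) volume :=
    integrableOn_FBox (by fun_prop)
  have iK1 : IntegrableOn (fun s : Fin 3 → ℝ => s 1 * (g2 (s 0) * η (s 1) * θ (s 2) +
      g (s 0) * η2 (s 1) * θ (s 2) + g (s 0) * η (s 1) * θ2 (s 2))) (FBox δ ρ) volume :=
    integrableOn_FBox (by fun_prop)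
  have iK2 : IntegrableOn (fun s : Fin 3 → ℝ => s 2 * (g2 (s 0) * η (s 1) * θ (s 2) +
      g (s 0) * η2 (s 1) * θ (s 2) + g (s 0) * η (s 1) * θ2 (s 2))) (FBox δ ρ) volume :=
    integrableOn_FBox (by fun_prop)
  set X := ∫ s in FBox δ ρ, g1 (s 0) * η (s 1) * θ (s 2)
  set X1 := ∫ s in FBox δ ρ, g (s 0) * η1 (s 1) * θ (s 2)
  set X2 := ∫ s in FBox δ ρ, g (s 0) * η (s 1) * θ1 (s 2)
  set Y0 := ∫ s in FBox δ ρ, s 0 * (g2 (s 0) * η (s 1) * θ (s 2) +
      g (s 0) * η2 (s 1) * θ (s 2) + g (s 0) * η (s 1) * θ2 (s 2))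
  set Y1 := ∫ s in FBox δ ρ, s 1 * (g2 (s 0) * η (s 1) * θ (s 2) +
      g (s 0) * η2 (s 1) * θ (s 2) + g (s 0) * η (s 1) * θ2 (s 2))
  set Y2 := ∫ s in FBox δ ρ, s 2 * (g2 (s 0) * η (s 1) * θ (s 2) +
      g (s 0) * η2 (s 1) * θ (s 2) + g (s 0) * η (s 1) * θ2 (s 2))
  have D2 : ∫ s in FBox δ ρ, lap (fun t => t * g t) (fun t => 2 * g1 t + t * g2 t) η η2 θ θ2 s
      = 2 * X + Y0 := by
    rw [← integral_const_mul, ← integral_add (iX.const_mul 2) iK0]
    congr 1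
    ext s
    simp only [lap]
    ring
  have D3 : ∫ s in FBox δ ρ, (g2 (s 0) * (s 1 * η (s 1)) * θ (s 2) +
      g (s 0) * (2 * η1 (s 1) + s 1 * η2 (s 1)) * θ (s 2) +
      g (s 0) * (s 1 * η (s 1)) * θ2 (s 2)) = 2 * X1 + Y1 := by
    rw [← integral_const_mul, ← integral_add (iX1.const_mul 2) iK1]
    congr 1
    ext s
    ring
  have D4 : ∫ s in FBox δ ρ, (g2 (s 0) * η (s 1) * (s 2 * θ (s 2)) +
      g (s 0) * η2 (s 1) * (s 2 * θ (s 2)) +
      g (s 0) * η (s 1) * (2 * θ1 (s 2) + s 2 * θ2 (s 2))) = 2 * X2 + Y2 := by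
    rw [← integral_const_mul, ← integral_add (iX2.const_mul 2) iK2]
    congr 1
    ext s
    ring
  rw [D3] at A3
  rw [D4] at A4
  have D2' : ∫ s in FBox δ ρ, lap (fun t => t * g t) (fun t => 2 * g1 t + t * g2 t) η η2 θ θ2 s
      = -I := A2
  refine ⟨A1, D2', ?_⟩
  have D5 : ∫ s in FBox δ ρ, (a 0 * s 0 + a 1 * s 1 + a 2 * s 2 + c) * lap g g2 η η2 θ θ2 s =
      a 0 * Y0 + a 1 * Y1 + a 2 * Y2 + c * ∫ s in FBox δ ρ, (g2 (s 0) * η (s 1) * θ (s 2) +
      g (s 0) * η2 (s 1) * θ (s 2) + g (s 0) * η (s 1) * θ2 (s 2)) := by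
    have j1 := lin3 iK0 iK1 iK2 (a 0) (a 1) (a 2)
    rw [← j1, ← integral_const_mul, ← integral_add]
    · congr 1
      ext s
      simp only [lap]
      ring
    · exact ((iK0.const_mul _).add (iK1.const_mul _)).add (iK2.const_mul _)
    · exact iK.const_mul c
  rw [D5, A1]
  have x0 : X = -I := by linarith
  have y0 : Y0 = I := by linarith
  have x1 : Y1 = 0 := by linarith
  have x2 : Y2 = 0 := by linarith
  rw [y0, x1, x2]
  ring

theorem I_pos {ρ : ℝ} (hρ : 0 < ρ) :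
    0 < ∫ y in Icc (![-ρ, -ρ] : Fin 2 → ℝ) ![ρ, ρ], bmp 0 * bmp (y 0 / ρ) * bmp (y 1 / ρ) := by
  have cb := cont_bmp
  have hc : Continuous fun y : Fin 2 → ℝ => bmp 0 * bmp (y 0 / ρ) * bmp (y 1 / ρ) := by
    fun_prop
  rw [setIntegral_pos_iff_support_of_nonneg_ae]
  · have hopen : IsOpen ((Function.support fun y : Fin 2 → ℝ =>
        bmp 0 * bmp (y 0 / ρ) * bmp (y 1 / ρ)) ∩ Set.pi univ fun _ => Ioo (-ρ) ρ) := by
      refine IsOpen.inter hc.isOpen_support ?_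
      exact isOpen_set_pi finite_univ fun _ _ => isOpen_Ioo
    have hne : ((Function.support fun y : Fin 2 → ℝ =>
        bmp 0 * bmp (y 0 / ρ) * bmp (y 1 / ρ)) ∩ Set.pi univ fun _ => Ioo (-ρ) ρ).Nonempty := by
      refine ⟨0, ?_, ?_⟩
      · simp [bmp]
      · intro i _
        simp [hρ]
    refine (hopen.measure_pos volume hne).trans_le (measure_mono ?_)
    refine inter_subset_inter_right _ ?_
    intro y hy
    rw [mem_Icc]
    constructor
    · intro i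
      have := (hy i (mem_univ i)).1
      fin_cases i <;> exact this.le
    · intro i
      have := (hy i (mem_univ i)).2
      fin_cases i <;> exact this.le
  · exact Eventually.of_forall fun y =>
      mul_nonneg (mul_nonneg (bmp_nonneg _) (bmp_nonneg _)) (bmp_nonneg _)
  · exact hc.integrableOn_Icc

theorem wall_slope {Ω : Set E3} (hGd : Good Ω)
    (hstar : ∀ x ∈ Ω, ∀ r : ℝ, 0 < r → r ≤ 1 → r • x ∈ Ω)
    {α : ℝ} (hα : 0 ≤ α) {u v : E3 → ℝ} (hu : IsFirstRobin Ω α u)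
    (hv : v = fun x => - Real.log (u x)) (hvc : ContinuousOn v Ω)
    {v0 M1 : ℝ} {L : E3 → ℝ} (hB : BlowData Ω v v0 M1 L)
    {q : E3} {b : OrthonormalBasis (Fin 3) ℝ E3} {δ ρ : ℝ} (hδ : 0 < δ) (hρ : 0 < ρ)
    (hbox : ∀ s ∈ FBox δ ρ, fr q b s ∈ Ω) (hcone : ∀ x ∈ Ω, 0 < ⟪b 0, x⟫_ℝ)
    (hq : ⟪b 0, q⟫_ℝ = 0) {M2 : ℝ} (hM2 : ∀ s ∈ FBox δ ρ, v (fr q b s) ≤ M2)
    {a : E3} {c : ℝ} (haff : ∀ x ∈ Ω, L x = ⟪a, x⟫_ℝ + c) : ⟪a, b 0⟫_ℝ = - α := by
  -- the bumps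
  have hg := c2t_bmp.scale hδ
  have hη := c2t_bmp.scale hρ
  have b1z : bmp1 0 = 0 := by simp [bmp1]
  have b0o : bmp 0 = 1 := by simp [bmp]
  have vη : ∀ t : ℝ, ρ ≤ |t| → bmp (t / ρ) = 0 ∧ bmp1 (t / ρ) / ρ = 0 := by
    intro t ht
    have h1 : 1 ≤ |t / ρ| := by
      rw [abs_div, abs_of_pos hρ, le_div_iff₀ hρ]
      linarith
    obtain ⟨z1, z2, -⟩ := bmp_zero_of h1
    exact ⟨z1, by rw [z2, zero_div]⟩
  have vg : ∀ t : ℝ, δ ≤ t → bmp (t / δ) = 0 ∧ bmp1 (t / δ) / δ = 0 := by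
    intro t ht
    have h1 : 1 ≤ |t / δ| := by
      rw [le_abs]
      left
      rw [le_div_iff₀ hδ]
      linarith
    obtain ⟨z1, z2, -⟩ := bmp_zero_of h1
    exact ⟨z1, by rw [z2, zero_div]⟩
  obtain ⟨I1, I2, I3⟩ := affine_integrals hδ hρ hg hη hη (by simp [b1z]) (vg δ le_rfl) vη vη
    (fun i => ⟪a, b i⟫_ℝ) (⟪a, q⟫_ℝ + c)
  -- kernels
  set g : ℝ → ℝ := fun t => bmp (t / δ) with hgdef
  set g1 : ℝ → ℝ := fun t => bmp1 (t / δ) / δ with hg1def
  set g2 : ℝ → ℝ := fun t => bmp2 (t / δ) / δ ^ 2 with hg2def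
  set η : ℝ → ℝ := fun t => bmp (t / ρ) with hηdef
  set η1 : ℝ → ℝ := fun t => bmp1 (t / ρ) / ρ with hη1def
  set η2 : ℝ → ℝ := fun t => bmp2 (t / ρ) / ρ ^ 2 with hη2def
  have cg : Continuous g := hg.cont
  have cg1 : Continuous g1 := hg.cont1
  have cg2 : Continuous g2 := hg.cont2
  have cη : Continuous η := hη.cont
  have cη2 : Continuous η2 := hη.cont2
  set K0 : (Fin 3 → ℝ) → ℝ := lap g g2 η η2 η η2 with hK0
  set K1 : (Fin 3 → ℝ) → ℝ := fun s =>
    α * lap (fun t => t * g t) (fun t => 2 * g1 t + t * g2 t) η η2 η η2 s with hK1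
  set K2 : (Fin 3 → ℝ) → ℝ := fun s => lam Ω α * prd g η η s with hK2
  set K3 : (Fin 3 → ℝ) → ℝ := fun s => lam Ω α * (α * prd (fun t => t * g t) η η s) with hK3
  have c0 : Continuous K0 := by
    simp only [hK0]
    unfold lap
    fun_prop
  have c1 : Continuous K1 := by
    simp only [hK1]
    unfold lap
    fun_prop
  have c2 : Continuous K2 := by
    simp only [hK2]
    unfold prd
    fun_prop
  have c3 : Continuous K3 := by
    simp only [hK3]
    unfold prd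
    fun_prop
  have hcpt : IsCompact (Icc (![0, -ρ, -ρ] : Fin 3 → ℝ) ![δ, ρ, ρ]) := isCompact_Icc
  have hsub : FBox δ ρ ⊆ Icc (![0, -ρ, -ρ] : Fin 3 → ℝ) ![δ, ρ, ρ] := by
    rw [FBox_eq]
    intro s hs
    rw [mem_Icc]
    exact ⟨fun i => (hs i (mem_univ i)).1.le, fun i => (hs i (mem_univ i)).2.le⟩
  obtain ⟨C0, hC0⟩ := hcpt.exists_bound_of_continuousOn c0.continuousOn
  obtain ⟨C1, hC1⟩ := hcpt.exists_bound_of_continuousOn c1.continuousOn
  obtain ⟨C2, hC2⟩ := hcpt.exists_bound_of_continuousOn c2.continuousOn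
  obtain ⟨C3, hC3⟩ := hcpt.exists_bound_of_continuousOn c3.continuousOn
  have hBf : volume (FBox δ ρ) < ⊤ := (measure_mono hsub).trans_lt hcpt.measure_lt_top
  have h := blow_identity (B := FBox δ ρ) hu.1 hv hvc hstar hB (measurableSet_FBox δ ρ) hBf
    (continuous_fr q b) hbox hM2 (K0 := K0) (K1 := K1) (K2 := K2) (K3 := K3)
    (C := max (max C0 C1) (max C2 C3)) c0 c1 c2 c3
    (fun s hs => (hC0 s (hsub hs)).trans ((le_max_left _ _).trans (le_max_left _ _)))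
    (fun s hs => (hC1 s (hsub hs)).trans ((le_max_right _ _).trans (le_max_left _ _)))
    (fun s hs => (hC2 s (hsub hs)).trans ((le_max_left _ _).trans (le_max_right _ _)))
    (fun s hs => (hC3 s (hsub hs)).trans ((le_max_right _ _).trans (le_max_right _ _)))
    (fun k => by
      have hr := rk_pos k
      have hr1 := rk_le k
      set r : ℝ := 1 / ((k : ℝ) + 1) with hrdef
      have H1 : ∀ s ∈ FBox (r * δ) (r * ρ), fr (r • q) b s ∈ Ω := by
        intro s hs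
        rw [← smul_FBox hr] at hs
        obtain ⟨t, ht, rfl⟩ := hs
        show fr (r • q) b (r • t) ∈ Ω
        rw [fr_smul]
        exact hstar _ (hbox t ht) r hr hr1
      have hG := (hg.lin (α * r)).scale hr
      have hN := hη.scale hr
      have vN : ∀ t : ℝ, r * ρ ≤ |t| → η (t / r) = 0 ∧ η1 (t / r) / r = 0 := by
        intro t ht
        have h1 : ρ ≤ |t / r| := by
          rw [abs_div, abs_of_pos hr, le_div_iff₀ hr]
          linarith
        obtain ⟨z1, z2⟩ := vη _ h1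
        have z2' : η1 (t / r) = 0 := z2
        exact ⟨z1, by rw [z2', zero_div]⟩
      have hA := adm_face (q := r • q) (b := b) (α := α) hGd.opn (mul_pos hr hδ)
        (mul_pos hr hρ) H1
        (fun x hx => by
          simp only [co, inner_sub_right, inner_smul_right, hq]
          have := hcone x hx
          linarith) hG hN hN
        (by
          simp only [zero_div, hgdef, hg1def, b0o, b1z]
          field_simp
          ring)
        (fun t ht => by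
          have h1 : δ ≤ t / r := by
            rw [le_div_iff₀ hr]
            linarith
          obtain ⟨z1, z2⟩ := vg _ h1
          have z1' : g (t / r) = 0 := z1
          have z2' : g1 (t / r) = 0 := z2
          constructor
          · rw [z1']
            ring
          · rw [z1', z2']
            ring) vN vN
      have h1 := very_weak hGd hα hA hu
      have h2 := vw_resc (G := fun t => g t + α * r * (t * g t))
        (G2 := fun t => g2 t + α * r * (2 * g1 t + t * g2 t)) (η := η)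
        (η2 := η2) (θ := η) (θ2 := η2) hr h1
      rw [← h2]
      congr 1
      ext s
      simp only [hK0, hK1, hK2, hK3, lap, prd]
      ring)
    I1
  have h5 : ∫ s in FBox δ ρ, K1 s = α * (-∫ y in Icc (![-ρ, -ρ] : Fin 2 → ℝ) ![ρ, ρ],
      g 0 * η (y 0) * η (y 1)) := by
    simp only [hK1]
    rw [integral_const_mul, I2]
  have h6 : ∫ s in FBox δ ρ, L (fr q b s) * K0 s =
      ⟪a, b 0⟫_ℝ * ∫ y in Icc (![-ρ, -ρ] : Fin 2 → ℝ) ![ρ, ρ], g 0 * η (y 0) * η (y 1) := by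
    rw [← I3]
    apply setIntegral_congr_fun (measurableSet_FBox δ ρ)
    intro s hs
    simp only
    rw [haff _ (hbox s hs)]
    congr 1
    simp only [fr, inner_add_right, inner_smul_right, Fin.sum_univ_three]
    ring
  rw [h5, h6] at h
  have hI : 0 < ∫ y in Icc (![-ρ, -ρ] : Fin 2 → ℝ) ![ρ, ρ], g 0 * η (y 0) * η (y 1) := by
    have := I_pos hρ
    simp only [hgdef, hηdef, zero_div]
    exact this
  have h7 : (⟪a, b 0⟫_ℝ + α) * ∫ y in Icc (![-ρ, -ρ] : Fin 2 → ℝ) ![ρ, ρ],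
      g 0 * η (y 0) * η (y 1) = 0 := by
    rw [add_mul, h]
    ring
  rcases mul_eq_zero.1 h7 with h8 | h8
  · linarith
  · exact absurd h8 hI.ne'

end Pool.Agent.H943R3
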